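import Pool.Agent.H.MP_42e49e_nt.ER.Bonf

/-!
# ER: the fundamental lemma of the sieve, as an existence statement for sieve weights
-/

set_option autoImplicit false

namespace Pool.MP42e49e.ER

open Finset

private theorem Fl_fact (k : ℕ) (hk : 5 ≤ k) : 2 ^ (3 * k + 9) ≤ (2 * k + 1).factorial := by
  induction k, hk using Nat.le_induction with
  | base => decide
  | succ k hk ih =>
    have e1 : 2 * (k + 1) + 1 = (2 * k + 1) + 1 + 1 := by ring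
    have e2 : 3 * (k + 1) + 9 = 3 * k + 9 + 3 := by ring
    rw [e1, Nat.factorial_succ, Nat.factorial_succ, e2, pow_add]
    have h1 : 2 ^ 3 ≤ (2 * k + 1 + 1 + 1) * (2 * k + 1 + 1) := by nlinarith
    calc 2 ^ (3 * k + 9) * 2 ^ 3 ≤ (2 * k + 1).factorial * ((2 * k + 1 + 1 + 1) * (2 * k + 1 + 1)) :=
          Nat.mul_le_mul ih h1
      _ = _ := by ring

private theorem Fl_abs_tU (k : ℕ) (T : Finset ℕ) : |tU k T| ≤ 1 := by
  unfold tU
  split_ifs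
  · rw [abs_pow, abs_neg, abs_one, one_pow]
  · rw [abs_zero]
    exact zero_le_one

private theorem Fl_level {h : ℝ} {P1 S : Finset ℕ} (hh : 0 ≤ h)
    (hP1 : ∀ p ∈ P1, p.Prime ∧ Real.log p ≤ h) (hS : S ⊆ P1) {m : ℕ} (hm : S.card ≤ m) :
    ((∏ p ∈ S, p : ℕ) : ℝ) ≤ Real.exp (h * m) := by
  rw [Nat.cast_prod]
  calc ∏ p ∈ S, (p : ℝ) ≤ ∏ _p ∈ S, Real.exp h := by
        refine prod_le_prod (fun p _ => Nat.cast_nonneg p) fun p hp => ?_
        have h1 := hP1 p (hS hp)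
        have h2 : (0 : ℝ) < p := Nat.cast_pos.2 h1.1.pos
        rw [← Real.log_le_iff_le_exp h2]
        exact h1.2
    _ = Real.exp (h * S.card) := by
        rw [prod_const, ← Real.exp_nat_mul]
        congr 1
        ring
    _ ≤ Real.exp (h * m) := by
        refine Real.exp_le_exp.2 (mul_le_mul_of_nonneg_left ?_ hh)
        exact_mod_cast hm

private theorem Fl_split {P0 P1 T : Finset ℕ} (hd : Disjoint P0 P1) (hT : T ⊆ P0 ∪ P1) :
    ((∏ p ∈ T, p : ℕ) : ℝ) =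
      ((∏ p ∈ T ∩ P0, p : ℕ) : ℝ) * ((∏ p ∈ T ∩ P1, p : ℕ) : ℝ) := by
  have h1 : T = (T ∩ P0) ∪ (T ∩ P1) := by
    rw [← inter_union_distrib_left]
    exact (inter_eq_left.2 hT).symm
  have h2 : Disjoint (T ∩ P0) (T ∩ P1) :=
    disjoint_of_subset_left inter_subset_right (disjoint_of_subset_right inter_subset_right hd)
  rw [← Nat.cast_mul, ← prod_union h2, ← h1]

/-- One more block `P1`: the weights are `lp T = lp0 (T ∩ P0) * tU k (T ∩ P1)` and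
`lm T = lm0 (T ∩ P0) * tU k (T ∩ P1) - lp0 (T ∩ P0) * tW k (T ∩ P1)`.

PROOF. `sw_union`.  For `f` with values in `[0, 1]`: `I0 = ∏_{P0} (1 - f)`, `I1 = ∏_{P1} (1 - f)`, `U = sw tU f P1 ≥ I1 ≥ 0`,
`W = sw tW f P1 ≥ 0`, `U - W ≤ I1`; `lp`: `sw lp0 * U ≥ I0 I1`; `lm`: `sw lm0 * U - sw lp0 * W ≤ I0 U - I0 W ≤ I0 I1`.
With `f = g`: `U ≤ V1 + W`, `W ≤ 2^(2k+1) / (2k+1)!` and `V1 ≥ exp (-4) ≥ 1 / 64`, so `W ≤ η V1`, `η = 64 * 2^(2k+1) / (2k+1)! ≤ 1 / 2^(k+2)` for `k ≥ 5`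
(`(2k+1)! ≥ 2^(3k+9)` for `k ≥ 5`, induction).  `(1 + δ)(1 + η) ≤ 1 + δ + 2 η` and `(1 - δ) - (1 + δ) η ≥ 1 - δ - 2 η` as `δ ≤ 1`.
The supports of `tU k` and `tW k` are disjoint, so `|lm| ≤ 1`.  Level: a subset `T1` of `P1` with at most `2k+1` elements has product at most
`exp (h (2k+1))`. -/
theorem wts_step (k : ℕ) (hk : 5 ≤ k) {h : ℝ} {P0 P1 : Finset ℕ} (hd : Disjoint P0 P1)
    {g : ℕ → ℝ} {Q δ : ℝ} (hQ : 0 ≤ Q) (hδ0 : 0 ≤ δ) (hδ : δ ≤ 1) {lp0 lm0 : Finset ℕ → ℝ}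
    (h0 : Wts P0 g Q δ lp0 lm0) (hP1 : ∀ p ∈ P1, p.Prime ∧ Real.log p ≤ h) (hh : 0 ≤ h)
    (hg0 : ∀ p ∈ P0, 0 ≤ g p ∧ g p ≤ 1 / 2)
    (hg : ∀ p ∈ P1, 0 ≤ g p ∧ g p ≤ 1 / 2) (hS : ∑ p ∈ P1, g p ≤ 2) :
    ∃ lp lm, Wts (P0 ∪ P1) g (Q * Real.exp (h * (2 * k + 1))) (δ + 1 / 2 ^ (k + 1)) lp lm := by
  have hcast : ((2 * k + 1 : ℕ) : ℝ) = 2 * k + 1 := by push_cast; ring
  -- the level
  have hlev : ∀ T, T ⊆ P0 ∪ P1 → ((∏ p ∈ T ∩ P0, p : ℕ) : ℝ) ≤ Q → (T ∩ P1).card ≤ 2 * k + 1 →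
      ((∏ p ∈ T, p : ℕ) : ℝ) ≤ Q * Real.exp (h * (2 * k + 1)) := by
    intro T hT h1 h2
    rw [Fl_split hd hT]
    have h3 := Fl_level hh hP1 (inter_subset_right : T ∩ P1 ⊆ P1) h2
    rw [hcast] at h3
    exact mul_le_mul h1 h3 (Nat.cast_nonneg _) hQ
  have hsp : ∀ T, T ⊆ P0 ∪ P1 → lp0 (T ∩ P0) * tU k (T ∩ P1) ≠ 0 →
      ((∏ p ∈ T, p : ℕ) : ℝ) ≤ Q * Real.exp (h * (2 * k + 1)) := by
    intro T hT hne
    refine hlev T hT (h0.sp _ inter_subset_right (left_ne_zero_of_mul hne)) ?_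
    have h1 := right_ne_zero_of_mul hne
    unfold tU at h1
    by_contra hc
    exact h1 (if_neg (by omega))
  -- the two sums over `P0 ∪ P1`
  have hswp : ∀ f, sw (fun T => lp0 (T ∩ P0) * tU k (T ∩ P1)) f (P0 ∪ P1) =
      sw lp0 f P0 * sw (tU k) f P1 := fun f => sw_union hd lp0 (tU k) f
  have hswm : ∀ f, sw (fun T => lm0 (T ∩ P0) * tU k (T ∩ P1) - lp0 (T ∩ P0) * tW k (T ∩ P1)) f
      (P0 ∪ P1) = sw lm0 f P0 * sw (tU k) f P1 - sw lp0 f P0 * sw (tW k) f P1 := by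
    intro f
    rw [sw_sub (fun T => lm0 (T ∩ P0) * tU k (T ∩ P1)) (fun T => lp0 (T ∩ P0) * tW k (T ∩ P1)),
      sw_union hd lm0 (tU k) f, sw_union hd lp0 (tW k) f]
  -- the values for `g`
  have hg0' : ∀ p ∈ P0, 0 ≤ g p ∧ g p ≤ 1 := fun p hp => ⟨(hg0 p hp).1, by
    linarith [(hg0 p hp).2]⟩
  have hg' : ∀ p ∈ P1, 0 ≤ g p ∧ g p ≤ 1 := fun p hp => ⟨(hg p hp).1, by
    linarith [(hg p hp).2]⟩
  have hV0 : 0 ≤ ∏ p ∈ P0, (1 - g p) := prod_nonneg fun p hp => by linarith [(hg0' p hp).2]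
  have hV1 : 0 ≤ ∏ p ∈ P1, (1 - g p) := prod_nonneg fun p hp => by linarith [(hg' p hp).2]
  have hU1 := tU_ge k P1 g hg'
  have hU2 := tU_le k P1 g hg'
  have hW0 := tW_nonneg k P1 g fun p hp => (hg p hp).1
  have hW1 := tW_le k P1 g fun p hp => (hg p hp).1
  have hVe := prod_one_sub_ge P1 g hg
  have hS0 : 0 ≤ ∑ p ∈ P1, g p := sum_nonneg fun p hp => (hg p hp).1
  have hη : sw (tW k) g P1 ≤ 1 / 2 ^ (k + 2) * ∏ p ∈ P1, (1 - g p) := by
    have h1 : (1 / 64 : ℝ) ≤ ∏ p ∈ P1, (1 - g p) := by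
      refine le_trans ?_ hVe
      have h2 : Real.exp 4 ≤ 64 := by
        have h3 : Real.exp 4 = Real.exp 1 ^ 4 := by
          rw [← Real.exp_nat_mul]
          norm_num
        rw [h3]
        have h4 := Real.exp_one_lt_d9.le
        have h5 : Real.exp 1 ^ 4 ≤ 2.7182818286 ^ 4 :=
          pow_le_pow_left₀ (Real.exp_pos 1).le h4 4
        refine h5.trans ?_
        norm_num
      calc (1 / 64 : ℝ) ≤ 1 / Real.exp 4 := one_div_le_one_div_of_le (Real.exp_pos 4) h2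
        _ = Real.exp (-4) := by rw [Real.exp_neg, one_div]
        _ ≤ _ := Real.exp_le_exp.2 (by linarith)
    have h2 : (∑ p ∈ P1, g p) ^ (2 * k + 1) / (2 * k + 1).factorial ≤
        2 ^ (2 * k + 1) / (2 * k + 1).factorial := by
      have := pow_le_pow_left₀ hS0 hS (2 * k + 1)
      gcongr
    have h3 : (2 : ℝ) ^ (2 * k + 1) / (2 * k + 1).factorial ≤ 1 / 2 ^ (k + 2) * (1 / 64) := by
      have h4 : (2 : ℝ) ^ (3 * k + 9) ≤ (2 * k + 1).factorial := by exact_mod_cast Fl_fact k hk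
      have h5 : (0 : ℝ) < (2 * k + 1).factorial := by exact_mod_cast Nat.factorial_pos _
      have h6 : (0 : ℝ) < 2 ^ (k + 2) := by positivity
      rw [div_mul_div_comm, one_mul, div_le_div_iff₀ h5 (by positivity), one_mul]
      refine le_trans (le_of_eq ?_) h4
      have e : (64 : ℝ) = 2 ^ 6 := by norm_num
      rw [e, ← pow_add, ← pow_add]
      congr 1
      ring
    calc sw (tW k) g P1 ≤ 1 / 2 ^ (k + 2) * (1 / 64) := hW1.trans (h2.trans h3)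
      _ ≤ _ := mul_le_mul_of_nonneg_left h1 (by positivity)
  have hη2 : (1 : ℝ) / 2 ^ (k + 1) = 2 * (1 / 2 ^ (k + 2)) := by
    rw [pow_succ 2 (k + 1)]
    field_simp
  have hη0 : (0 : ℝ) ≤ 1 / 2 ^ (k + 2) := by positivity
  set η : ℝ := 1 / 2 ^ (k + 2)
  set V0 : ℝ := ∏ p ∈ P0, (1 - g p)
  set V1 : ℝ := ∏ p ∈ P1, (1 - g p)
  set U : ℝ := sw (tU k) g P1
  set W : ℝ := sw (tW k) g P1
  have hU0 : 0 ≤ U := hV1.trans hU1
  have hVV : 0 ≤ V0 * V1 := mul_nonneg hV0 hV1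
  refine ⟨fun T => lp0 (T ∩ P0) * tU k (T ∩ P1),
    fun T => lm0 (T ∩ P0) * tU k (T ∩ P1) - lp0 (T ∩ P0) * tW k (T ∩ P1), ?_⟩
  refine ⟨?_, ?_, hsp, ?_, ?_, ?_, ?_, ?_⟩
  · intro T
    rw [abs_mul]
    exact mul_le_one₀ (h0.bp _) (abs_nonneg _) (Fl_abs_tU k _)
  · intro T
    by_cases h1 : (T ∩ P1).card = 2 * k + 1
    · have h2 : tU k (T ∩ P1) = 0 := if_neg (by omega)
      have h3 : tW k (T ∩ P1) = 1 := if_pos h1
      simp only [h2, h3, mul_zero, mul_one, zero_sub, abs_neg]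
      exact h0.bp _
    · have h3 : tW k (T ∩ P1) = 0 := if_neg h1
      simp only [h3, mul_zero, sub_zero]
      rw [abs_mul]
      exact mul_le_one₀ (h0.bm _) (abs_nonneg _) (Fl_abs_tU k _)
  · intro T hT hne
    by_cases h1 : (T ∩ P1).card = 2 * k + 1
    · have h2 : tU k (T ∩ P1) = 0 := if_neg (by omega)
      simp only [h2, mul_zero, zero_sub, neg_ne_zero] at hne
      exact hlev T hT (h0.sp _ inter_subset_right (left_ne_zero_of_mul hne)) h1.le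
    · have h3 : tW k (T ∩ P1) = 0 := if_neg h1
      simp only [h3, mul_zero, sub_zero] at hne
      refine hlev T hT (h0.sm _ inter_subset_right (left_ne_zero_of_mul hne)) ?_
      have h4 := right_ne_zero_of_mul hne
      unfold tU at h4
      by_contra hc
      exact h4 (if_neg (by omega))
  · intro f hf
    have hf0 : ∀ p ∈ P0, 0 ≤ f p ∧ f p ≤ 1 := fun p hp => hf p (mem_union_left _ hp)
    have hf1 : ∀ p ∈ P1, 0 ≤ f p ∧ f p ≤ 1 := fun p hp => hf p (mem_union_right _ hp)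
    rw [hswp, prod_union hd]
    have i0 : 0 ≤ ∏ p ∈ P0, (1 - f p) := prod_nonneg fun p hp => by linarith [(hf0 p hp).2]
    have i1 : 0 ≤ ∏ p ∈ P1, (1 - f p) := prod_nonneg fun p hp => by linarith [(hf1 p hp).2]
    exact mul_le_mul (h0.up f hf0) (tU_ge k P1 f hf1) i1 (i0.trans (h0.up f hf0))
  · intro f hf
    have hf0 : ∀ p ∈ P0, 0 ≤ f p ∧ f p ≤ 1 := fun p hp => hf p (mem_union_left _ hp)
    have hf1 : ∀ p ∈ P1, 0 ≤ f p ∧ f p ≤ 1 := fun p hp => hf p (mem_union_right _ hp)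
    rw [hswm, prod_union hd]
    have i0 : 0 ≤ ∏ p ∈ P0, (1 - f p) := prod_nonneg fun p hp => by linarith [(hf0 p hp).2]
    have i1 : 0 ≤ ∏ p ∈ P1, (1 - f p) := prod_nonneg fun p hp => by linarith [(hf1 p hp).2]
    have u0 : 0 ≤ sw (tU k) f P1 := i1.trans (tU_ge k P1 f hf1)
    have w0 := tW_nonneg k P1 f fun p hp => (hf1 p hp).1
    have a1 := mul_le_mul_of_nonneg_right (h0.lo f hf0) u0
    have a2 := mul_le_mul_of_nonneg_right (h0.up f hf0) w0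
    have a3 := mul_le_mul_of_nonneg_left (tU_le k P1 f hf1) i0
    linarith
  · rw [hswp, prod_union hd]
    change sw lp0 g P0 * U ≤ (1 + (δ + 1 / 2 ^ (k + 1))) * (V0 * V1)
    rw [hη2]
    have a1 : sw lp0 g P0 * U ≤ (1 + δ) * V0 * U := mul_le_mul_of_nonneg_right h0.gp hU0
    have a2 : U ≤ V1 + η * V1 := by linarith
    have a3 : (1 + δ) * V0 * U ≤ (1 + δ) * V0 * (V1 + η * V1) :=
      mul_le_mul_of_nonneg_left a2 (mul_nonneg (by linarith) hV0)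
    have a4 : (1 + δ) * V0 * (V1 + η * V1) = (1 + δ + (1 + δ) * η) * (V0 * V1) := by ring
    have a5 : (1 + δ) * η ≤ 2 * η := mul_le_mul_of_nonneg_right (by linarith) hη0
    have a6 : (1 + δ + (1 + δ) * η) * (V0 * V1) ≤ (1 + (δ + 2 * η)) * (V0 * V1) :=
      mul_le_mul_of_nonneg_right (by linarith) hVV
    linarith
  · rw [hswm, prod_union hd]
    change (1 - (δ + 1 / 2 ^ (k + 1))) * (V0 * V1) ≤ sw lm0 g P0 * U - sw lp0 g P0 * W
    rw [hη2]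
    have a1 : (1 - δ) * V0 * U ≤ sw lm0 g P0 * U := mul_le_mul_of_nonneg_right h0.gm hU0
    have a2 : (1 - δ) * V0 * V1 ≤ (1 - δ) * V0 * U :=
      mul_le_mul_of_nonneg_left hU1 (mul_nonneg (by linarith) hV0)
    have a3 : sw lp0 g P0 * W ≤ (1 + δ) * V0 * W := mul_le_mul_of_nonneg_right h0.gp hW0
    have a4 : (1 + δ) * V0 * W ≤ (1 + δ) * V0 * (η * V1) :=
      mul_le_mul_of_nonneg_left hη (mul_nonneg (by linarith) hV0)
    have a5 : (1 + δ) * η ≤ 2 * η := mul_le_mul_of_nonneg_right (by linarith) hη0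
    have a6 : (1 - (δ + 2 * η)) * (V0 * V1) ≤ (1 - δ - (1 + δ) * η) * (V0 * V1) :=
      mul_le_mul_of_nonneg_right (by linarith) hVV
    have a7 : (1 - δ - (1 + δ) * η) * (V0 * V1) =
        (1 - δ) * V0 * V1 - (1 + δ) * V0 * (η * V1) := by ring
    linarith

private theorem Fl_ind (g : ℕ → ℝ) (J : ℕ) : ∀ (k : ℕ) (_ : 5 ≤ k) (h : ℝ) (_ : 0 ≤ h)
    (P : Finset ℕ) (_ : ∀ p ∈ P, p.Prime ∧ Real.log p ≤ h) (_ : ∀ p ∈ P, 0 ≤ g p ∧ g p ≤ 1 / 2)
    (_ : ∀ v : ℝ, ∑ p ∈ P.filter (fun p : ℕ => v / 2 < Real.log p ∧ Real.log p ≤ v), g p ≤ 2)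
    (_ : ∀ p ∈ P, h / 2 ^ J < Real.log p),
    ∃ lp lm, Wts P g (Real.exp (h * (4 * k + 6))) (1 / 2 ^ k) lp lm := by
  induction J with
  | zero =>
    intro k _ h hh P hP _ _ hJ
    have hP0 : P = ∅ := by
      refine eq_empty_of_forall_notMem fun p hp => ?_
      have h1 := hJ p hp
      rw [pow_zero, div_one] at h1
      exact absurd (hP p hp).2 (not_le.2 h1)
    subst hP0
    have hsw : ∀ f, sw (fun T => if T = ∅ then (1 : ℝ) else 0) f ∅ = 1 := by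
      intro f
      simp [sw]
    have hb : ∀ T : Finset ℕ, |(if T = ∅ then (1 : ℝ) else 0)| ≤ 1 := by
      intro T
      split_ifs <;> simp
    have hQ : ∀ T : Finset ℕ, T ⊆ ∅ → (if T = ∅ then (1 : ℝ) else 0) ≠ 0 →
        ((∏ p ∈ T, p : ℕ) : ℝ) ≤ Real.exp (h * (4 * k + 6)) := by
      intro T hT _
      rw [subset_empty.1 hT, prod_empty, Nat.cast_one]
      exact Real.one_le_exp (by positivity)
    have hk0 : (0 : ℝ) ≤ 1 / 2 ^ k := by positivity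
    refine ⟨fun T => if T = ∅ then 1 else 0, fun T => if T = ∅ then 1 else 0,
      ⟨hb, hb, hQ, hQ, ?_, ?_, ?_, ?_⟩⟩
    · intro f _
      rw [hsw, prod_empty]
    · intro f _
      rw [hsw, prod_empty]
    · rw [hsw, prod_empty, mul_one]
      linarith
    · rw [hsw, prod_empty, mul_one]
      linarith
  | succ J ih =>
    intro k hk h hh P hP hg hb hJ
    let P0 : Finset ℕ := P.filter fun p => ¬ h / 2 < Real.log p
    let P1 : Finset ℕ := P.filter fun p => h / 2 < Real.log p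
    have hd : Disjoint P0 P1 := (disjoint_filter_filter_not P P _).symm
    have hu : P0 ∪ P1 = P := by
      rw [union_comm]
      exact filter_union_filter_not_eq _ P
    have s0 : P0 ⊆ P := filter_subset _ _
    have s1 : P1 ⊆ P := filter_subset _ _
    obtain ⟨lp0, lm0, h0⟩ := ih (k + 1) (by omega) (h / 2) (by linarith) P0
      (fun p hp => ⟨(hP p (s0 hp)).1, not_lt.1 (mem_filter.1 hp).2⟩)
      (fun p hp => hg p (s0 hp))
      (fun v => by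
        refine le_trans ?_ (hb v)
        refine sum_le_sum_of_subset_of_nonneg ?_ fun p hp _ => (hg p (mem_filter.1 hp).1).1
        intro p hp
        rw [mem_filter] at hp ⊢
        exact ⟨s0 hp.1, hp.2⟩)
      (fun p hp => by
        have h1 := hJ p (s0 hp)
        rw [pow_succ, mul_comm, ← div_div] at h1
        exact h1)
    have hS : ∑ p ∈ P1, g p ≤ 2 := by
      refine le_trans (le_of_eq ?_) (hb h)
      refine sum_congr ?_ fun p _ => rfl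
      refine filter_congr fun p hp => ?_
      exact ⟨fun h1 => ⟨h1, (hP p hp).2⟩, fun h1 => h1.1⟩
    have hk1 : (1 : ℝ) / 2 ^ (k + 1) ≤ 1 := by
      rw [div_le_one (by positivity)]
      exact one_le_pow₀ (by norm_num)
    obtain ⟨lp, lm, h1⟩ := wts_step k hk hd (Real.exp_pos _).le (by positivity) hk1 h0
      (fun p hp => hP p (s1 hp)) hh (fun p hp => hg p (s0 hp)) (fun p hp => hg p (s1 hp)) hS
    refine ⟨lp, lm, ?_⟩
    rw [hu, ← Real.exp_add] at h1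
    have e1 : h / 2 * (4 * ((k + 1 : ℕ) : ℝ) + 6) + h * (2 * k + 1) = h * (4 * k + 6) := by
      push_cast
      ring
    have e2 : (1 : ℝ) / 2 ^ (k + 1) + 1 / 2 ^ (k + 1) = 1 / 2 ^ k := by
      rw [pow_succ]
      field_simp
      norm_num
    rw [e1, e2] at h1
    exact h1

/-- PROOF. Induction on `J` (generalising `k`, `h`, `P`) with the hypothesis `h / 2^J < log p` for all `p ∈ P`.
`J = 0`: `P = ∅`, `lp T = lm T = if T = ∅ then 1 else 0`.  Step: `P1 = {p ∈ P, h / 2 < log p}`, `P0` the rest, with `h / 2`, `k + 1`: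
level `exp ((h / 2) (4 (k + 1) + 6)) * exp (h (2 k + 1)) = exp (h (4 k + 6))`, `δ = 1 / 2^(k+1) + 1 / 2^(k+1)`. -/
theorem fl (k : ℕ) (hk : 5 ≤ k) (h : ℝ) (hh : 0 ≤ h) (P : Finset ℕ) (g : ℕ → ℝ)
    (hP : ∀ p ∈ P, p.Prime ∧ Real.log p ≤ h) (hg : ∀ p ∈ P, 0 ≤ g p ∧ g p ≤ 1 / 2)
    (hb : ∀ v : ℝ, ∑ p ∈ P.filter (fun p : ℕ => v / 2 < Real.log p ∧ Real.log p ≤ v), g p ≤ 2) :
    ∃ lp lm, Wts P g (Real.exp (h * (4 * k + 6))) (1 / 2 ^ k) lp lm := by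
  have hl2 : 0 < Real.log 2 := Real.log_pos (by norm_num)
  obtain ⟨J, hJ⟩ := pow_unbounded_of_one_lt (h / Real.log 2) (one_lt_two : (1 : ℝ) < 2)
  refine Fl_ind g J k hk h hh P hP hg hb fun p hp => ?_
  have h1 : h / 2 ^ J < Real.log 2 := by
    rw [div_lt_iff₀ (by positivity)]
    rw [div_lt_iff₀ hl2] at hJ
    linarith
  refine h1.trans_le (Real.log_le_log (by norm_num) ?_)
  exact_mod_cast (hP p hp).1.two_le

end Pool.MP42e49e.ER
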