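import Pool.Agent.H.MP_42e49e_nt.ER.Defs

/-!
# ER: the sum of the densities over a block
-/

set_option autoImplicit false

namespace Pool.MP42e49e.ER

open Finset Pool.Agent.H.MP_711652_nt.CH Pool.Agent.H.MP_3e6494_nt

/-- The sum of the reciprocals of the primes of a set in `(a, b]`. -/
private theorem MertA_sum_le (S : Finset ℕ) {a b : ℕ} (hab : a ≤ b)
    (hS : ∀ p ∈ S, p.Prime ∧ a < p ∧ p ≤ b) :
    ∑ p ∈ S, 1 / (p : ℝ) ≤ FF b - FF a := by
  have h1 : prm a ⊆ prm b := by
    intro p hp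
    rw [mem_prm] at hp ⊢
    exact ⟨hp.1, hp.2.trans hab⟩
  have h2 : FF b - FF a = ∑ p ∈ prm b \ prm a, 1 / (p : ℝ) := by
    unfold FF
    rw [← Finset.sum_sdiff h1]
    ring
  rw [h2]
  apply Finset.sum_le_sum_of_subset_of_nonneg
  · intro p hp
    obtain ⟨q1, q2, q3⟩ := hS p hp
    rw [mem_sdiff, mem_prm, mem_prm]
    exact ⟨⟨q1, q3⟩, fun h => by omega⟩
  · intro p _ _
    positivity

/-- PROOF. Let `v0 = max (v / 2) 150` (if `v ≤ 150` the sum is empty); the primes with `v0 < log p ≤ v` lie in `(⌊exp v0⌋₊, ⌊exp v⌋₊]`, so by `window` (Mer.lean) the sum of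
`1 / p` is at most `log v - log (log ⌊exp v0⌋₊) + 12 / log ⌊exp v0⌋₊ ≤ log 2 + 0.01 + 0.1 ≤ 0.9`; and `c p ≤ 2 / (p - 1) ≤ 2.1 / p`. -/
theorem block_le (P : Finset ℕ) (g : ℕ → ℝ) (hP : ∀ p ∈ P, p.Prime ∧ 150 < Real.log p)
    (hg : ∀ p ∈ P, g p ≤ 2 / ((p : ℝ) - 1)) (v : ℝ) :
    ∑ p ∈ P.filter (fun p : ℕ => v / 2 < Real.log p ∧ Real.log p ≤ v), g p ≤ 2 := by
  by_cases hv : v ≤ 150
  · have h0 : P.filter (fun p : ℕ => v / 2 < Real.log p ∧ Real.log p ≤ v) = ∅ := by
      apply Finset.filter_eq_empty_iff.2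
      intro p hp h
      have := (hP p hp).2
      linarith [h.2]
    rw [h0, Finset.sum_empty]
    norm_num
  · rw [not_le] at hv
    set v0 : ℝ := max (v / 2) 150 with hv0
    have a1 : v / 2 ≤ v0 := le_max_left _ _
    have a2 : 150 ≤ v0 := le_max_right _ _
    have a3 : v0 ≤ v := max_le (by linarith) hv.le
    set a : ℕ := ⌊Real.exp v0⌋₊ with ha
    set b : ℕ := ⌊Real.exp v⌋₊ with hb
    have e0 : v0 + 1 ≤ Real.exp v0 := Real.add_one_le_exp v0
    have b1 : (a : ℝ) ≤ Real.exp v0 := Nat.floor_le (Real.exp_pos _).le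
    have b2 : Real.exp v0 < (a : ℝ) + 1 := Nat.lt_floor_add_one _
    have b3 : (b : ℝ) ≤ Real.exp v := Nat.floor_le (Real.exp_pos _).le
    have hab : a ≤ b := Nat.floor_le_floor (Real.exp_le_exp.2 a3)
    have a150 : (150 : ℝ) ≤ a := by linarith
    have ha2 : 2 ≤ a := by
      have : (2 : ℝ) ≤ a := by linarith
      exact_mod_cast this
    have hmem : ∀ p ∈ P.filter (fun p : ℕ => v / 2 < Real.log p ∧ Real.log p ≤ v),
        p.Prime ∧ a < p ∧ p ≤ b := by
      intro p hp
      rw [Finset.mem_filter] at hp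
      obtain ⟨hp1, hp2, hp3⟩ := hp
      obtain ⟨q1, q2⟩ := hP p hp1
      have hp0 : (0 : ℝ) < p := by exact_mod_cast q1.pos
      refine ⟨q1, ?_, ?_⟩
      · have h1 : v0 < Real.log p := max_lt hp2 q2
        have h2 : Real.exp v0 < p := (Real.lt_log_iff_exp_lt hp0).1 h1
        exact_mod_cast lt_of_le_of_lt b1 h2
      · have h2 : (p : ℝ) ≤ Real.exp v := (Real.log_le_iff_le_exp hp0).1 hp3
        exact Nat.le_floor h2
    have hsum := MertA_sum_le _ hab hmem
    have hw := (window ha2 hab).1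
    have la : v0 - 0.7 ≤ Real.log a := by
      have h1 : Real.exp v0 / 2 ≤ a := by linarith
      have h2 : Real.log (Real.exp v0 / 2) ≤ Real.log a :=
        Real.log_le_log (by positivity) h1
      rw [Real.log_div (Real.exp_pos _).ne' (by norm_num), Real.log_exp] at h2
      have := Real.log_two_lt_d9
      linarith
    have lb : Real.log b ≤ v := by
      have hb0 : (0 : ℝ) < b := by
        have : (a : ℝ) ≤ b := by exact_mod_cast hab
        linarith
      exact (Real.log_le_iff_le_exp hb0).2 b3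
    have la0 : 0 < Real.log a := by linarith
    have lb0 : 0 < Real.log b := by
      have hle : Real.log a ≤ Real.log b := Real.log_le_log (by linarith) (by exact_mod_cast hab)
      linarith
    have c1 : Real.log (Real.log b) ≤ Real.log v := Real.log_le_log lb0 lb
    have c2 : Real.log (v0 - 0.7) ≤ Real.log (Real.log a) :=
      Real.log_le_log (by linarith) la
    have c3 : Real.log v ≤ Real.log (v0 - 0.7) + 0.7 := by
      have h1 : v ≤ (v0 - 0.7) * 2.01 := by linarith
      have h2 : Real.log v ≤ Real.log ((v0 - 0.7) * 2.01) := Real.log_le_log (by linarith) h1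
      rw [Real.log_mul (by linarith) (by norm_num)] at h2
      have h3 : Real.log (2.01 : ℝ) ≤ 0.7 := by
        have h4 : Real.log (2.01 : ℝ) = Real.log 2 + Real.log 1.005 := by
          rw [← Real.log_mul (by norm_num) (by norm_num)]
          norm_num
        have h5 : Real.log (1.005 : ℝ) ≤ 1.005 - 1 := Real.log_le_sub_one_of_pos (by norm_num)
        have := Real.log_two_lt_d9
        rw [h4]
        linarith
      linarith
    have c4 : 12 / Real.log a ≤ 0.1 := by
      rw [div_le_iff₀ la0]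
      linarith
    have c5 : ∑ p ∈ P.filter (fun p : ℕ => v / 2 < Real.log p ∧ Real.log p ≤ v),
        1 / (p : ℝ) ≤ 0.8 := by linarith
    have c6 : ∑ p ∈ P.filter (fun p : ℕ => v / 2 < Real.log p ∧ Real.log p ≤ v), g p ≤
        ∑ p ∈ P.filter (fun p : ℕ => v / 2 < Real.log p ∧ Real.log p ≤ v),
          2.1 * (1 / (p : ℝ)) := by
      apply Finset.sum_le_sum
      intro p hp
      have hpa : (a : ℝ) < p := by exact_mod_cast (hmem p hp).2.1
      refine (hg p (Finset.mem_filter.1 hp).1).trans ?_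
      rw [mul_one_div, div_le_div_iff₀ (by linarith) (by linarith)]
      linarith
    rw [← Finset.mul_sum] at c6
    linarith

end Pool.MP42e49e.ER
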