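import Pool.Agent.H.MP_42e49e_nt.ER.Defs

/-!
# ER: Mertens type estimates
-/

set_option autoImplicit false

namespace Pool.MP42e49e.ER

open Finset Pool.Agent.H.MP_711652_nt.CH Pool.Agent.H.MP_3e6494_nt

/-- PROOF. `1 + g1 p ≤ exp (g1 p)`, `g1 p = 1 / p + 1 / (p (p - 1))`, `∑ 1 / p ≤ FF z ≤ log log z + 20`, `∑ 1 / (p (p - 1)) ≤ 1`. -/
theorem EP_le (z : ℕ) (hz : 2 ≤ z) (P : Finset ℕ) (hP : ∀ p ∈ P, p.Prime ∧ p ≤ z) :
    EP P ≤ Real.exp 21 * Real.log z := by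
  have hsub : P ⊆ prm z := fun p hp => mem_prm.2 (hP p hp)
  have hz2 : (2 : ℝ) ≤ z := by exact_mod_cast hz
  have hlog : 0 < Real.log z := Real.log_pos (by linarith)
  have hg : ∀ p ∈ P, 0 < g1 p ∧ g1 p = 1 / (p : ℝ) + 1 / ((p : ℝ) * (p - 1)) := by
    intro p hp
    have h2 : (2 : ℝ) ≤ p := by exact_mod_cast (hP p hp).1.two_le
    have h3 : (0 : ℝ) < (p : ℝ) - 1 := by linarith
    have h4 : (0 : ℝ) < p := by linarith
    unfold g1
    refine ⟨by positivity, ?_⟩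
    field_simp
    ring
  have h1 : EP P ≤ Real.exp (∑ p ∈ P, g1 p) := by
    unfold EP
    rw [Real.exp_sum]
    refine Finset.prod_le_prod (fun p hp => by linarith [(hg p hp).1]) fun p _ => ?_
    have := Real.add_one_le_exp (g1 p)
    linarith
  have h2 : ∑ p ∈ P, g1 p = ∑ p ∈ P, 1 / (p : ℝ) + ∑ p ∈ P, 1 / ((p : ℝ) * (p - 1)) := by
    rw [← Finset.sum_add_distrib]
    exact Finset.sum_congr rfl fun p hp => (hg p hp).2
  have h3 : ∑ p ∈ P, 1 / (p : ℝ) ≤ Real.log (Real.log z) + 20 := by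
    refine le_trans ?_ (FF_le hz)
    unfold FF
    exact Finset.sum_le_sum_of_subset_of_nonneg hsub fun p _ _ => by positivity
  have h4 : ∑ p ∈ P, 1 / ((p : ℝ) * (p - 1)) ≤ 1 := by
    have h5 := rs2_prm z
    rw [rs2_toList] at h5
    refine le_trans ?_ h5
    refine Finset.sum_le_sum_of_subset_of_nonneg hsub fun p hp _ => ?_
    have h6 : (1 : ℝ) ≤ p := by exact_mod_cast (mem_prm.1 hp).1.one_lt.le
    have h7 : (0 : ℝ) ≤ (p : ℝ) - 1 := by linarith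
    positivity
  refine h1.trans ?_
  calc Real.exp (∑ p ∈ P, g1 p) ≤ Real.exp (21 + Real.log (Real.log z)) := by
        apply Real.exp_le_exp.2
        linarith
    _ = Real.exp 21 * Real.log z := by rw [Real.exp_add, Real.exp_log hlog]

private theorem MertB_tel (P : Finset ℕ) (hP : ∀ p ∈ P, 5 ≤ p) :
    ∑ p ∈ P, (1 / ((p : ℝ) - 2) - 1 / (p : ℝ)) ≤ 1 := by
  obtain ⟨N, hN⟩ : ∃ N : ℕ, P ⊆ Finset.Ico 5 (5 + N) := by
    refine ⟨P.sup id + 1, fun p hp => ?_⟩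
    have h1 : p ≤ P.sup id := Finset.le_sup (f := id) hp
    have h2 := hP p hp
    rw [Finset.mem_Ico]
    omega
  have hnn : ∀ n : ℕ, 5 ≤ n → (0 : ℝ) ≤ 1 / ((n : ℝ) - 2) - 1 / (n : ℝ) := by
    intro n hn
    have h1 : (5 : ℝ) ≤ n := by exact_mod_cast hn
    rw [sub_nonneg]
    exact one_div_le_one_div_of_le (by linarith) (by linarith)
  have h1 : ∑ p ∈ P, (1 / ((p : ℝ) - 2) - 1 / (p : ℝ)) ≤
      ∑ p ∈ Finset.Ico 5 (5 + N), (1 / ((p : ℝ) - 2) - 1 / (p : ℝ)) :=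
    Finset.sum_le_sum_of_subset_of_nonneg hN fun p hp _ => hnn p (Finset.mem_Ico.1 hp).1
  refine h1.trans ?_
  have h2 : ∀ M : ℕ, ∑ p ∈ Finset.Ico 5 (5 + M), (1 / ((p : ℝ) - 2) - 1 / (p : ℝ)) =
      7 / 12 - 1 / ((M : ℝ) + 3) - 1 / ((M : ℝ) + 4) := by
    intro M
    induction M with
    | zero => norm_num
    | succ M ih =>
      rw [← add_assoc, Finset.sum_Ico_succ_top (by omega), ih]
      push_cast
      have e1 : (5 + (M : ℝ) - 2) = M + 3 := by ring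
      have e2 : ((M : ℝ) + 1 + 3) = M + 4 := by ring
      have e3 : ((M : ℝ) + 1 + 4) = 5 + M := by ring
      rw [e1, e2, e3]
      ring
  rw [h2]
  have h3 : 0 ≤ 1 / ((N : ℝ) + 3) := by positivity
  have h4 : 0 ≤ 1 / ((N : ℝ) + 4) := by positivity
  linarith

/-- PROOF. `1 - g1 p ≥ exp (-(g1 p) - (g1 p)^2)` for `p ≥ 5` (`g1 p ≤ 1/4`); `g1 p + g1 p^2 ≤ 1 / p + 4 / p^2`, `∑_{p ≥ 5} 4 / p^2 ≤ 1`. -/
theorem V_ge (P : Finset ℕ) (hP : ∀ p ∈ P, p.Prime ∧ 5 ≤ p) :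
    Real.exp (-1) * Real.exp (-∑ p ∈ P, 1 / (p : ℝ)) ≤ ∏ p ∈ P, (1 - g1 p) := by
  have h1 := MertB_tel P fun p hp => (hP p hp).2
  have h2 : Real.exp (∑ p ∈ P, -(1 / ((p : ℝ) - 2))) ≤ ∏ p ∈ P, (1 - g1 p) := by
    rw [Real.exp_sum]
    refine Finset.prod_le_prod (fun p _ => (Real.exp_pos _).le) fun p hp => ?_
    have h3 : (5 : ℝ) ≤ p := by exact_mod_cast (hP p hp).2
    have h4 : 0 < 1 - g1 p := by
      unfold g1
      have : 1 / ((p : ℝ) - 1) < 1 := by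
        rw [div_lt_one (by linarith)]
        linarith
      linarith
    have h5 := Real.one_sub_inv_le_log_of_pos h4
    have h6 : 1 - (1 - g1 p)⁻¹ = -(1 / ((p : ℝ) - 2)) := by
      unfold g1
      have e1 : (p : ℝ) - 1 ≠ 0 := by linarith
      have e2 : (p : ℝ) - 2 ≠ 0 := by linarith
      have e3 : 1 - 1 / ((p : ℝ) - 1) = ((p : ℝ) - 2) / (p - 1) := by
        field_simp
        ring
      rw [e3, inv_div]
      field_simp
      ring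
    rw [h6] at h5
    calc Real.exp (-(1 / ((p : ℝ) - 2))) ≤ Real.exp (Real.log (1 - g1 p)) := Real.exp_le_exp.2 h5
      _ = 1 - g1 p := Real.exp_log h4
  refine le_trans ?_ h2
  rw [← Real.exp_add]
  apply Real.exp_le_exp.2
  have h3 : ∑ p ∈ P, (1 / ((p : ℝ) - 2) - 1 / (p : ℝ)) =
      ∑ p ∈ P, 1 / ((p : ℝ) - 2) - ∑ p ∈ P, 1 / (p : ℝ) := Finset.sum_sub_distrib _ _
  rw [Finset.sum_neg_distrib]
  linarith

/-- PROOF. `window`, `1 / log v ≤ 2`. -/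
theorem sum_window (v z : ℕ) (hv : 2 ≤ v) (hz : v ≤ z) (P : Finset ℕ)
    (hP : ∀ p ∈ P, p.Prime ∧ v < p ∧ p ≤ z) :
    ∑ p ∈ P, 1 / (p : ℝ) ≤ Real.log (Real.log z) - Real.log (Real.log v) + 12 / Real.log v := by
  refine le_trans ?_ (window hv hz).1
  have h1 : prm v ⊆ prm z := fun p hp => by
    rw [mem_prm] at hp ⊢
    exact ⟨hp.1, hp.2.trans hz⟩
  have h2 : P ⊆ prm z \ prm v := fun p hp => by
    obtain ⟨g1, g2, g3⟩ := hP p hp
    rw [Finset.mem_sdiff, mem_prm, mem_prm]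
    exact ⟨⟨g1, g3⟩, fun h => absurd h.2 (not_le.2 g2)⟩
  have h3 : ∑ p ∈ P, 1 / (p : ℝ) ≤ ∑ p ∈ prm z \ prm v, 1 / (p : ℝ) :=
    Finset.sum_le_sum_of_subset_of_nonneg h2 fun p _ _ => by positivity
  have h4 := Finset.sum_sdiff (f := fun p : ℕ => 1 / (p : ℝ)) h1
  unfold FF
  linarith

/-- PROOF. `(Icc 1 w).filter Prime` minus `P`: `FF w ≥ log log w - 18` (`FF_ge`). -/
theorem sum_ge (w : ℕ) (hw : 2 ≤ w) : Real.log (Real.log w) - 18 ≤ ∑ p ∈ prm w, 1 / (p : ℝ) := by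
  exact FF_ge hw

end Pool.MP42e49e.ER
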