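import Mathlib

/-!
# ER: a dense dyadic block
-/

set_option autoImplicit false

namespace Pool.MP42e49e.ER

open Finset

/-- Every point is in a block. -/
private theorem Block_mem {D0 J l : ℕ} (h1 : D0 < l) (h2 : l ≤ D0 * 2 ^ J) :
    ∃ j < J, D0 * 2 ^ j < l ∧ l ≤ 2 * (D0 * 2 ^ j) := by
  induction J with
  | zero =>
    rw [pow_zero, mul_one] at h2
    omega
  | succ J ih =>
    by_cases h3 : l ≤ D0 * 2 ^ J
    · obtain ⟨j, hj, h4⟩ := ih h3
      exact ⟨j, by omega, h4⟩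
    · refine ⟨J, by omega, not_le.1 h3, ?_⟩
      calc l ≤ D0 * 2 ^ (J + 1) := h2
        _ = 2 * (D0 * 2 ^ J) := by ring

/-- PROOF. `J = Nat.log 2 D1 + 1`; the blocks `(D0 2^j, D0 2^(j+1)]`, `j < J`, cover `(D0, D1]`, the sum of `1 / l` over the block `j` is at most `|block j| / (D0 2^j)`,
so some block has sum `≥ c / J`. -/
theorem block_ex (D0 D1 : ℕ) (hD0 : 1 ≤ D0) (hD : D0 < D1) (M : Finset ℕ)
    (hM : ∀ l ∈ M, D0 < l ∧ l ≤ D1) (c : ℝ) (hc : 0 < c) (h : c ≤ ∑ l ∈ M, 1 / (l : ℝ)) :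
    ∃ B : ℕ, D0 ≤ B ∧ B < D1 ∧
      c * B ≤ ((Nat.log 2 D1 : ℝ) + 1) * ((M.filter (fun l => B < l ∧ l ≤ 2 * B)).card : ℝ) := by
  classical
  by_contra hcon
  push Not at hcon
  set J : ℕ := Nat.log 2 D1 + 1 with hJ
  have hJr : ((Nat.log 2 D1 : ℕ) : ℝ) + 1 = (J : ℝ) := by
    rw [hJ]
    push_cast
    rfl
  rw [hJr] at hcon
  have hJ0 : (0 : ℝ) < J := by
    rw [hJ]
    positivity
  have hD1 : D1 ≤ D0 * 2 ^ J := by
    have h1 : D1 < 2 ^ J := Nat.lt_pow_succ_log_self (by norm_num) D1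
    have h2 : 2 ^ J ≤ D0 * 2 ^ J := Nat.le_mul_of_pos_left _ hD0
    omega
  set Bl : ℕ → Finset ℕ := fun j => M.filter (fun l => D0 * 2 ^ j < l ∧ l ≤ 2 * (D0 * 2 ^ j))
    with hBl
  have hB0 : ∀ j, (0 : ℝ) < ((D0 * 2 ^ j : ℕ) : ℝ) := by
    intro j
    have : 0 < D0 * 2 ^ j := by positivity
    exact_mod_cast this
  have h1 : ∀ j, ((Bl j).card : ℝ) / ((D0 * 2 ^ j : ℕ) : ℝ) < c / J := by
    intro j
    by_cases hj : D0 * 2 ^ j < D1
    · have h2 : D0 ≤ D0 * 2 ^ j := Nat.le_mul_of_pos_right _ (by positivity)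
      have h3 := hcon (D0 * 2 ^ j) h2 hj
      rw [div_lt_div_iff₀ (hB0 j) hJ0]
      calc ((Bl j).card : ℝ) * J = J * ((Bl j).card : ℝ) := mul_comm _ _
        _ < c * ((D0 * 2 ^ j : ℕ) : ℝ) := h3
    · have h2 : Bl j = ∅ := by
        rw [hBl]
        apply Finset.filter_eq_empty_iff.2
        intro l hl h3
        have := (hM l hl).2
        omega
      rw [h2, card_empty, Nat.cast_zero, zero_div]
      positivity
  have h2 : ∑ l ∈ M, 1 / (l : ℝ) ≤ ∑ j ∈ range J, ((Bl j).card : ℝ) / ((D0 * 2 ^ j : ℕ) : ℝ) := by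
    calc ∑ l ∈ M, 1 / (l : ℝ)
        ≤ ∑ l ∈ M, ∑ j ∈ range J, (if D0 * 2 ^ j < l ∧ l ≤ 2 * (D0 * 2 ^ j) then
            1 / (l : ℝ) else 0) := by
          apply sum_le_sum
          intro l hl
          obtain ⟨h3, h4⟩ := hM l hl
          obtain ⟨j, hj, h5⟩ := Block_mem h3 (h4.trans hD1)
          have h6 : (if D0 * 2 ^ j < l ∧ l ≤ 2 * (D0 * 2 ^ j) then 1 / (l : ℝ) else 0) =
              1 / (l : ℝ) := if_pos h5
          refine h6.symm.le.trans ?_
          apply single_le_sum (f := fun j => if D0 * 2 ^ j < l ∧ l ≤ 2 * (D0 * 2 ^ j) then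
            1 / (l : ℝ) else 0) _ (mem_range.2 hj)
          intro i _
          split_ifs
          · positivity
          · exact le_rfl
      _ = ∑ j ∈ range J, ∑ l ∈ Bl j, 1 / (l : ℝ) := by
          rw [sum_comm]
          exact sum_congr rfl fun j _ => (sum_filter _ _).symm
      _ ≤ ∑ j ∈ range J, ((Bl j).card : ℝ) / ((D0 * 2 ^ j : ℕ) : ℝ) := by
          apply sum_le_sum
          intro j _
          calc ∑ l ∈ Bl j, 1 / (l : ℝ) ≤ ∑ _l ∈ Bl j, 1 / ((D0 * 2 ^ j : ℕ) : ℝ) := by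
                apply sum_le_sum
                intro l hl
                apply one_div_le_one_div_of_le (hB0 j)
                exact_mod_cast (mem_filter.1 hl).2.1.le
            _ = _ := by
                rw [sum_const, nsmul_eq_mul]
                ring
  have h3 : ∑ j ∈ range J, ((Bl j).card : ℝ) / ((D0 * 2 ^ j : ℕ) : ℝ) <
      ∑ _j ∈ range J, c / J := by
    apply sum_lt_sum_of_nonempty
    · rw [nonempty_range_iff]
      omega
    · intro j _
      exact h1 j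
  rw [sum_const, card_range, nsmul_eq_mul] at h3
  have h4 : (J : ℝ) * (c / J) = c := by field_simp
  linarith

end Pool.MP42e49e.ER
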