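import Pool.Agent.H.MP_42e49e_nt.ER.Defs

/-!
# ER: truncated inclusion-exclusion
-/

set_option autoImplicit false

namespace Pool.MP42e49e.ER

open Finset

/-- PROOF. Bijection `T ↦ (T ∩ P0, T ∩ P1)` of the subsets of `P0 ∪ P1`; `∏_T f = ∏_{T ∩ P0} f * ∏_{T ∩ P1} f`. -/
theorem sw_union {P0 P1 : Finset ℕ} (h : Disjoint P0 P1) (l0 l1 : Finset ℕ → ℝ) (f : ℕ → ℝ) :
    sw (fun T => l0 (T ∩ P0) * l1 (T ∩ P1)) f (P0 ∪ P1) = sw l0 f P0 * sw l1 f P1 := by
  have key : ∀ T ⊆ P0 ∪ P1, T ∩ P0 ∪ T ∩ P1 = T := by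
    intro T hT
    rw [← inter_union_distrib_left]
    exact inter_eq_left.2 hT
  unfold sw
  rw [sum_mul_sum, ← sum_product']
  refine sum_nbij' (fun T => (T ∩ P0, T ∩ P1)) (fun q => q.1 ∪ q.2) ?_ ?_ ?_ ?_ ?_
  · intro T _
    rw [mem_product, mem_powerset, mem_powerset]
    exact ⟨inter_subset_right, inter_subset_right⟩
  · rintro ⟨T0, T1⟩ hq
    rw [mem_product, mem_powerset, mem_powerset] at hq
    rw [mem_powerset]
    exact union_subset_union hq.1 hq.2
  · intro T hT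
    exact key T (mem_powerset.1 hT)
  · rintro ⟨T0, T1⟩ hq
    rw [mem_product, mem_powerset, mem_powerset] at hq
    obtain ⟨h0, h1⟩ := hq
    have e0 : (T0 ∪ T1) ∩ P0 = T0 := by
      rw [union_inter_distrib_right, inter_eq_left.2 h0,
        disjoint_iff_inter_eq_empty.1 (disjoint_of_subset_left h1 h.symm), union_empty]
    have e1 : (T0 ∪ T1) ∩ P1 = T1 := by
      rw [union_inter_distrib_right, inter_eq_left.2 h1,
        disjoint_iff_inter_eq_empty.1 (disjoint_of_subset_left h0 h), empty_union]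
    show ((T0 ∪ T1) ∩ P0, (T0 ∪ T1) ∩ P1) = (T0, T1)
    rw [e0, e1]
  · intro T hT
    have hd : Disjoint (T ∩ P0) (T ∩ P1) :=
      disjoint_of_subset_left inter_subset_right (disjoint_of_subset_right inter_subset_right h)
    have hp : ∏ p ∈ T, f p = (∏ p ∈ T ∩ P0, f p) * ∏ p ∈ T ∩ P1, f p := by
      rw [← prod_union hd, key T (mem_powerset.1 hT)]
    show l0 (T ∩ P0) * l1 (T ∩ P1) * ∏ p ∈ T, f p =
      l0 (T ∩ P0) * (∏ p ∈ T ∩ P0, f p) * (l1 (T ∩ P1) * ∏ p ∈ T ∩ P1, f p)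
    rw [hp]
    ring

theorem sw_sub (l0 l1 : Finset ℕ → ℝ) (f : ℕ → ℝ) (P : Finset ℕ) :
    sw (fun T => l0 T - l1 T) f P = sw l0 f P - sw l1 f P := by
  unfold sw
  rw [← sum_sub_distrib]
  exact sum_congr rfl fun T _ => by ring

/-- the truncated sum -/
private noncomputable def bonfB (f : ℕ → ℝ) (j : ℕ) (P : Finset ℕ) : ℝ :=
  ∑ T ∈ P.powerset, (if T.card ≤ j then (-1) ^ T.card else 0) * ∏ p ∈ T, f p

/-- the elementary symmetric function -/
private noncomputable def bonfE (f : ℕ → ℝ) (j : ℕ) (P : Finset ℕ) : ℝ :=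
  ∑ T ∈ P.powerset, (if T.card = j then 1 else 0) * ∏ p ∈ T, f p

private theorem bonf_B_succ (f : ℕ → ℝ) (j : ℕ) {a : ℕ} {P : Finset ℕ} (ha : a ∉ P) :
    bonfB f (j + 1) (insert a P) = bonfB f (j + 1) P - f a * bonfB f j P := by
  unfold bonfB
  rw [sum_powerset_insert ha, mul_sum, sub_eq_add_neg, ← sum_neg_distrib]
  congr 1
  refine sum_congr rfl fun T hT => ?_
  have haT : a ∉ T := fun h => ha (mem_powerset.1 hT h)
  rw [card_insert_of_notMem haT, prod_insert haT]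
  by_cases hc : T.card ≤ j
  · rw [if_pos (by omega), if_pos hc]
    ring
  · rw [if_neg (by omega), if_neg hc]
    ring

private theorem bonf_E_succ (f : ℕ → ℝ) (j : ℕ) {a : ℕ} {P : Finset ℕ} (ha : a ∉ P) :
    bonfE f (j + 1) (insert a P) = bonfE f (j + 1) P + f a * bonfE f j P := by
  unfold bonfE
  rw [sum_powerset_insert ha, mul_sum]
  congr 1
  refine sum_congr rfl fun T hT => ?_
  have haT : a ∉ T := fun h => ha (mem_powerset.1 hT h)
  rw [card_insert_of_notMem haT, prod_insert haT]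
  by_cases hc : T.card = j
  · rw [if_pos (by omega), if_pos hc]
    ring
  · rw [if_neg (by omega), if_neg hc]
    ring

private theorem bonf_B_zero (f : ℕ → ℝ) (P : Finset ℕ) : bonfB f 0 P = 1 := by
  unfold bonfB
  rw [sum_eq_single ∅]
  · simp
  · intro T _ hT
    have : T.card ≠ 0 := fun h => hT (card_eq_zero.1 h)
    rw [if_neg (by omega), zero_mul]
  · intro h
    exact absurd (empty_mem_powerset P) h

private theorem bonf_E_zero (f : ℕ → ℝ) (P : Finset ℕ) : bonfE f 0 P = 1 := by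
  unfold bonfE
  rw [sum_eq_single ∅]
  · simp
  · intro T _ hT
    have : T.card ≠ 0 := fun h => hT (card_eq_zero.1 h)
    rw [if_neg this, zero_mul]
  · intro h
    exact absurd (empty_mem_powerset P) h

private theorem bonf_prod (P : Finset ℕ) (f : ℕ → ℝ) (hf : ∀ p ∈ P, 0 ≤ f p ∧ f p ≤ 1) :
    0 ≤ ∏ p ∈ P, (1 - f p) ∧ ∏ p ∈ P, (1 - f p) ≤ 1 :=
  ⟨prod_nonneg fun p hp => by linarith [(hf p hp).2],
    prod_le_one (fun p hp => by linarith [(hf p hp).2]) fun p hp => by linarith [(hf p hp).1]⟩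

private theorem bonf_main (f : ℕ → ℝ) (P : Finset ℕ) : (∀ p ∈ P, 0 ≤ f p ∧ f p ≤ 1) → ∀ j : ℕ,
    0 ≤ (-1 : ℝ) ^ j * (bonfB f j P - ∏ p ∈ P, (1 - f p)) ∧
      (-1 : ℝ) ^ j * (bonfB f j P - ∏ p ∈ P, (1 - f p)) ≤ bonfE f (j + 1) P := by
  induction P using Finset.induction_on with
  | empty =>
    intro _ j
    have h1 : bonfB f j ∅ = 1 := by
      unfold bonfB
      simp
    have h2 : bonfE f (j + 1) ∅ = 0 := by
      unfold bonfE
      simp
    rw [h1, h2, prod_empty, sub_self, mul_zero]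
    exact ⟨le_rfl, le_rfl⟩
  | insert a P ha ih =>
    intro hf j
    have hfa := hf a (mem_insert_self a P)
    have hfP : ∀ p ∈ P, 0 ≤ f p ∧ f p ≤ 1 := fun p hp => hf p (mem_insert_of_mem hp)
    have hP := bonf_prod P f hfP
    have ih := ih hfP
    rw [prod_insert ha]
    cases j with
    | zero =>
      have h0 := ih 0
      rw [bonf_B_zero, pow_zero, one_mul] at h0
      rw [bonf_B_zero, pow_zero, one_mul, bonf_E_succ f 0 ha, bonf_E_zero]
      obtain ⟨h1, h2⟩ := h0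
      obtain ⟨h3, h4⟩ := hfa
      obtain ⟨h5, h6⟩ := hP
      have h7 : 0 ≤ f a * ∏ p ∈ P, (1 - f p) := mul_nonneg h3 h5
      have h8 : f a * ∏ p ∈ P, (1 - f p) ≤ f a * 1 := mul_le_mul_of_nonneg_left h6 h3
      constructor
      · linarith
      · linarith
    | succ j =>
      obtain ⟨h1, h2⟩ := ih (j + 1)
      obtain ⟨h3, h4⟩ := ih j
      have e : (-1 : ℝ) ^ (j + 1) * (bonfB f (j + 1) (insert a P) -
          (1 - f a) * ∏ p ∈ P, (1 - f p)) =
          (-1 : ℝ) ^ (j + 1) * (bonfB f (j + 1) P - ∏ p ∈ P, (1 - f p)) +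
          f a * ((-1 : ℝ) ^ j * (bonfB f j P - ∏ p ∈ P, (1 - f p))) := by
        rw [bonf_B_succ f j ha, pow_succ]
        ring
      rw [e, bonf_E_succ f (j + 1) ha]
      have h5 := mul_nonneg hfa.1 h3
      have h6 := mul_le_mul_of_nonneg_left h4 hfa.1
      constructor
      · linarith
      · linarith

/-- PROOF. Let `B j P = ∑_{T ⊆ P, |T| ≤ j} (-1)^|T| ∏_T f` and `e j P = ∑_{|T| = j} ∏_T f`.  Induction on `P` (`Finset.induction_on`): for `a ∉ P`,
`B (j+1) (insert a P) = B (j+1) P - f a * B j P`, `e (j+1) (insert a P) = e (j+1) P + f a * e j P`, and for all `j`: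
`0 ≤ (-1)^j (B j P - ∏_P (1 - f)) ≤ e (j+1) P` (compare `TT_sign` in `Brun.lean`). -/
theorem tU_ge (k : ℕ) (P : Finset ℕ) (f : ℕ → ℝ) (hf : ∀ p ∈ P, 0 ≤ f p ∧ f p ≤ 1) :
    ∏ p ∈ P, (1 - f p) ≤ sw (tU k) f P := by
  have h := (bonf_main f P hf (2 * k)).1
  rw [pow_mul, neg_one_sq, one_pow, one_mul] at h
  have e : sw (tU k) f P = bonfB f (2 * k) P := rfl
  rw [e]
  linarith

theorem tU_le (k : ℕ) (P : Finset ℕ) (f : ℕ → ℝ) (hf : ∀ p ∈ P, 0 ≤ f p ∧ f p ≤ 1) :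
    sw (tU k) f P - sw (tW k) f P ≤ ∏ p ∈ P, (1 - f p) := by
  have h := (bonf_main f P hf (2 * k)).2
  rw [pow_mul, neg_one_sq, one_pow, one_mul] at h
  have e : sw (tU k) f P = bonfB f (2 * k) P := rfl
  have e' : sw (tW k) f P = bonfE f (2 * k + 1) P := rfl
  rw [e, e']
  linarith

theorem tW_nonneg (k : ℕ) (P : Finset ℕ) (f : ℕ → ℝ) (hf : ∀ p ∈ P, 0 ≤ f p) :
    0 ≤ sw (tW k) f P := by
  unfold sw tW
  refine sum_nonneg fun T hT => mul_nonneg ?_ (prod_nonneg fun p hp => ?_)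
  · split_ifs
    · exact zero_le_one
    · exact le_rfl
  · exact hf p (mem_powerset.1 hT hp)

private theorem bonf_pow {a t : ℝ} (ha : 0 ≤ a) (ht : 0 ≤ t) (n : ℕ) :
    t ^ (n + 1) + (n + 1) * (a * t ^ n) ≤ (t + a) ^ (n + 1) := by
  induction n with
  | zero =>
    rw [Nat.cast_zero]
    simp
  | succ n ih =>
    have h1 := mul_le_mul_of_nonneg_right ih (add_nonneg ht ha)
    have h2 : (t ^ (n + 1) + (n + 1) * (a * t ^ n)) * (t + a) =
        t ^ (n + 1 + 1) + ((n : ℝ) + 1 + 1) * (a * t ^ (n + 1)) + (n + 1) * (a ^ 2 * t ^ n) := by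
      ring
    have h3 : 0 ≤ ((n : ℝ) + 1) * (a ^ 2 * t ^ n) := by positivity
    rw [h2] at h1
    rw [pow_succ (t + a)]
    push_cast
    linarith

private theorem bonf_E_le (f : ℕ → ℝ) (P : Finset ℕ) : (∀ p ∈ P, 0 ≤ f p) → ∀ j : ℕ,
    bonfE f j P ≤ (∑ p ∈ P, f p) ^ j / j.factorial := by
  induction P using Finset.induction_on with
  | empty =>
    intro _ j
    cases j with
    | zero => rw [bonf_E_zero]; simp
    | succ j =>
      have h2 : bonfE f (j + 1) ∅ = 0 := by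
        unfold bonfE
        simp
      rw [h2, sum_empty]
      positivity
  | insert a P ha ih =>
    intro hf j
    have hfa := hf a (mem_insert_self a P)
    have hfP : ∀ p ∈ P, 0 ≤ f p := fun p hp => hf p (mem_insert_of_mem hp)
    have ih := ih hfP
    have hS : 0 ≤ ∑ p ∈ P, f p := sum_nonneg hfP
    cases j with
    | zero => rw [bonf_E_zero]; simp
    | succ j =>
      rw [bonf_E_succ f j ha, sum_insert ha]
      have h1 := ih (j + 1)
      have h2 := mul_le_mul_of_nonneg_left (ih j) hfa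
      have h3 := bonf_pow hfa hS j
      have hj : (0 : ℝ) < (j.factorial : ℝ) := by exact_mod_cast j.factorial_pos
      have hj1 : (0 : ℝ) < ((j + 1).factorial : ℝ) := by exact_mod_cast (j + 1).factorial_pos
      have e : (∑ p ∈ P, f p) ^ (j + 1) / ((j + 1).factorial : ℝ) +
          f a * ((∑ p ∈ P, f p) ^ j / (j.factorial : ℝ)) =
          ((∑ p ∈ P, f p) ^ (j + 1) + (j + 1) * (f a * (∑ p ∈ P, f p) ^ j)) /
            ((j + 1).factorial : ℝ) := by
        rw [Nat.factorial_succ]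
        push_cast
        field_simp
      refine (add_le_add h1 h2).trans ?_
      rw [e, add_comm (f a)]
      exact div_le_div_of_nonneg_right h3 hj1.le

/-- PROOF. `e j (insert a P) = e j P + f a * e (j-1) P ≤ S^j / j! + f a * S^(j-1) / (j-1)! ≤ (S + f a)^j / j!` (`pow_add_ge` and `EE_le` in `Brun.lean`). -/
theorem tW_le (k : ℕ) (P : Finset ℕ) (f : ℕ → ℝ) (hf : ∀ p ∈ P, 0 ≤ f p) :
    sw (tW k) f P ≤ (∑ p ∈ P, f p) ^ (2 * k + 1) / (2 * k + 1).factorial :=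
  bonf_E_le f P hf (2 * k + 1)

/-- PROOF. `1 - x ≥ exp (-2 x)` for `0 ≤ x ≤ 1/2`. -/
theorem prod_one_sub_ge (P : Finset ℕ) (f : ℕ → ℝ) (hf : ∀ p ∈ P, 0 ≤ f p ∧ f p ≤ 1 / 2) :
    Real.exp (-(2 * ∑ p ∈ P, f p)) ≤ ∏ p ∈ P, (1 - f p) := by
  have key : ∀ x : ℝ, 0 ≤ x → x ≤ 1 / 2 → Real.exp (-(2 * x)) ≤ 1 - x := by
    intro x h0 h1
    have h2 := Real.quadratic_le_exp_of_nonneg (show 0 ≤ 2 * x by linarith)
    have h3 : 1 ≤ (1 - x) * Real.exp (2 * x) := by
      refine le_trans ?_ (mul_le_mul_of_nonneg_left h2 (by linarith))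
      nlinarith [mul_nonneg h0 (show 0 ≤ 1 / 2 - x ^ 2 by nlinarith)]
    rw [Real.exp_neg, inv_le_iff_one_le_mul₀ (Real.exp_pos _)]
    exact h3
  rw [mul_sum, ← sum_neg_distrib, Real.exp_sum]
  exact prod_le_prod (fun p _ => (Real.exp_pos _).le) fun p hp => key _ (hf p hp).1 (hf p hp).2

end Pool.MP42e49e.ER
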