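import Pool.Agent.H.MP_42e49e_nt.ER.Defs
import Pool.Agent.H.MP_711652_nt.CH.Cheb

/-!
# ER: the primes of `(X, 2 X]`
-/

set_option autoImplicit false

namespace Pool.MP42e49e.ER

open Finset Pool.Agent.H.MP_711652_nt.CH

theorem PX_sum (X : ℕ) : ∑ q ∈ PX X, thn q = ∑ q ∈ Ioc X (2 * X), thn q := by
  unfold PX clp
  rw [sum_filter, sum_filter]
  refine sum_congr rfl fun q _ => ?_
  rw [if_pos (Nat.modEq_one)]
  unfold thn
  split_ifs <;> rfl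

theorem thetaX : ∃ X0 : ℕ, ∀ X : ℕ, X0 ≤ X → (X : ℝ) / 2 ≤ ∑ q ∈ PX X, thn q ∧
    ∑ q ∈ PX X, thn q ≤ 3 * X := by
  obtain ⟨X0, h⟩ := theta_diff
  refine ⟨X0, fun X hX => ?_⟩
  rw [PX_sum]
  have hX0 : (0 : ℝ) ≤ X := Nat.cast_nonneg X
  refine ⟨h X hX X (2 * X) (by linarith) (by push_cast; linarith), ?_⟩
  have h1 : ∑ q ∈ Ioc X (2 * X), thn q ≤ ∑ q ∈ Ioc 0 (2 * X), thn q := by
    refine sum_le_sum_of_subset_of_nonneg (Ioc_subset_Ioc_left (Nat.zero_le _)) fun q _ _ => ?_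
    unfold thn
    split_ifs
    · exact Real.log_natCast_nonneg q
    · exact le_rfl
  have h2 : ∑ q ∈ Ioc 0 (2 * X), thn q = Chebyshev.theta ((2 * X : ℕ) : ℝ) := by
    rw [Chebyshev.theta, Nat.floor_natCast, sum_filter]
    exact sum_congr rfl fun k _ => rfl
  have h3 := Chebyshev.theta_le_log4_mul_x (x := ((2 * X : ℕ) : ℝ)) (Nat.cast_nonneg _)
  have h4 : Real.log 4 ≤ 3 / 2 := by
    have : Real.log 4 = 2 * Real.log 2 := by
      rw [show (4 : ℝ) = 2 ^ 2 by norm_num, Real.log_pow]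
      norm_num
    have := Real.log_two_lt_d9
    linarith
  have h5 : Real.log 4 * ((2 * X : ℕ) : ℝ) ≤ 3 / 2 * ((2 * X : ℕ) : ℝ) :=
    mul_le_mul_of_nonneg_right h4 (Nat.cast_nonneg _)
  push_cast at h3 h5
  rw [h2] at h1
  push_cast at h1
  linarith

end Pool.MP42e49e.ER
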