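import Pool.Agent.H.MP_42e49e_nt.ER.P3
import Pool.Agent.H.MP_42e49e_nt.ER.ThetaX

/-!
# ER: the core theorem
-/

set_option autoImplicit false

namespace Pool.MP42e49e.ER

open Finset Pool.Agent.H.MP_711652_nt.CH

variable {x z : ℕ} {r ρ : ℝ}

/-- The statement of `kill`, with constants. -/
def KillP (C H0 : ℝ) : Prop := ∀ (X p z : ℕ) (Pr : Finset ℕ) (u : ℕ → ℕ), p.Prime →
    2 ≤ z → (∀ l ∈ Pr, l.Prime ∧ l ≤ z ∧ 150 < Real.log l) → p ∉ Pr → (∀ l ∈ Pr, ¬ l ∣ u l) →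
    H0 ≤ Real.log ((X : ℝ) / p) →
    ∑ q ∈ (PX X).filter (fun q => q ≡ u p [MOD p] ∧ ∀ l ∈ Pr, ¬ q ≡ u l [MOD l]), thn q ≤
      C * (X / p) * (∏ l ∈ Pr, (1 - g1 l)) * Real.log X *
        ((Real.log z + Real.log ((X : ℝ) / p)) / Real.log ((X : ℝ) / p) ^ 2)

/-- The statement of `rbv_big`, with a constant. -/
def RbvP (C : ℝ) : Prop := ∀ (X : ℕ) (Q : ℝ) (Pm Pr : Finset ℕ) (D : ℝ), 3 ≤ X → 1 ≤ Q →
    Q ^ 16 ≤ X → 2 ≤ D → (∀ p ∈ Pm ∪ Pr, p.Prime ∧ 256 ≤ p) → (∀ p ∈ Pr, D ≤ (p : ℝ)) →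
    E2 Pm Pr Q (Zs (PX X) thn) ≤ C * X * (1 + Real.log X) ^ 5 * D ^ (-(3 / 4 : ℝ))

/-- Both cases at once. -/
theorem Sz.both (h : Sz x z r ρ) (a : ℕ → ℕ) {C3 C6 H0 c1 : ℝ} (hC3 : 0 < C3) (hR3 : RbvP C3)
    (hC6 : 0 < C6) (hK6 : KillP C6 H0) (hc1 : 128 * (C6 * c1) ≤ e5) (hc0 : 0 ≤ c1) {X y : ℕ}
    (hF : 32 * (Real.exp 23 * C3 * 243) ≤ e5 ^ 2 * r)
    (hH0 : H0 ≤ r) (hXdef : X = XX a y z r)
    (hTh : (X : ℝ) / 2 ≤ ∑ q ∈ PX X, thn q ∧ ∑ q ∈ PX X, thn q ≤ 3 * X)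
    (hy : 4 * Real.sqrt (Real.log z) ≤ Real.log ((y : ℝ) / x)) (hyx : y ≤ x ^ 2)
    (hE : ∑ p ∈ LV a z x, (Real.log z + Real.log ((y : ℝ) / p)) / (p * Real.log ((y : ℝ) / p) ^ 2) ≤
      c1 / Real.log x)
    (k : ℕ) (hk : k ≤ 2016) (Bs Pm K1 : Finset ℕ) (hM : Pm ∪ K1 = LV a (dA z) (dB r))
    (hd : Disjoint Pm K1) (hBs : Bs ⊆ K1) (hN : 0 < Bs.card ∨ k = 0)
    (hK1 : ∑ p ∈ K1, 1 / (p : ℝ) ≤ c1)
    (hE1 : E1 Pm ((dB r : ℝ) ^ 21) (ZB k Bs) ≤ e5 ^ 2 / 200 * (Bs.card : ℝ) ^ (2 * k)) :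
    ∃ n : ℕ, 1 ≤ n ∧ n ≤ y ∧ ∀ p : ℕ, p.Prime → p ≤ x → ¬ n ≡ a p [MOD p] := by
  obtain ⟨lp, lm, hW⟩ := h.wts a
  have hr := h.r_pos
  have hr1 : 1 ≤ r := by linarith [h.hr2]
  have hPmL : Pm ⊆ LV a (dA z) (dB r) := by
    rw [← hM]
    exact subset_union_left
  have hK1L : K1 ⊆ LV a (dA z) (dB r) := by
    rw [← hM]
    exact subset_union_right
  obtain ⟨hVm, hEm, hη⟩ := h.mid a Pm hPmL
  have hs0 : 0 < Real.log z := lt_of_lt_of_le (by positivity) h.hz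
  have hss : r ≤ Real.sqrt (Real.log z) := sqrt_ge hr.le h.hz
  obtain ⟨s, hs⟩ : ∃ s, s = Real.sqrt (Real.log z) := ⟨_, rfl⟩
  have hss' : r ≤ s := by rw [hs]; exact hss
  obtain ⟨f1, f2⟩ := h.XX_facts a hy
  rw [← hXdef, ← hs] at f1 f2
  have hx0 := h.x_pos
  have hx1 : (1 : ℝ) ≤ x := by
    have : 0 < x := by exact_mod_cast hx0
    exact_mod_cast this
  have he1 : 1 ≤ Real.exp (2 * s) := Real.one_le_exp (by linarith)
  have hxX' : (x : ℝ) ≤ X := by nlinarith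
  have hxX : x ≤ X := by exact_mod_cast hxX'
  have hX0 : (0 : ℝ) < X := by linarith
  have hXy' : X ≤ y := by
    rw [hXdef]
    exact Nat.div_le_self _ _
  have hy0 : (0 : ℝ) < y := by
    have : (X : ℝ) ≤ y := by exact_mod_cast hXy'
    linarith
  have ht : 0 < r ^ 4 := by positivity
  have hLX1 : r ^ 4 ≤ Real.log X := by
    rw [← h.hx]
    exact Real.log_le_log hx0 hxX'
  have hLX2 : Real.log X ≤ 2 * r ^ 4 := by
    have h1 : (X : ℝ) ≤ (x : ℝ) ^ 2 := by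
      have : X ≤ x ^ 2 := hXy'.trans hyx
      exact_mod_cast this
    have h2 := Real.log_le_log hX0 h1
    rw [Real.log_pow, h.hx] at h2
    push_cast at h2
    exact h2
  have hLX0 : 0 < Real.log X := by linarith
  -- the primes up to `x`
  have hXp : ∀ p : ℕ, 0 < p → Real.log ((y : ℝ) / p) - 2 * s ≤ Real.log ((X : ℝ) / p) := by
    intro p hp
    have hp0 : (0 : ℝ) < p := by exact_mod_cast hp
    rw [Real.log_div hy0.ne' hp0.ne', Real.log_div hX0.ne' hp0.ne']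
    have h1 := Real.log_le_log (div_pos hy0 (Real.exp_pos _)) f1
    rw [Real.log_div hy0.ne' (Real.exp_pos _).ne', Real.log_exp] at h1
    linarith
  have hyp : ∀ p : ℕ, 0 < p → p ≤ x → 4 * s ≤ Real.log ((y : ℝ) / p) := by
    intro p hp hpx
    have hp0 : (0 : ℝ) < p := by exact_mod_cast hp
    have hpx' : (p : ℝ) ≤ x := by exact_mod_cast hpx
    rw [hs]
    refine hy.trans ?_
    rw [Real.log_div hy0.ne' hx0.ne', Real.log_div hy0.ne' hp0.ne']
    linarith [Real.log_le_log hp0 hpx']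
  obtain ⟨φ, hφ⟩ : ∃ φ : ℕ → ℝ, φ = fun p : ℕ => Real.log X *
      ((Real.log z + Real.log ((X : ℝ) / p)) / Real.log ((X : ℝ) / p) ^ 2) := ⟨_, rfl⟩
  have memK : ∀ p ∈ K1 ∪ LV a z x, p.Prime ∧ p ≤ x ∧ p ∉ LV a (dB r) z := by
    intro p hp
    have h12 := h.dB_z
    have h13 := h.z_x
    rcases mem_union.1 hp with hp | hp
    · have h1 := mem_LV.1 (hK1L hp)
      refine ⟨h1.1, by omega, fun h2 => ?_⟩
      have h3 := mem_LV.1 h2
      omega
    · have h1 := mem_LV.1 hp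
      refine ⟨h1.1, h1.2.2.1, fun h2 => ?_⟩
      have h3 := mem_LV.1 h2
      omega
  have hlogK : ∀ p ∈ K1 ∪ LV a z x, 2 * s ≤ Real.log ((X : ℝ) / p) := by
    intro p hp
    obtain ⟨h1, h2, _⟩ := memK p hp
    linarith [hXp p h1.pos, hyp p h1.pos h2]
  have hφ0 : ∀ p ∈ K1 ∪ LV a z x, 0 ≤ φ p := by
    intro p hp
    have := hlogK p hp
    rw [hφ]
    have h1 : 0 < Real.log ((X : ℝ) / p) := by linarith
    positivity
  have hdA256 : 256 ≤ dA z := by exact_mod_cast h.dA_256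
  have hz2 : 2 ≤ z := by
    have := h.dA_dB
    have := h.dB_z
    omega
  refine finish x y z (dA z) (dB r) k 10 X a Bs Pm K1 ((dB r : ℝ) ^ 21)
    (Real.exp (26 * Real.log z)) (C3 * (1 + Real.log X) ^ 5 * (dB r : ℝ) ^ (-(3 / 4 : ℝ)))
    (e5 ^ 2 / 200) C6 e5 φ lp lm h.dA_dB h.dB_z h.z_x hxX ?_ hM hd hBs hN ?_ ?_ (Real.exp_pos _).le
    ?_ hW hη e5_pos hVm hEm ?_ hTh.1 hTh.2 hE1 (h.E2_bound hR3 a Pm hPmL X hxX) ?_ ?_ ?_ ?_ hC6.le
    hφ0 ?_ ?_
  · have : 0 < X := by exact_mod_cast hX0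
    exact this
  · -- the length
    have h1 : 2 * (∏ l ∈ LV a 0 (dA z), l) * dB r ^ 4032 * X ≤ y := by
      rw [hXdef]
      exact Nat.mul_div_le _ _
    have h2 : dB r ^ (2 * k) ≤ dB r ^ 4032 := by
      refine Nat.pow_le_pow_right ?_ (by omega)
      exact_mod_cast h.dB_pos
    calc (∏ l ∈ LV a 0 (dA z), l) * dB r ^ (2 * k) * (2 * X)
        ≤ (∏ l ∈ LV a 0 (dA z), l) * dB r ^ 4032 * (2 * X) :=
          Nat.mul_le_mul_right _ (Nat.mul_le_mul_left _ h2)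
      _ = 2 * (∏ l ∈ LV a 0 (dA z), l) * dB r ^ 4032 * X := by ring
      _ ≤ y := h1
  · have := h.dB_pos
    positivity
  · intro T hT hTc
    push_cast
    have h1 : ∏ p ∈ T, (p : ℝ) ≤ ∏ _p ∈ T, (dB r : ℝ) := by
      refine prod_le_prod (fun p _ => Nat.cast_nonneg p) fun p hp => ?_
      exact_mod_cast (mem_LV.1 (hPmL (hT hp))).2.2.1
    rw [prod_const] at h1
    exact h1.trans (pow_le_pow_right₀ h.one_le_dB (by omega))
  · refine lt_of_lt_of_le ?_ (h.rough_V a)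
    positivity
  · positivity
  · have := h.dB_pos
    positivity
  · exact le_of_eq (by ring)
  · exact h.R_bound a hC3 hLX0.le hLX2 hF
  · -- the killing
    intro p hp v hv
    obtain ⟨h1, h2, h3⟩ := memK p hp
    refine (hK6 X p z (LV a (dB r) z) v h1 hz2
      (fun l hl => ⟨(h.mem_rough a hl).1, (h.mem_rough a hl).2.2.1, (h.mem_rough a hl).2.2.2.1⟩)
      h3 hv ?_).trans (le_of_eq ?_)
    · linarith [hlogK p hp]
    · rw [hφ]
      have : (p : ℝ) ≠ 0 := by exact_mod_cast h1.ne_zero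
      field_simp
  · -- the sum
    have hsub : ∑ p ∈ K1 ∪ LV a z x, φ p / p ≤ ∑ p ∈ K1, φ p / p + ∑ p ∈ LV a z x, φ p / p := by
      have h1 : Disjoint K1 (LV a z x) := by
        rw [disjoint_left]
        intro p h1 h2
        have h3 := mem_LV.1 (hK1L h1)
        have h4 := mem_LV.1 h2
        have := h.dB_z
        omega
      rw [sum_union h1]
    have hmid : ∑ p ∈ K1, φ p / p ≤ 8 * c1 := by
      have h1 : ∀ p ∈ K1, φ p / p ≤ 8 * (1 / (p : ℝ)) := by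
        intro p hp
        have h2 := mem_LV.1 (hK1L hp)
        have hp0 : (0 : ℝ) < p := by exact_mod_cast h2.1.pos
        have h3 : Real.log p ≤ 48 * ρ :=
          (Real.log_le_log hp0 (by exact_mod_cast h2.2.2.1)).trans h.log_dB
        have h4 : 0 ≤ Real.log p := Real.log_natCast_nonneg p
        have h5 : Real.log ((X : ℝ) / p) = Real.log X - Real.log p := Real.log_div hX0.ne' hp0.ne'
        have h6 : r ≤ r ^ 4 := by
          calc r = r ^ 1 := (pow_one r).symm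
            _ ≤ r ^ 4 := pow_le_pow_right₀ hr1 (by norm_num)
        have h7 := h.hA
        have h8 := h.hz2
        have h9 := h.hρ1
        have h10 : φ p ≤ 8 := by
          rw [hφ]
          simp only
          rw [h5]
          exact phi_mid hs0.le (by linarith) h4 (by linarith) hLX0
        calc φ p / p ≤ 8 / p := div_le_div_of_nonneg_right h10 hp0.le
          _ = 8 * (1 / (p : ℝ)) := by ring
      refine (sum_le_sum h1).trans ?_
      rw [← mul_sum]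
      linarith
    have htop : ∑ p ∈ LV a z x, φ p / p ≤ 8 * c1 := by
      have h1 : ∀ p ∈ LV a z x, φ p / p ≤ 8 * r ^ 4 *
          ((Real.log z + Real.log ((y : ℝ) / p)) / (p * Real.log ((y : ℝ) / p) ^ 2)) := by
        intro p hp
        have h2 := mem_LV.1 hp
        have hp0 : (0 : ℝ) < p := by exact_mod_cast h2.1.pos
        have h3 := hyp p h2.1.pos h2.2.2.1
        have h4 := hXp p h2.1.pos
        have h5 : Real.log ((X : ℝ) / p) ≤ Real.log ((y : ℝ) / p) := by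
          refine Real.log_le_log (div_pos hX0 hp0) (div_le_div_of_nonneg_right ?_ hp0.le)
          exact_mod_cast hXy'
        have h6 : φ p ≤ 8 * r ^ 4 *
            ((Real.log z + Real.log ((y : ℝ) / p)) / Real.log ((y : ℝ) / p) ^ 2) := by
          rw [hφ]
          exact phi_top hs0.le (by linarith) (by linarith) h5 hLX0.le hLX2
        calc φ p / p ≤ (8 * r ^ 4 *
            ((Real.log z + Real.log ((y : ℝ) / p)) / Real.log ((y : ℝ) / p) ^ 2)) / p :=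
              div_le_div_of_nonneg_right h6 hp0.le
          _ = _ := by
            have h7 : 0 < Real.log ((y : ℝ) / p) := by linarith
            field_simp
      refine (sum_le_sum h1).trans ?_
      rw [← mul_sum]
      rw [h.hx] at hE
      have := mul_le_mul_of_nonneg_left hE (by positivity : 0 ≤ 8 * r ^ 4)
      have e : 8 * r ^ 4 * (c1 / r ^ 4) = 8 * c1 := by field_simp
      linarith
    have h1 : ∑ p ∈ K1 ∪ LV a z x, φ p / p ≤ 16 * c1 := by linarith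
    have h2 := mul_le_mul_of_nonneg_left h1 hC6.le
    linarith

/-- **The core theorem.** -/
theorem core : ∃ c : ℝ, 0 < c ∧ ∃ x0 : ℕ, ∀ (x y z : ℕ) (a : ℕ → ℕ), x0 ≤ x →
    Real.sqrt (Real.log x) ≤ Real.log z → Real.log z ≤ c * Real.log x →
    4 * Real.sqrt (Real.log z) ≤ Real.log ((y : ℝ) / x) → y ≤ x ^ 2 →
    ∑ p ∈ LV a z x, (Real.log z + Real.log ((y : ℝ) / p)) / (p * Real.log ((y : ℝ) / p) ^ 2) ≤
      c / Real.log x →
    ∃ n : ℕ, 1 ≤ n ∧ n ≤ y ∧ ∀ p : ℕ, p.Prime → p ≤ x → ¬ n ≡ a p [MOD p] := by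
  obtain ⟨C3, hC3, hR3⟩ := rbv_big
  obtain ⟨C6, H0, hC6, hH1, hK6⟩ := kill
  obtain ⟨X0, hX0⟩ := thetaX
  obtain ⟨c1, hc1⟩ : ∃ c1 : ℝ, c1 = e5 / (128 * C6) := ⟨_, rfl⟩
  have hc1p : 0 < c1 := by
    rw [hc1]
    exact div_pos e5_pos (by positivity)
  have hc1C : 128 * (C6 * c1) ≤ e5 := by
    rw [hc1]
    refine le_of_eq ?_
    field_simp
  obtain ⟨k, hk⟩ : ∃ k : ℕ, k = 2016 := ⟨_, rfl⟩
  -- the conditions on `r`
  have ev : ∀ᶠ r : ℝ in Filter.atTop, 2 ≤ r ∧ 1000 ≤ Real.log r ∧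
      200000 * Real.log r + 10 ≤ r / 2 ∧ 32 * (Real.exp 23 * C3 * 243) ≤ e5 ^ 2 * r ∧ H0 ≤ r ∧
      64 * (k.factorial : ℝ) * (142 * Real.log r / c1) ^ k ≤ e5 ^ 2 / 200 * (r / 2) ∧
      13 ≤ c1 * (Real.log r - 1) := by
    have h5 := e5_pos
    have hlog := Real.tendsto_log_atTop
    have a1 := Filter.eventually_ge_atTop (2 : ℝ)
    have a2 := hlog.eventually_ge_atTop 1000
    have a3 := ev_log_pow 400001 1
    have a3' := Filter.eventually_ge_atTop (400001 * 400 : ℝ)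
    have a4 := Filter.eventually_ge_atTop (32 * (Real.exp 23 * C3 * 243) / e5 ^ 2)
    have a5 := Filter.eventually_ge_atTop H0
    have a6 := ev_log_pow (64 * (k.factorial : ℝ) * (142 / c1) ^ k / (e5 ^ 2 / 200 * (1 / 2))) k
    have a7 := hlog.eventually_ge_atTop (13 / c1 + 1)
    filter_upwards [a1, a2, a3, a3', a4, a5, a6, a7] with r b1 b2 b3 b3' b4 b5 b6 b7
    refine ⟨b1, b2, ?_, ?_, b5, ?_, ?_⟩
    · rw [pow_one] at b3
      nlinarith
    · rw [div_le_iff₀ (by positivity)] at b4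
      linarith
    · rw [div_mul_eq_mul_div, div_le_iff₀ (by positivity)] at b6
      have e : (142 * Real.log r / c1) ^ k = (142 / c1) ^ k * Real.log r ^ k := by
        rw [← mul_pow]
        congr 1
        ring
      rw [e]
      linarith
    · have h6 : 13 / c1 ≤ Real.log r - 1 := by linarith
      rw [div_le_iff₀ hc1p] at h6
      linarith
  obtain ⟨r0, hr0⟩ := Filter.eventually_atTop.1 ev
  refine ⟨min c1 (1 / 1000), lt_min hc1p (by norm_num), max X0 ⌈Real.exp ((max r0 2) ^ 4)⌉₊,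
    fun x y z a hx hz1 hz2 hy hyx hE => ?_⟩
  have hxX0 : X0 ≤ x := (le_max_left _ _).trans hx
  have hx1 : Real.exp ((max r0 2) ^ 4) ≤ x :=
    (Nat.le_ceil _).trans (by exact_mod_cast (le_max_right _ _).trans hx)
  have hx0 : (0 : ℝ) < x := lt_of_lt_of_le (Real.exp_pos _) hx1
  have hlx : (max r0 2) ^ 4 ≤ Real.log x := (Real.le_log_iff_exp_le hx0).2 hx1
  have hm2 : 2 ≤ max r0 2 := le_max_right _ _
  have hlx0 : 0 < Real.log x := lt_of_lt_of_le (by positivity) hlx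
  obtain ⟨r, hr⟩ : ∃ r, r = Real.sqrt (Real.sqrt (Real.log x)) := ⟨_, rfl⟩
  have hr4 : r ^ 4 = Real.log x := by
    rw [hr, show (4 : ℕ) = 2 * 2 by norm_num, pow_mul, Real.sq_sqrt (Real.sqrt_nonneg _),
      Real.sq_sqrt hlx0.le]
  have hr2 : r ^ 2 = Real.sqrt (Real.log x) := by
    rw [hr, Real.sq_sqrt (Real.sqrt_nonneg _)]
  have hr00 : 0 ≤ r := by rw [hr]; exact Real.sqrt_nonneg _
  have hrm : max r0 2 ≤ r := by
    by_contra hcon
    push Not at hcon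
    have := pow_lt_pow_left₀ hcon hr00 (show 4 ≠ 0 by norm_num)
    rw [hr4] at this
    linarith
  obtain ⟨b1, b2, b3, b4, b5, b6, b7⟩ := hr0 r ((le_max_left _ _).trans hrm)
  have hsz : Sz x z r (Real.log r) := by
    refine ⟨hr4.symm, rfl, b1, b2, b3, ?_, ?_⟩
    · rw [hr2]
      exact hz1
    · rw [hr4]
      have h1 : min c1 (1 / 1000) * Real.log x ≤ 1 / 1000 * Real.log x :=
        mul_le_mul_of_nonneg_right (min_le_right _ _) hlx0.le
      linarith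
  have hE' : ∑ p ∈ LV a z x, (Real.log z + Real.log ((y : ℝ) / p)) /
      (p * Real.log ((y : ℝ) / p) ^ 2) ≤ c1 / Real.log x :=
    hE.trans (div_le_div_of_nonneg_right (min_le_left _ _) hlx0.le)
  obtain ⟨X, hX⟩ : ∃ X, X = XX a y z r := ⟨_, rfl⟩
  have hXx : X0 ≤ X := by
    have h1 := (hsz.XX_facts a hy).2
    rw [← hX] at h1
    have h2 : 1 ≤ Real.exp (2 * Real.sqrt (Real.log z)) := Real.one_le_exp (by positivity)
    have h3 : (x : ℝ) ≤ X := by nlinarith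
    have h4 : x ≤ X := by exact_mod_cast h3
    exact hxX0.trans h4
  have hTh := hX0 X hXx
  by_cases hcase : ∑ p ∈ LV a (dA z) (dB r), 1 / (p : ℝ) ≤ c1
  · refine hsz.both a hC3 hR3 hC6 hK6 hc1C hc1p.le b4 b5 hX hTh hy hyx hE' 0 (by norm_num) ∅ ∅
      (LV a (dA z) (dB r)) (by simp) (by simp) (by simp) (Or.inr rfl) hcase ?_
    have h1 : E1 ∅ ((dB r : ℝ) ^ 21) (ZB 0 ∅) = 0 := by
      unfold E1
      refine sum_eq_zero fun T hT => ?_
      rw [mem_filter, mem_erase, mem_powerset, subset_empty] at hT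
      exact absurd hT.1.2 hT.1.1
    rw [h1]
    positivity
  · push Not at hcase
    obtain ⟨Bs, hBs1, hBs2, hBs3, hBs4⟩ := hsz.caseB a (ζ := e5 ^ 2 / 200) hc1p hk b6 b7 hcase
    exact hsz.both a hC3 hR3 hC6 hK6 hc1C hc1p.le b4 b5 hX hTh hy hyx hE' k hk.le Bs
      (LV a (dA z) (dB r) \ Bs) Bs (sdiff_union_of_subset hBs1) sdiff_disjoint
      Subset.rfl (Or.inl hBs2) hBs3 hBs4

end Pool.MP42e49e.ER
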