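import Pool.Agent.H.MP_711652_nt.CH.RbvUse
import Pool.Agent.H.MP_42e49e_nt.Small

/-!
# MP_42e49e, coverings of Erdős-Rankin type (ER): definitions

Paper proof: team-store `h74_er_bp.md`.
-/

set_option autoImplicit false

namespace Pool.MP42e49e.ER

open Finset Pool.Agent.H.MP_711652_nt.CH

/-- The indicator of `n ≡ u p (mod p)`. -/
noncomputable def ind (u : ℕ → ℕ) (p n : ℕ) : ℝ := if n ≡ u p [MOD p] then 1 else 0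

/-- `1 / (p - 1)` -/
noncomputable def g1 (p : ℕ) : ℝ := 1 / ((p : ℝ) - 1)

/-- The weighted sum over the subsets of `P`. -/
noncomputable def sw (l : Finset ℕ → ℝ) (f : ℕ → ℝ) (P : Finset ℕ) : ℝ :=
  ∑ T ∈ P.powerset, l T * ∏ p ∈ T, f p

/-- Upper and lower sieve weights `lp`, `lm` of level `Q` for the set `P` with densities `g`. -/
structure Wts (P : Finset ℕ) (g : ℕ → ℝ) (Q δ : ℝ) (lp lm : Finset ℕ → ℝ) : Prop where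
  bp : ∀ T, |lp T| ≤ 1
  bm : ∀ T, |lm T| ≤ 1
  sp : ∀ T, T ⊆ P → lp T ≠ 0 → ((∏ p ∈ T, p : ℕ) : ℝ) ≤ Q
  sm : ∀ T, T ⊆ P → lm T ≠ 0 → ((∏ p ∈ T, p : ℕ) : ℝ) ≤ Q
  up : ∀ f : ℕ → ℝ, (∀ p ∈ P, 0 ≤ f p ∧ f p ≤ 1) → ∏ p ∈ P, (1 - f p) ≤ sw lp f P
  lo : ∀ f : ℕ → ℝ, (∀ p ∈ P, 0 ≤ f p ∧ f p ≤ 1) → sw lm f P ≤ ∏ p ∈ P, (1 - f p)
  gp : sw lp g P ≤ (1 + δ) * ∏ p ∈ P, (1 - g p)
  gm : (1 - δ) * ∏ p ∈ P, (1 - g p) ≤ sw lm g P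

/-- The Möbius function, truncated. -/
noncomputable def tU (k : ℕ) (T : Finset ℕ) : ℝ := if T.card ≤ 2 * k then (-1) ^ T.card else 0

/-- The indicator of the sets with `2 k + 1` elements. -/
noncomputable def tW (k : ℕ) (T : Finset ℕ) : ℝ := if T.card = 2 * k + 1 then 1 else 0

/-- The product of the `1 + 1 / (p - 1)`. -/
noncomputable def EP (P : Finset ℕ) : ℝ := ∏ p ∈ P, (1 + g1 p)

/-- The sum over the primitive characters modulo `r` of `|∑ w χ(n)|`. -/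
noncomputable def ZI {ι : Type} (I : Finset ι) (n : ι → ℕ) (w : ι → ℝ) (r : ℕ) : ℝ :=
  ∑ χ ∈ prims r, ‖∑ i ∈ I, (w i : ℂ) * χ (n i : ZMod r)‖

/-- The sum over the nonempty subsets of `P` with product at most `Q`. -/
noncomputable def E1 (P : Finset ℕ) (Q : ℝ) (Z : ℕ → ℝ) : ℝ :=
  ∑ T ∈ (P.powerset.erase ∅).filter (fun T => ((∏ p ∈ T, p : ℕ) : ℝ) ≤ Q),
    (∏ p ∈ T, 4 / (p : ℝ)) * Z (∏ p ∈ T, p)

/-- The sum over the subsets of `Pm ∪ Pr` which meet `Pr`, with product at most `Q`. -/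
noncomputable def E2 (Pm Pr : Finset ℕ) (Q : ℝ) (Z : ℕ → ℝ) : ℝ :=
  ∑ T ∈ (Pm ∪ Pr).powerset.filter (fun T => ¬ Disjoint T Pr ∧ ((∏ p ∈ T, p : ℕ) : ℝ) ≤ Q),
    (∏ p ∈ T, 4 / (p : ℝ)) * Z (∏ p ∈ T, p)

/-- The index set: a tuple of `2 k` elements of `Bs` and an element of `Qs`. -/
def famI (k : ℕ) (Bs Qs : Finset ℕ) : Finset ((Fin (2 * k) → ℕ) × ℕ) :=
  (Fintype.piFinset fun _ => Bs) ×ˢ Qs

/-- The point `m0 t_1 ... t_(2k) q`. -/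
def pt (m0 k : ℕ) (z : (Fin (2 * k) → ℕ) × ℕ) : ℕ := m0 * (∏ i, z.1 i) * z.2

/-- The sum over the primitive characters modulo `r` of `|∑_{t ∈ Bs} χ(t)|^(2 k)`. -/
noncomputable def ZB (k : ℕ) (Bs : Finset ℕ) (r : ℕ) : ℝ :=
  ∑ χ ∈ prims r, ‖∑ t ∈ Bs, χ (t : ZMod r)‖ ^ (2 * k)

/-- The primes of `(X, 2 X]`. -/
def PX (X : ℕ) : Finset ℕ := clp X (2 * X) 1 0

end Pool.MP42e49e.ER
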