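import Pool.Agent.H.MP_42e49e_nt.ER.ExpA

/-!
# ER: expansion of a product of two sieve sums into primitive characters
-/

set_option autoImplicit false

namespace Pool.MP42e49e.ER

open Finset Pool.Agent.H.MP_711652_nt.CH

/-- The coefficient of `T'` after the expansion `f = g + (f - g)`. -/
noncomputable def lt (P : Finset ℕ) (l : Finset ℕ → ℝ) (g : ℕ → ℝ) (T' : Finset ℕ) : ℝ :=
  ∑ T ∈ P.powerset.filter (fun T => T' ⊆ T), l T * ∏ p ∈ T \ T', g p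

/-- PROOF. `∏_T f = ∏_T (g + (f - g)) = ∑_{T' ⊆ T} ∏_{T'} (f - g) ∏_{T \ T'} g` (`Finset.prod_add`), exchange the sums. -/
theorem sw_expand (P : Finset ℕ) (l : Finset ℕ → ℝ) (f g : ℕ → ℝ) :
    sw l f P = ∑ T' ∈ P.powerset, lt P l g T' * ∏ p ∈ T', (f p - g p) := by
  have h1 : ∀ T : Finset ℕ, ∏ p ∈ T, f p =
      ∑ T' ∈ T.powerset, (∏ p ∈ T', (f p - g p)) * ∏ p ∈ T \ T', g p := by
    intro T
    rw [← Finset.prod_add]
    exact Finset.prod_congr rfl fun p _ => by ring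
  unfold sw lt
  simp_rw [h1, Finset.mul_sum, Finset.sum_mul]
  rw [Finset.sum_comm' (t' := P.powerset) (s' := fun T' => P.powerset.filter (fun T => T' ⊆ T))]
  · refine Finset.sum_congr rfl fun T' _ => Finset.sum_congr rfl fun T _ => ?_
    ring
  · intro T T'
    simp only [Finset.mem_powerset, Finset.mem_filter]
    constructor
    · rintro ⟨h2, h3⟩
      exact ⟨⟨h2, h3⟩, h3.trans h2⟩
    · rintro ⟨⟨h2, h3⟩, -⟩
      exact ⟨h2, h3⟩

theorem lt_empty (P : Finset ℕ) (l : Finset ℕ → ℝ) (g : ℕ → ℝ) : lt P l g ∅ = sw l g P := by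
  unfold lt sw
  rw [Finset.filter_true_of_mem (fun T _ => Finset.empty_subset T)]
  exact Finset.sum_congr rfl fun T _ => by rw [Finset.sdiff_empty]

theorem exp_g1_nonneg {p : ℕ} (hp : p.Prime) : 0 ≤ g1 p := by
  have h2 : (2 : ℝ) ≤ p := by exact_mod_cast hp.two_le
  unfold g1
  exact div_nonneg zero_le_one (by linarith)

theorem exp_EP_nonneg (P : Finset ℕ) (hP : ∀ p ∈ P, p.Prime) : 0 ≤ EP P :=
  Finset.prod_nonneg fun p hp => by linarith [exp_g1_nonneg (hP p hp)]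

/-- PROOF. `∑_{T' ⊆ T ⊆ P} ∏_{T \ T'} g1 = ∏_{P \ T'} (1 + g1) ≤ EP P`. -/
theorem lt_le (P : Finset ℕ) (l : Finset ℕ → ℝ) (hP : ∀ p ∈ P, p.Prime) (hl : ∀ T, |l T| ≤ 1)
    (T' : Finset ℕ) (hT' : T' ⊆ P) : |lt P l g1 T'| ≤ EP P := by
  have hnn : ∀ S : Finset ℕ, S ⊆ P → 0 ≤ ∏ p ∈ S, g1 p := fun S hS =>
    Finset.prod_nonneg fun p hp => exp_g1_nonneg (hP p (hS hp))
  have h1 : |lt P l g1 T'| ≤
      ∑ T ∈ P.powerset.filter (fun T => T' ⊆ T), ∏ p ∈ T \ T', g1 p := by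
    unfold lt
    refine (Finset.abs_sum_le_sum_abs _ _).trans (Finset.sum_le_sum fun T hT => ?_)
    have h2 : T ⊆ P := Finset.mem_powerset.1 (Finset.mem_filter.1 hT).1
    rw [abs_mul, abs_of_nonneg (hnn (T \ T') (Finset.sdiff_subset.trans h2))]
    calc |l T| * ∏ p ∈ T \ T', g1 p ≤ 1 * ∏ p ∈ T \ T', g1 p :=
          mul_le_mul_of_nonneg_right (hl T) (hnn _ (Finset.sdiff_subset.trans h2))
      _ = _ := one_mul _
  refine h1.trans ?_
  have h3 : EP P = ∑ S ∈ P.powerset, ∏ p ∈ S, g1 p := by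
    unfold EP
    exact Finset.prod_one_add _
  rw [h3, ← Finset.sum_image (s := P.powerset.filter (fun T => T' ⊆ T))
    (g := fun T => T \ T') (f := fun S => ∏ p ∈ S, g1 p)]
  · refine Finset.sum_le_sum_of_subset_of_nonneg ?_ fun S hS _ => hnn S (Finset.mem_powerset.1 hS)
    intro S hS
    obtain ⟨T, hT, rfl⟩ := Finset.mem_image.1 hS
    rw [Finset.mem_powerset]
    exact Finset.sdiff_subset.trans (Finset.mem_powerset.1 (Finset.mem_filter.1 hT).1)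
  · intro T1 h1 T2 h2 h12
    have e1 : T' ⊆ T1 := (Finset.mem_filter.1 (Finset.mem_coe.1 h1)).2
    have e2 : T' ⊆ T2 := (Finset.mem_filter.1 (Finset.mem_coe.1 h2)).2
    rw [← Finset.sdiff_union_of_subset e1, ← Finset.sdiff_union_of_subset e2]
    exact congrArg (· ∪ T') h12

/-- PROOF. If `lt P l g T' ≠ 0` there is a `T ⊇ T'` with `l T ≠ 0`, and `∏ T' ≤ ∏ T`. -/
theorem lt_level (P : Finset ℕ) (l : Finset ℕ → ℝ) (g : ℕ → ℝ) (hP : ∀ p ∈ P, p.Prime) (Q : ℝ)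
    (hQ : ∀ T, T ⊆ P → l T ≠ 0 → ((∏ p ∈ T, p : ℕ) : ℝ) ≤ Q) (T' : Finset ℕ)
    (h : lt P l g T' ≠ 0) : ((∏ p ∈ T', p : ℕ) : ℝ) ≤ Q := by
  obtain ⟨T, hT, h1⟩ := Finset.exists_ne_zero_of_sum_ne_zero h
  obtain ⟨h2, h3⟩ := Finset.mem_filter.1 hT
  have h4 : T ⊆ P := Finset.mem_powerset.1 h2
  refine le_trans ?_ (hQ T h4 (left_ne_zero_of_mul h1))
  exact_mod_cast Finset.prod_le_prod_of_subset_of_one_le' h3
    fun p hp _ => (hP p (h4 hp)).one_le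

theorem exp_ZI_nonneg {ι : Type} (I : Finset ι) (n : ι → ℕ) (w : ι → ℝ) (r : ℕ) :
    0 ≤ ZI I n w r := Finset.sum_nonneg fun _ _ => norm_nonneg _

/-- the sum over the pairs is at most the sum over the unions -/
theorem exp_pairs (Pm Pr : Finset ℕ) (hd : Disjoint Pm Pr) (Q : ℝ) (F : Finset ℕ → ℝ)
    (hF : ∀ T, 0 ≤ F T) :
    ∑ T1 ∈ Pm.powerset, ∑ T2 ∈ Pr.powerset.erase ∅,
        (if ((∏ p ∈ T1 ∪ T2, p : ℕ) : ℝ) ≤ Q then F (T1 ∪ T2) else 0) ≤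
      ∑ T ∈ (Pm ∪ Pr).powerset.filter
        (fun T => ¬ Disjoint T Pr ∧ ((∏ p ∈ T, p : ℕ) : ℝ) ≤ Q), F T := by
  rw [← Finset.sum_product' (s := Pm.powerset) (t := Pr.powerset.erase ∅)
    (f := fun T1 T2 => if ((∏ p ∈ T1 ∪ T2, p : ℕ) : ℝ) ≤ Q then F (T1 ∪ T2) else 0)]
  rw [← Finset.sum_image (s := Pm.powerset ×ˢ Pr.powerset.erase ∅)
    (g := fun z : Finset ℕ × Finset ℕ => z.1 ∪ z.2)
    (f := fun T => if ((∏ p ∈ T, p : ℕ) : ℝ) ≤ Q then F T else 0)]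
  · rw [← Finset.sum_filter]
    refine Finset.sum_le_sum_of_subset_of_nonneg ?_ fun T _ _ => hF T
    intro T hT
    obtain ⟨h1, h2⟩ := Finset.mem_filter.1 hT
    obtain ⟨z, hz, rfl⟩ := Finset.mem_image.1 h1
    rw [Finset.mem_product, Finset.mem_powerset, Finset.mem_erase, Finset.mem_powerset] at hz
    rw [Finset.mem_filter, Finset.mem_powerset]
    refine ⟨Finset.union_subset_union hz.1 hz.2.2, ?_, h2⟩
    intro h3
    obtain ⟨q, hq⟩ := Finset.nonempty_iff_ne_empty.2 hz.2.1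
    exact (Finset.disjoint_left.1 h3) (Finset.mem_union_right _ hq) (hz.2.2 hq)
  · intro z hz z' hz' h
    rw [Finset.mem_coe, Finset.mem_product, Finset.mem_powerset, Finset.mem_erase,
      Finset.mem_powerset] at hz hz'
    have key : ∀ z : Finset ℕ × Finset ℕ, z.1 ⊆ Pm → z.2 ⊆ Pr →
        (z.1 ∪ z.2) ∩ Pm = z.1 ∧ (z.1 ∪ z.2) ∩ Pr = z.2 := by
      intro z h1 h2
      constructor
      · ext q
        simp only [Finset.mem_inter, Finset.mem_union]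
        constructor
        · rintro ⟨h3 | h3, h4⟩
          · exact h3
          · exact absurd (h2 h3) (Finset.disjoint_left.1 hd h4)
        · intro h3
          exact ⟨Or.inl h3, h1 h3⟩
      · ext q
        simp only [Finset.mem_inter, Finset.mem_union]
        constructor
        · rintro ⟨h3 | h3, h4⟩
          · exact absurd h4 (Finset.disjoint_left.1 hd (h1 h3))
          · exact h3
        · intro h3
          exact ⟨Or.inr h3, h2 h3⟩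
    have h1 := key z hz.1 hz.2.2
    have h2 := key z' hz'.1 hz'.2.2
    simp only at h
    rw [h] at h1
    exact Prod.ext (h1.1.symm.trans h2.1) (h1.2.symm.trans h2.2)

/-- PROOF. Insert `sw_expand` for both sums, so the left sum is
`∑_{T1 ⊆ Pm} ∑_{T2 ⊆ Pr} lt Pm lm g1 T1 * lt Pr lr g1 T2 * ∑_i w i ∏_{T1 ∪ T2} (ind - g1)`.  The term `T1 = T2 = ∅` is the main term (`lt_empty`).
The terms `T2 = ∅`, `T1 ≠ ∅` give the first error (`one_expand`, `lt_le`, `lt_level`), the terms `T2 ≠ ∅` the second (`T = T1 ∪ T2`, injective, meets `Pr`,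
product `≤ Qm * Qr`; `ZI ≥ 0`). -/
theorem two_expand {ι : Type} (I : Finset ι) (n : ι → ℕ) (w : ι → ℝ) (Pm Pr : Finset ℕ)
    (u : ℕ → ℕ) (hP : ∀ p ∈ Pm ∪ Pr, p.Prime) (hd : Disjoint Pm Pr)
    (hu : ∀ p ∈ Pm ∪ Pr, ¬ p ∣ u p) (hn : ∀ i ∈ I, ∀ p ∈ Pm ∪ Pr, ¬ p ∣ n i)
    (lm lr : Finset ℕ → ℝ) (hlm : ∀ T, |lm T| ≤ 1) (hlr : ∀ T, |lr T| ≤ 1) (Qm Qr : ℝ)
    (hQm0 : 0 ≤ Qm) (hQr0 : 0 ≤ Qr)
    (hQm : ∀ T, T ⊆ Pm → lm T ≠ 0 → ((∏ p ∈ T, p : ℕ) : ℝ) ≤ Qm)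
    (hQr : ∀ T, T ⊆ Pr → lr T ≠ 0 → ((∏ p ∈ T, p : ℕ) : ℝ) ≤ Qr) :
    |∑ i ∈ I, w i * (sw lm (fun p => ind u p (n i)) Pm * sw lr (fun p => ind u p (n i)) Pr) -
        sw lm g1 Pm * sw lr g1 Pr * ∑ i ∈ I, w i| ≤
      |sw lr g1 Pr| * EP Pm * E1 Pm Qm (ZI I n w) + EP Pm * EP Pr * E2 Pm Pr (Qm * Qr) (ZI I n w) := by
  classical
  have hPm : ∀ p ∈ Pm, p.Prime := fun p hp => hP p (Finset.mem_union_left _ hp)
  have hPr : ∀ p ∈ Pr, p.Prime := fun p hp => hP p (Finset.mem_union_right _ hp)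
  set A : Finset ℕ → ℝ := lt Pm lm g1 with hA
  set B : Finset ℕ → ℝ := lt Pr lr g1 with hB
  set S : Finset ℕ → ℝ := fun T => ∑ i ∈ I, w i * ∏ p ∈ T, (ind u p (n i) - g1 p) with hS
  set X : Finset ℕ → ℝ := fun T => (∏ p ∈ T, 4 / (p : ℝ)) * ZI I n w (∏ p ∈ T, p) with hX
  have hX0 : ∀ T, 0 ≤ X T := fun T =>
    mul_nonneg (Finset.prod_nonneg fun p _ => by positivity) (exp_ZI_nonneg _ _ _ _)
  have hSX : ∀ T : Finset ℕ, T ⊆ Pm ∪ Pr → |S T| ≤ X T := fun T hT =>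
    one_expand I n w T u (fun p hp => hP p (hT hp)) (fun p hp => hu p (hT hp))
      (fun i hi p hp => hn i hi p (hT hp))
  have hEm := exp_EP_nonneg Pm hPm
  have hEr := exp_EP_nonneg Pr hPr
  -- the double expansion
  have h0 : ∑ i ∈ I, w i * (sw lm (fun p => ind u p (n i)) Pm *
      sw lr (fun p => ind u p (n i)) Pr) =
      ∑ T1 ∈ Pm.powerset, ∑ T2 ∈ Pr.powerset, A T1 * B T2 * S (T1 ∪ T2) := by
    have e1 : ∀ i ∈ I, w i * (sw lm (fun p => ind u p (n i)) Pm *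
        sw lr (fun p => ind u p (n i)) Pr) =
        ∑ T1 ∈ Pm.powerset, ∑ T2 ∈ Pr.powerset,
          A T1 * B T2 * (w i * ∏ p ∈ T1 ∪ T2, (ind u p (n i) - g1 p)) := by
      intro i _
      rw [sw_expand Pm lm (fun p => ind u p (n i)) g1, sw_expand Pr lr (fun p => ind u p (n i)) g1,
        Finset.sum_mul_sum, Finset.mul_sum]
      refine Finset.sum_congr rfl fun T1 h1 => ?_
      rw [Finset.mul_sum]
      refine Finset.sum_congr rfl fun T2 h2 => ?_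
      have h3 : Disjoint T1 T2 :=
        Finset.disjoint_of_subset_left (Finset.mem_powerset.1 h1)
          (Finset.disjoint_of_subset_right (Finset.mem_powerset.1 h2) hd)
      rw [Finset.prod_union h3]
      ring
    rw [Finset.sum_congr rfl e1, Finset.sum_comm]
    refine Finset.sum_congr rfl fun T1 _ => ?_
    rw [Finset.sum_comm]
    refine Finset.sum_congr rfl fun T2 _ => ?_
    rw [hS, Finset.mul_sum]
  have hS0 : S ∅ = ∑ i ∈ I, w i := by simp [hS]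
  have hA0 : A ∅ = sw lm g1 Pm := lt_empty _ _ _
  have hB0 : B ∅ = sw lr g1 Pr := lt_empty _ _ _
  have h1 : ∑ T1 ∈ Pm.powerset, ∑ T2 ∈ Pr.powerset, A T1 * B T2 * S (T1 ∪ T2) =
      A ∅ * B ∅ * S ∅ + ∑ T1 ∈ Pm.powerset.erase ∅, A T1 * B ∅ * S T1 +
        ∑ T1 ∈ Pm.powerset, ∑ T2 ∈ Pr.powerset.erase ∅, A T1 * B T2 * S (T1 ∪ T2) := by
    have e1 : ∀ T1 ∈ Pm.powerset, ∑ T2 ∈ Pr.powerset, A T1 * B T2 * S (T1 ∪ T2) =
        A T1 * B ∅ * S T1 + ∑ T2 ∈ Pr.powerset.erase ∅, A T1 * B T2 * S (T1 ∪ T2) := by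
      intro T1 _
      rw [← Finset.add_sum_erase _ _ (Finset.empty_mem_powerset Pr), Finset.union_empty]
    rw [Finset.sum_congr rfl e1, Finset.sum_add_distrib,
      ← Finset.add_sum_erase _ (fun T1 => A T1 * B ∅ * S T1) (Finset.empty_mem_powerset Pm)]
  have h2 : |∑ T1 ∈ Pm.powerset.erase ∅, A T1 * B ∅ * S T1| ≤
      |sw lr g1 Pr| * EP Pm * E1 Pm Qm (ZI I n w) := by
    refine (Finset.abs_sum_le_sum_abs _ _).trans ?_
    unfold E1
    rw [Finset.sum_filter, Finset.mul_sum]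
    refine Finset.sum_le_sum fun T1 hT1 => ?_
    have h3 : T1 ⊆ Pm := Finset.mem_powerset.1 (Finset.mem_of_mem_erase hT1)
    rw [abs_mul, abs_mul, hB0]
    split_ifs with h4
    · calc |A T1| * |sw lr g1 Pr| * |S T1| ≤ EP Pm * |sw lr g1 Pr| * X T1 := by
            refine mul_le_mul ?_ (hSX T1 (h3.trans Finset.subset_union_left)) (abs_nonneg _)
              (mul_nonneg hEm (abs_nonneg _))
            exact mul_le_mul_of_nonneg_right (lt_le Pm lm hPm hlm T1 h3) (abs_nonneg _)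
        _ = |sw lr g1 Pr| * EP Pm * X T1 := by ring
    · have h5 : A T1 = 0 := by
        by_contra h6
        exact h4 (lt_level Pm lm g1 hPm Qm hQm T1 h6)
      rw [h5]
      simp
  have h3 : |∑ T1 ∈ Pm.powerset, ∑ T2 ∈ Pr.powerset.erase ∅, A T1 * B T2 * S (T1 ∪ T2)| ≤
      EP Pm * EP Pr * E2 Pm Pr (Qm * Qr) (ZI I n w) := by
    have e1 : |∑ T1 ∈ Pm.powerset, ∑ T2 ∈ Pr.powerset.erase ∅, A T1 * B T2 * S (T1 ∪ T2)| ≤
        EP Pm * EP Pr * ∑ T1 ∈ Pm.powerset, ∑ T2 ∈ Pr.powerset.erase ∅,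
          (if ((∏ p ∈ T1 ∪ T2, p : ℕ) : ℝ) ≤ Qm * Qr then X (T1 ∪ T2) else 0) := by
      refine (Finset.abs_sum_le_sum_abs _ _).trans ?_
      rw [Finset.mul_sum]
      refine Finset.sum_le_sum fun T1 hT1 => ?_
      refine (Finset.abs_sum_le_sum_abs _ _).trans ?_
      rw [Finset.mul_sum]
      refine Finset.sum_le_sum fun T2 hT2 => ?_
      have a1 : T1 ⊆ Pm := Finset.mem_powerset.1 hT1
      have a2 : T2 ⊆ Pr := Finset.mem_powerset.1 (Finset.mem_of_mem_erase hT2)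
      have a3 : Disjoint T1 T2 :=
        Finset.disjoint_of_subset_left a1 (Finset.disjoint_of_subset_right a2 hd)
      rw [abs_mul, abs_mul]
      split_ifs with h4
      · refine mul_le_mul ?_ (hSX _ (Finset.union_subset_union a1 a2)) (abs_nonneg _)
          (mul_nonneg hEm hEr)
        exact mul_le_mul (lt_le Pm lm hPm hlm T1 a1) (lt_le Pr lr hPr hlr T2 a2) (abs_nonneg _) hEm
      · have h5 : A T1 = 0 ∨ B T2 = 0 := by
          by_contra h6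
          rw [not_or] at h6
          have b1 := lt_level Pm lm g1 hPm Qm hQm T1 h6.1
          have b2 := lt_level Pr lr g1 hPr Qr hQr T2 h6.2
          apply h4
          rw [Finset.prod_union a3]
          push_cast at b1 b2 ⊢
          exact mul_le_mul b1 b2 (by positivity) hQm0
        rcases h5 with h5 | h5 <;> rw [h5] <;> simp
    refine e1.trans (mul_le_mul_of_nonneg_left ?_ (mul_nonneg hEm hEr))
    exact exp_pairs Pm Pr hd (Qm * Qr) X hX0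
  rw [h0, h1, hS0, hA0]
  have h4 : sw lm g1 Pm * B ∅ * ∑ i ∈ I, w i +
      ∑ T1 ∈ Pm.powerset.erase ∅, A T1 * B ∅ * S T1 +
        ∑ T1 ∈ Pm.powerset, ∑ T2 ∈ Pr.powerset.erase ∅, A T1 * B T2 * S (T1 ∪ T2) -
      sw lm g1 Pm * sw lr g1 Pr * ∑ i ∈ I, w i =
      ∑ T1 ∈ Pm.powerset.erase ∅, A T1 * B ∅ * S T1 +
        ∑ T1 ∈ Pm.powerset, ∑ T2 ∈ Pr.powerset.erase ∅, A T1 * B T2 * S (T1 ∪ T2) := by
    rw [hB0]; ring
  rw [h4]
  exact (abs_add_le _ _).trans (add_le_add h2 h3)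

end Pool.MP42e49e.ER
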