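import Pool.Agent.H.MP_42e49e_nt.ER.Defs
import Pool.Agent.H.MP_711652_nt.CH.ExpF

/-!
# ER: expansion of one product into primitive characters
-/

set_option autoImplicit false

namespace Pool.MP42e49e.ER

open Finset Pool.Agent.H.MP_711652_nt.CH

private theorem expA_ind {u : ℕ → ℕ} {p x : ℕ} (hx : x < p) :
    ind u p x = if x = u p % p then 1 else 0 := by
  unfold ind
  refine if_congr ?_ rfl rfl
  unfold Nat.ModEq
  rw [Nat.mod_eq_of_lt hx]

private theorem expA_sum {u : ℕ → ℕ} {p : ℕ} (hp : p.Prime) (hu : ¬ p ∣ u p) :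
    ∑ x ∈ Ico 1 p, ind u p x = 1 := by
  rw [Finset.sum_congr rfl fun x hx => expA_ind (Finset.mem_Ico.1 hx).2, Finset.sum_ite_eq',
    if_pos]
  rw [Finset.mem_Ico]
  refine ⟨?_, Nat.mod_lt _ hp.pos⟩
  rw [Nat.one_le_iff_ne_zero]
  exact fun h => hu (Nat.dvd_of_mod_eq_zero h)

private theorem expA_g1 {p : ℕ} (hp : p.Prime) : ∑ _x ∈ Ico 1 p, g1 p = 1 := by
  have h1 : (0 : ℝ) < (p : ℝ) - 1 := by
    have : (1 : ℝ) < p := by exact_mod_cast hp.one_lt
    linarith
  rw [Finset.sum_const, Nat.card_Ico, nsmul_eq_mul, Nat.cast_sub hp.one_lt.le, Nat.cast_one, g1,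
    mul_one_div, div_self h1.ne']

private theorem expA_g1_nonneg {p : ℕ} (hp : p.Prime) : 0 ≤ g1 p := by
  have h1 : (1 : ℝ) < p := by exact_mod_cast hp.one_lt
  unfold g1
  exact div_nonneg zero_le_one (by linarith)

private theorem expA_ind_nonneg (u : ℕ → ℕ) (p x : ℕ) : 0 ≤ ind u p x := by
  unfold ind
  split_ifs
  · exact zero_le_one
  · exact le_rfl

private theorem expA_abs {u : ℕ → ℕ} {p : ℕ} (hp : p.Prime) (hu : ¬ p ∣ u p) :
    ∑ x ∈ Ico 1 p, |ind u p x - g1 p| ≤ 2 := by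
  have h1 : ∑ x ∈ Ico 1 p, |ind u p x - g1 p| ≤ ∑ x ∈ Ico 1 p, (ind u p x + g1 p) := by
    refine Finset.sum_le_sum fun x _ => ?_
    refine (abs_sub _ _).trans ?_
    rw [abs_of_nonneg (expA_ind_nonneg u p x), abs_of_nonneg (expA_g1_nonneg hp)]
  refine h1.trans ?_
  rw [Finset.sum_add_distrib, expA_sum hp hu, expA_g1 hp]
  norm_num

/-- `exp_one` for an indexed family.

PROOF. `exp_one` (CH/ExpF) with `S = I.image n`, `θ x = ∑_{i ∈ I, n i = x} w i` (`Finset.sum_fiberwise_of_maps_to`), `g p x = ind u p x - g1 p`: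
the mean over `Ico 1 p` vanishes (exactly one `x ∈ Ico 1 p` is congruent to `u p`, as `p ∤ u p`), `∑_{Ico 1 p} |g p x| ≤ 2` and `2 / (p - 1) ≤ 4 / p`. -/
theorem one_expand {ι : Type} (I : Finset ι) (n : ι → ℕ) (w : ι → ℝ) (T : Finset ℕ) (u : ℕ → ℕ)
    (hT : ∀ p ∈ T, p.Prime) (hu : ∀ p ∈ T, ¬ p ∣ u p) (hn : ∀ i ∈ I, ∀ p ∈ T, ¬ p ∣ n i) :
    |∑ i ∈ I, w i * ∏ p ∈ T, (ind u p (n i) - g1 p)| ≤
      (∏ p ∈ T, 4 / (p : ℝ)) * ZI I n w (∏ p ∈ T, p) := by
  classical
  have hk : ∀ f : ℕ → ℂ, ∑ x ∈ I.image n, ((∑ i ∈ I with n i = x, w i : ℝ) : ℂ) * f x =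
      ∑ i ∈ I, (w i : ℂ) * f (n i) := by
    intro f
    rw [← Finset.sum_fiberwise_of_maps_to (s := I) (t := I.image n) (g := n)
      (fun i hi => Finset.mem_image_of_mem n hi) (fun i => (w i : ℂ) * f (n i))]
    refine Finset.sum_congr rfl fun x _ => ?_
    rw [Complex.ofReal_sum, Finset.sum_mul]
    refine Finset.sum_congr rfl fun i hi => ?_
    rw [(Finset.mem_filter.1 hi).2]
  have hk' : ∑ x ∈ I.image n, (∑ i ∈ I with n i = x, w i) * ∏ p ∈ T, (ind u p x - g1 p) =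
      ∑ i ∈ I, w i * ∏ p ∈ T, (ind u p (n i) - g1 p) := by
    rw [← Finset.sum_fiberwise_of_maps_to (s := I) (t := I.image n) (g := n)
      (fun i hi => Finset.mem_image_of_mem n hi) (fun i => w i * ∏ p ∈ T, (ind u p (n i) - g1 p))]
    refine Finset.sum_congr rfl fun x _ => ?_
    rw [Finset.sum_mul]
    refine Finset.sum_congr rfl fun i hi => ?_
    rw [(Finset.mem_filter.1 hi).2]
  have hmain := exp_one T hT (fun p x => ind u p x - g1 p)
    (fun p _ x => by
      have h1 : ind u p (x + p) = ind u p x := by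
        unfold ind
        refine if_congr ?_ rfl rfl
        unfold Nat.ModEq
        rw [Nat.add_mod_right]
      simp only [h1])
    (fun p hp => by
      rw [Finset.sum_sub_distrib, expA_sum (hT p hp) (hu p hp), expA_g1 (hT p hp), sub_self])
    (I.image n) (fun x hx p hp => by
      obtain ⟨i, hi, rfl⟩ := Finset.mem_image.1 hx
      exact hn i hi p hp) (fun x => ∑ i ∈ I with n i = x, w i)
  rw [hk'] at hmain
  have hZ : Zs (I.image n) (fun x => ∑ i ∈ I with n i = x, w i) (∏ p ∈ T, p) =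
      ZI I n w (∏ p ∈ T, p) := by
    unfold Zs ZI
    refine Finset.sum_congr rfl fun χ _ => ?_
    rw [hk fun x => χ (x : ZMod (∏ p ∈ T, p))]
  rw [hZ] at hmain
  refine hmain.trans (mul_le_mul_of_nonneg_right ?_ ?_)
  · refine Finset.prod_le_prod (fun p hp => ?_) fun p hp => ?_
    · have h1 : (1 : ℝ) < p := by exact_mod_cast (hT p hp).one_lt
      exact div_nonneg (Finset.sum_nonneg fun _ _ => abs_nonneg _) (by linarith)
    · have h1 : (2 : ℝ) ≤ p := by exact_mod_cast (hT p hp).two_le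
      have h2 := expA_abs (hT p hp) (hu p hp)
      rw [div_le_div_iff₀ (by linarith) (by linarith)]
      nlinarith
  · unfold ZI
    exact Finset.sum_nonneg fun _ _ => norm_nonneg _

end Pool.MP42e49e.ER
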