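import Pool.Agent.H.MP_42e49e_nt.ER.Shift

/-!
# ER: the general form
-/

set_option autoImplicit false

namespace Pool.MP42e49e.ER

open Finset

theorem MS_mono {a : ℕ → ℕ} {b x : ℕ} {z z' : ℝ} (h : z ≤ z') : MS a b z' x ⊆ MS a b z x := by
  intro p hp
  rw [mem_MS] at hp ⊢
  exact ⟨hp.1, lt_of_le_of_lt h hp.2.1, hp.2.2⟩

/-- rounding `z` up -/
theorem ceil_log {z : ℝ} (hz0 : 0 < z) (hz : 1 ≤ Real.log z) :
    Real.log z ≤ Real.log (⌈z⌉₊ : ℕ) ∧ Real.log (⌈z⌉₊ : ℕ) ≤ 2 * Real.log z := by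
  have hc0 := Nat.le_ceil z
  have hc : (⌈z⌉₊ : ℝ) ≤ z + 1 := (Nat.ceil_lt_add_one hz0.le).le
  have h2 : 2 ≤ z := by
    have h3 := Real.add_one_le_exp (1 : ℝ)
    have h4 := (Real.le_log_iff_exp_le hz0).1 hz
    linarith
  refine ⟨Real.log_le_log hz0 hc0, ?_⟩
  have h3 : (⌈z⌉₊ : ℝ) ≤ z * z := by nlinarith
  have h4 := Real.log_le_log (by linarith) h3
  rw [Real.log_mul hz0.ne' hz0.ne'] at h4
  linarith

/-- comparing the summands -/
theorem summand_le {s s' h h' : ℝ} (hs : 0 ≤ s) (hs' : s' ≤ 2 * s) (h0 : 0 < h)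
    (h1 : h / 2 ≤ h') (h2 : h' ≤ h) : (s' + h') / h' ^ 2 ≤ 8 * ((s + h) / h ^ 2) := by
  have h3 : 0 < h' := by linarith
  have h4 : (h / 2) ^ 2 ≤ h' ^ 2 := pow_le_pow_left₀ (by linarith) h1 2
  rw [← mul_div_assoc, div_le_div_iff₀ (by positivity) (by positivity)]
  have h5 : (s' + h') * h ^ 2 ≤ (2 * (s + h)) * h ^ 2 :=
    mul_le_mul_of_nonneg_right (by linarith) (by positivity)
  have h6 : (2 * (s + h)) * h ^ 2 ≤ (2 * (s + h)) * (4 * h' ^ 2) :=
    mul_le_mul_of_nonneg_left (by nlinarith) (by linarith)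
  linarith

theorem log3_le : Real.log 3 ≤ 1.1 := by
  rw [Real.log_le_iff_le_exp (by norm_num)]
  have h := Real.sum_le_exp_of_nonneg (x := 1.1) (by norm_num) 7
  refine le_trans ?_ h
  norm_num [Finset.sum_range_succ, Nat.factorial]

theorem half_log {y p : ℕ} (hy : 3 ≤ y) (hp : 0 < p) :
    Real.log ((y : ℝ) / p) - 1.1 ≤ Real.log (((y / 2 : ℕ) : ℝ) / p) ∧
      Real.log (((y / 2 : ℕ) : ℝ) / p) ≤ Real.log ((y : ℝ) / p) := by
  have hp0 : (0 : ℝ) < p := by exact_mod_cast hp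
  have hy0 : (3 : ℝ) ≤ y := by exact_mod_cast hy
  have h1 : y ≤ 2 * (y / 2) + 1 := by omega
  have h2 : (y : ℝ) ≤ 2 * ((y / 2 : ℕ) : ℝ) + 1 := by exact_mod_cast h1
  have h3 : (y : ℝ) / 3 ≤ ((y / 2 : ℕ) : ℝ) := by linarith
  have h4 : ((y / 2 : ℕ) : ℝ) ≤ y := by exact_mod_cast Nat.div_le_self y 2
  have h5 : (0 : ℝ) < ((y / 2 : ℕ) : ℝ) := by linarith
  rw [Real.log_div (by positivity) hp0.ne', Real.log_div h5.ne' hp0.ne']
  have h6 := Real.log_le_log (by positivity) h3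
  rw [Real.log_div (by positivity) (by norm_num)] at h6
  have h7 := Real.log_le_log h5 h4
  have h8 := log3_le
  constructor <;> linarith

theorem sqrt2_le {s s' : ℝ} (hs : 0 ≤ s) (hs' : s' ≤ 2 * s) :
    4 * Real.sqrt s' ≤ 6 * Real.sqrt s := by
  have h1 : Real.sqrt s' ≤ Real.sqrt (2 * s) := Real.sqrt_le_sqrt hs'
  have h2 : Real.sqrt (2 * s) ≤ 3 / 2 * Real.sqrt s := by
    rw [Real.sqrt_le_left (by positivity), mul_pow, Real.sq_sqrt hs]
    nlinarith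
  linarith

theorem partA : ∃ c : ℝ, 0 < c ∧ ∃ x0 : ℕ, ∀ (x y b : ℕ) (z : ℝ) (a : ℕ → ℕ), x0 ≤ x →
    Real.exp (Real.sqrt (Real.log x)) ≤ z → z ≤ (x : ℝ) ^ c →
    x * Real.exp (Real.sqrt (Real.log z) / c) ≤ y → y ≤ x ^ 2 → b ≤ y →
    ∑ p ∈ MS a b z x, (Real.log z + Real.log ((y : ℝ) / p)) / (p * Real.log ((y : ℝ) / p) ^ 2) ≤
      c / Real.log x →
    ∃ n : ℕ, 1 ≤ n ∧ n ≤ y ∧ ∀ p : ℕ, p.Prime → p ≤ x → ¬ n ≡ a p [MOD p] := by
  obtain ⟨c0, hc0, x0, hcore⟩ := core_shift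
  obtain ⟨c, hc⟩ : ∃ c, c = min (c0 / 8) (1 / 24) := ⟨_, rfl⟩
  have hcp : 0 < c := by
    rw [hc]
    exact lt_min (by positivity) (by norm_num)
  have hc8 : 8 * c ≤ c0 := by
    have := min_le_left (c0 / 8) (1 / 24)
    rw [← hc] at this
    linarith
  have hc24 : c ≤ 1 / 24 := by
    rw [hc]
    exact min_le_right _ _
  refine ⟨c, hcp, max x0 3, fun x y b z a hx hz1 hz2 hy hyx hby hE => ?_⟩
  have hx3 : 3 ≤ x := (le_max_right _ _).trans hx
  have hx3' : (3 : ℝ) ≤ x := by exact_mod_cast hx3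
  have hx0 : (0 : ℝ) < x := by linarith
  have hL1 : 1 ≤ Real.log x := by
    rw [Real.le_log_iff_exp_le hx0]
    have := Real.exp_one_lt_d9
    linarith
  have hsq1 : 1 ≤ Real.sqrt (Real.log x) := by
    rw [Real.one_le_sqrt]
    exact hL1
  have hz0 : 0 < z := lt_of_lt_of_le (Real.exp_pos _) hz1
  have hlz : Real.sqrt (Real.log x) ≤ Real.log z := (Real.le_log_iff_exp_le hz0).2 hz1
  have hlz1 : 1 ≤ Real.log z := hsq1.trans hlz
  obtain ⟨g1, g2⟩ := ceil_log hz0 hlz1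
  have hlz2 : Real.log z ≤ c * Real.log x := by
    have := Real.log_le_log hz0 hz2
    rwa [Real.log_rpow hx0] at this
  have hs1 : 1 ≤ Real.sqrt (Real.log z) := by
    rw [Real.one_le_sqrt]
    exact hlz1
  have hy0 : (0 : ℝ) < y := lt_of_lt_of_le (by positivity) hy
  have hLy : 24 * Real.sqrt (Real.log z) ≤ Real.log ((y : ℝ) / x) := by
    have h1 : Real.sqrt (Real.log z) / c ≤ Real.log ((y : ℝ) / x) := by
      rw [Real.le_log_iff_exp_le (by positivity), le_div_iff₀ hx0]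
      linarith
    refine le_trans ?_ h1
    rw [le_div_iff₀ hcp]
    nlinarith
  have hyx' : x ≤ y := by
    have h1 : 1 ≤ Real.exp (Real.sqrt (Real.log z) / c) := Real.one_le_exp (by positivity)
    have h2 : (x : ℝ) ≤ y := by nlinarith
    exact_mod_cast h2
  have hy3 : 3 ≤ y := hx3.trans hyx'
  have hlogp : ∀ p : ℕ, 0 < p → p ≤ x → Real.log ((y : ℝ) / x) ≤ Real.log ((y : ℝ) / p) := by
    intro p hp hpx
    have hp0 : (0 : ℝ) < p := by exact_mod_cast hp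
    refine Real.log_le_log (by positivity) (div_le_div_of_nonneg_left hy0.le hp0 ?_)
    exact_mod_cast hpx
  refine hcore x y (y / 2) ⌈z⌉₊ b a ((le_max_left _ _).trans hx) hby (Nat.mul_div_le y 2)
    ((Nat.div_le_self y 2).trans hyx) (hlz.trans g1) ?_ ?_ ?_
  · nlinarith
  · have h1 := (half_log hy3 (by omega : 0 < x)).1
    have h2 := sqrt2_le (by linarith) g2
    linarith
  · have hsub : MS a b ((⌈z⌉₊ : ℕ) : ℝ) x ⊆ MS a b z x := MS_mono (Nat.le_ceil z)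
    have hterm : ∀ p ∈ MS a b ((⌈z⌉₊ : ℕ) : ℝ) x,
        (Real.log (⌈z⌉₊ : ℕ) + Real.log (((y / 2 : ℕ) : ℝ) / p)) /
          (p * Real.log (((y / 2 : ℕ) : ℝ) / p) ^ 2) ≤
        8 * ((Real.log z + Real.log ((y : ℝ) / p)) / (p * Real.log ((y : ℝ) / p) ^ 2)) := by
      intro p hp
      obtain ⟨h1, _, h3, _⟩ := mem_MS.1 hp
      have hp0 : (0 : ℝ) < p := by exact_mod_cast h1.pos
      obtain ⟨h4, h5⟩ := half_log hy3 h1.pos
      have h6 := hlogp p h1.pos h3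
      have h7 := summand_le (s := Real.log z) (s' := Real.log (⌈z⌉₊ : ℕ))
        (h := Real.log ((y : ℝ) / p)) (h' := Real.log (((y / 2 : ℕ) : ℝ) / p)) (by linarith) g2
        (by linarith) (by linarith) h5
      have h8 := div_le_div_of_nonneg_right h7 hp0.le
      have e1 : ∀ A B : ℝ, A / (p * B ^ 2) = A / B ^ 2 / p := by
        intro A B
        rw [div_div, mul_comm]
      rw [e1, e1, ← mul_div_assoc]
      exact h8
    refine (sum_le_sum hterm).trans ?_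
    rw [← mul_sum]
    have h9 : ∑ p ∈ MS a b ((⌈z⌉₊ : ℕ) : ℝ) x,
        (Real.log z + Real.log ((y : ℝ) / p)) / (p * Real.log ((y : ℝ) / p) ^ 2) ≤
        ∑ p ∈ MS a b z x,
        (Real.log z + Real.log ((y : ℝ) / p)) / (p * Real.log ((y : ℝ) / p) ^ 2) := by
      refine sum_le_sum_of_subset_of_nonneg hsub fun p hp _ => ?_
      obtain ⟨h1, _, h3, _⟩ := mem_MS.1 hp
      have h6 := hlogp p h1.pos h3
      have h10 : 0 ≤ Real.log ((y : ℝ) / p) := by linarith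
      positivity
    calc 8 * ∑ p ∈ MS a b ((⌈z⌉₊ : ℕ) : ℝ) x,
          (Real.log z + Real.log ((y : ℝ) / p)) / (p * Real.log ((y : ℝ) / p) ^ 2)
        ≤ 8 * (c / Real.log x) := by
          have := h9.trans hE
          linarith
      _ = 8 * c / Real.log x := by ring
      _ ≤ c0 / Real.log x := div_le_div_of_nonneg_right hc8 (by linarith)

end Pool.MP42e49e.ER
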