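import Pool.Agent.H.MP_42e49e_nt.ER.FinA

/-!
# ER: the Erdős-Rankin form and the form for almost all large primes
-/

set_option autoImplicit false

namespace Pool.MP42e49e.ER

open Finset

/-- the primes of `(x / K, x]` -/
theorem sum_top {x : ℕ} {K : ℝ} (hK : 2 ≤ K) (hKx : 4 * Real.log K ≤ Real.log x)
    (hx : 100 ≤ Real.log x) (P : Finset ℕ) (hP : ∀ p ∈ P, p.Prime ∧ p ≤ x ∧ (x : ℝ) < p * K) :
    ∑ p ∈ P, 1 / (p : ℝ) ≤ 40 * Real.log K / Real.log x := by
  have hx0 : (0 : ℝ) < x := by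
    rcases Nat.eq_zero_or_pos x with h | h
    · rw [h] at hx
      simp only [Nat.cast_zero, Real.log_zero] at hx
      linarith
    · exact_mod_cast h
  have hK0 : 0 < K := by linarith
  have hlK : 0.69 ≤ Real.log K := by
    have := Real.log_le_log (by norm_num) hK
    have := Real.log_two_gt_d9
    linarith
  obtain ⟨v, hv⟩ : ∃ v, v = ⌊(x : ℝ) / K⌋₊ := ⟨_, rfl⟩
  have hxK : 2 ≤ (x : ℝ) / K := by
    rw [le_div_iff₀ hK0, ← Real.log_le_log_iff (by positivity) hx0, Real.log_mul (by norm_num) hK0.ne']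
    have := Real.log_two_lt_d9
    linarith
  have h1 := Nat.lt_floor_add_one ((x : ℝ) / K)
  have h1' : (v : ℝ) ≤ (x : ℝ) / K := by rw [hv]; exact Nat.floor_le (by positivity)
  rw [← hv] at h1
  have hv1 : (x : ℝ) / (K * K) ≤ v := by
    have h2 : (x : ℝ) / (K * K) = (x : ℝ) / K / K := by rw [div_div]
    rw [h2]
    have h3 : (x : ℝ) / K / K ≤ (x : ℝ) / K / 2 :=
      div_le_div_of_nonneg_left (by positivity) (by norm_num) hK
    linarith
  have hv2 : 2 ≤ v := by
    rw [hv]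
    exact Nat.le_floor (by exact_mod_cast hxK)
  have hvx : v ≤ x := by
    have : (v : ℝ) ≤ x := h1'.trans (div_le_self hx0.le (by linarith))
    exact_mod_cast this
  have hv0 : (0 : ℝ) < v := by
    have : 0 < v := by omega
    exact_mod_cast this
  have hlv : Real.log x - 2 * Real.log K ≤ Real.log v := by
    have h2 := Real.log_le_log (by positivity) hv1
    rw [Real.log_div hx0.ne' (by positivity), Real.log_mul hK0.ne' hK0.ne'] at h2
    linarith
  have hlv2 : Real.log x / 2 ≤ Real.log v := by linarith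
  have hlv0 : 0 < Real.log v := by linarith
  have hlx0 : 0 < Real.log x := by linarith
  refine (sum_window v x hv2 hvx P fun p hp => ?_).trans ?_
  · obtain ⟨a1, a2, a3⟩ := hP p hp
    refine ⟨a1, ?_, a2⟩
    have h2 : (x : ℝ) / K < p := by
      rw [div_lt_iff₀ hK0]
      exact a3
    exact_mod_cast lt_of_le_of_lt h1' h2
  · have h2 : Real.log (Real.log x) - Real.log (Real.log v) ≤ 4 * Real.log K / Real.log x := by
      rw [← Real.log_div hlx0.ne' hlv0.ne']
      have h3 := Real.log_le_sub_one_of_pos (div_pos hlx0 hlv0)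
      have h4 : Real.log x / Real.log v - 1 = (Real.log x - Real.log v) / Real.log v := by
        field_simp
      have h5 : (Real.log x - Real.log v) / Real.log v ≤ (2 * Real.log K) / (Real.log x / 2) := by
        exact div_le_div₀ (by linarith) (by linarith) (by linarith) hlv2
      have h6 : (2 * Real.log K) / (Real.log x / 2) = 4 * Real.log K / Real.log x := by
        field_simp
        ring
      linarith
    have h3 : 12 / Real.log v ≤ 35 * Real.log K / Real.log x := by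
      rw [div_le_div_iff₀ hlv0 hlx0]
      nlinarith
    have h4 : 4 * Real.log K / Real.log x + 35 * Real.log K / Real.log x ≤
        40 * Real.log K / Real.log x := by
      rw [← add_div]
      exact div_le_div_of_nonneg_right (by linarith) hlx0.le
    linarith

/-- the summand is decreasing in `h` -/
theorem summand_anti {s h h' : ℝ} (hs : 0 ≤ s) (h0 : 0 < h) (h1 : h ≤ h') :
    (s + h') / h' ^ 2 ≤ (s + h) / h ^ 2 := by
  have h2 : 0 < h' := by linarith
  rw [div_le_div_iff₀ (by positivity) (by positivity)]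
  have h3 : s * h ^ 2 ≤ s * h' ^ 2 :=
    mul_le_mul_of_nonneg_left (pow_le_pow_left₀ h0.le h1 2) hs
  have h4 : h' * h ^ 2 ≤ h * h' ^ 2 := by nlinarith [mul_pos h0 h2]
  nlinarith

/-- the sum over a set of primes with a lower bound for `log (y1 / p)` -/
theorem sum_le_of_h {s h T : ℝ} (hs : 0 ≤ s) (h0 : 0 < h) (P : Finset ℕ) (y1 : ℕ)
    (hP : ∀ p ∈ P, p.Prime ∧ h ≤ Real.log ((y1 : ℝ) / p)) (hT : ∑ p ∈ P, 1 / (p : ℝ) ≤ T) :
    ∑ p ∈ P, (s + Real.log ((y1 : ℝ) / p)) / (p * Real.log ((y1 : ℝ) / p) ^ 2) ≤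
      T * ((s + h) / h ^ 2) := by
  have h1 : ∀ p ∈ P, (s + Real.log ((y1 : ℝ) / p)) / (p * Real.log ((y1 : ℝ) / p) ^ 2) ≤
      1 / (p : ℝ) * ((s + h) / h ^ 2) := by
    intro p hp
    obtain ⟨a1, a2⟩ := hP p hp
    have hp0 : (0 : ℝ) < p := by exact_mod_cast a1.pos
    have h2 := summand_anti hs h0 a2
    have h3 := div_le_div_of_nonneg_right h2 hp0.le
    have e1 : (s + Real.log ((y1 : ℝ) / p)) / (p * Real.log ((y1 : ℝ) / p) ^ 2) =
        (s + Real.log ((y1 : ℝ) / p)) / Real.log ((y1 : ℝ) / p) ^ 2 / p := by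
      rw [div_div, mul_comm]
    rw [e1]
    calc _ ≤ (s + h) / h ^ 2 / p := h3
      _ = 1 / (p : ℝ) * ((s + h) / h ^ 2) := by ring
  refine (sum_le_sum h1).trans ?_
  rw [← sum_mul]
  exact mul_le_mul_of_nonneg_right hT (by positivity)

theorem partB : ∃ C : ℝ, 0 < C ∧ ∃ x0 : ℕ, ∀ (x y b : ℕ) (z K : ℝ) (a : ℕ → ℕ), x0 ≤ x →
    Real.exp (Real.sqrt (Real.log x)) ≤ z → z ^ C ≤ x → 2 ≤ K → K ^ C ≤ x →
    x * Real.exp (C * (Real.sqrt (Real.log K * Real.log z) + Real.log K)) ≤ y → b ≤ y →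
    (∀ p : ℕ, p.Prime → z < p → p * K ≤ x → a p ≡ b [MOD p]) →
    ∃ n : ℕ, 1 ≤ n ∧ n ≤ y ∧ ∀ p : ℕ, p.Prime → p ≤ x → ¬ n ≡ a p [MOD p] := by
  obtain ⟨c0, hc0, x0, hcore⟩ := core_shift
  obtain ⟨C, hC⟩ : ∃ C, C = max (400 / c0) 16 := ⟨_, rfl⟩
  have hC16 : 16 ≤ C := by
    rw [hC]
    exact le_max_right _ _
  have hCc : 400 / c0 ≤ C := by
    rw [hC]
    exact le_max_left _ _
  have hCc' : 400 ≤ C * c0 := by
    rwa [div_le_iff₀ hc0] at hCc
  have hCp : 0 < C := by linarith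
  refine ⟨C, hCp, max x0 ⌈Real.exp 100⌉₊, fun x y b z K a hx hz1 hz2 hK2 hK3 hy hby ha => ?_⟩
  have hxe : Real.exp 100 ≤ x := (Nat.le_ceil _).trans (by
    exact_mod_cast (le_max_right _ _).trans hx)
  have hx0 : (0 : ℝ) < x := lt_of_lt_of_le (Real.exp_pos _) hxe
  have hL : 100 ≤ Real.log x := (Real.le_log_iff_exp_le hx0).2 hxe
  have hsq1 : 1 ≤ Real.sqrt (Real.log x) := by
    rw [Real.one_le_sqrt]
    linarith
  have hz0 : 0 < z := lt_of_lt_of_le (Real.exp_pos _) hz1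
  have hlz : Real.sqrt (Real.log x) ≤ Real.log z := (Real.le_log_iff_exp_le hz0).2 hz1
  have hlz1 : 1 ≤ Real.log z := hsq1.trans hlz
  obtain ⟨g1, g2⟩ := ceil_log hz0 hlz1
  have hK0 : 0 < K := by linarith
  have hlK : 0.69 ≤ Real.log K := by
    have := Real.log_le_log (by norm_num) hK2
    have := Real.log_two_gt_d9
    linarith
  have hsC : C * Real.log z ≤ Real.log x := by
    have := Real.log_le_log (by positivity) hz2
    rwa [Real.log_rpow hz0] at this
  have hKC : C * Real.log K ≤ Real.log x := by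
    have := Real.log_le_log (by positivity) hK3
    rwa [Real.log_rpow hK0] at this
  obtain ⟨s, hs⟩ : ∃ s, s = Real.log z := ⟨_, rfl⟩
  obtain ⟨κ, hκ⟩ : ∃ κ, κ = Real.log K := ⟨_, rfl⟩
  obtain ⟨L, hLd⟩ : ∃ L, L = Real.log x := ⟨_, rfl⟩
  rw [← hκ] at hlK hKC hy
  rw [← hs] at hlz hlz1 g1 g2 hsC hy
  rw [← hLd] at hL hsq1 hlz hsC hKC
  obtain ⟨q, hq⟩ : ∃ q, q = Real.sqrt (κ * s) := ⟨_, rfl⟩
  rw [← hq] at hy
  have hq0 : 0 ≤ q := by rw [hq]; exact Real.sqrt_nonneg _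
  have hq2 : q ^ 2 = κ * s := by rw [hq]; exact Real.sq_sqrt (by positivity)
  have hqL : C * q ≤ L := by
    have h1 : (C * q) ^ 2 ≤ L ^ 2 := by
      have h2 : (C * q) ^ 2 = (C * κ) * (C * s) := by
        rw [mul_pow, hq2]
        ring
      rw [h2, sq]
      exact mul_le_mul hKC hsC (by positivity) (by linarith)
    exact (sq_le_sq₀ (by positivity) (by linarith)).1 h1
  have hy0 : (0 : ℝ) < y := lt_of_lt_of_le (by positivity) hy
  have hLy : C * (q + κ) ≤ Real.log ((y : ℝ) / x) := by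
    rw [Real.le_log_iff_exp_le (by positivity), le_div_iff₀ hx0]
    linarith
  have hxy : x ≤ y := by
    have h1 : 1 ≤ Real.exp (C * (q + κ)) := Real.one_le_exp (by positivity)
    have h2 : (x : ℝ) ≤ y := by nlinarith
    exact_mod_cast h2
  have hx3 : 3 ≤ x := by
    have h1 : (3 : ℝ) ≤ x := by
      have := Real.add_one_le_exp (100 : ℝ)
      linarith
    exact_mod_cast h1
  obtain ⟨y1, hy1⟩ : ∃ y1, y1 = min (y / 2) (x ^ 2) := ⟨_, rfl⟩
  have hy1a : y1 ≤ y / 2 := by rw [hy1]; exact min_le_left _ _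
  have hy1b : y1 ≤ x ^ 2 := by rw [hy1]; exact min_le_right _ _
  -- the lower bound for `log (y1 / x)`
  have hh : C / 2 * (q + κ) ≤ Real.log ((y1 : ℝ) / x) := by
    rw [hy1]
    rcases le_total (y / 2) (x ^ 2) with h1 | h1
    · rw [min_eq_left h1]
      have h2 := (half_log (by omega : 3 ≤ y) (by omega : 0 < x)).1
      have h3 : 1.1 ≤ C / 2 * (q + κ) := by nlinarith
      linarith
    · rw [min_eq_right h1]
      push_cast
      have h2 : (x : ℝ) ^ 2 / x = x := by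
        field_simp
      rw [h2, ← hLd]
      linarith
  obtain ⟨h, hhd⟩ : ∃ h, h = Real.log ((y1 : ℝ) / x) := ⟨_, rfl⟩
  rw [← hhd] at hh
  have hhpos : 0 < h := lt_of_lt_of_le (by positivity) hh
  have hy1pos : (0 : ℝ) < y1 := by
    rcases Nat.eq_zero_or_pos y1 with h1 | h1
    · rw [h1] at hhd
      simp only [Nat.cast_zero, zero_div, Real.log_zero] at hhd
      linarith
    · exact_mod_cast h1
  refine hcore x y y1 ⌈z⌉₊ b a ((le_max_left _ _).trans hx) hby (by omega) hy1b ?_ ?_ ?_ ?_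
  · rw [← hLd]
    exact hlz.trans g1
  · rw [← hLd]
    have h1 : 2 * s ≤ c0 * L := by
      have h2 : 400 * s ≤ C * c0 * s := mul_le_mul_of_nonneg_right hCc' (by linarith)
      have h3 := mul_le_mul_of_nonneg_left hsC hc0.le
      nlinarith
    linarith
  · rw [← hhd]
    have h2 := sqrt2_le (by linarith) g2
    have h3 : 3 / 4 * Real.sqrt s ≤ q := by
      rw [hq]
      refine Real.le_sqrt_of_sq_le ?_
      rw [mul_pow, Real.sq_sqrt (by linarith)]
      nlinarith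
    have h4 : 6 * Real.sqrt s ≤ C / 2 * q := by
      have h5 : 0 ≤ Real.sqrt s := Real.sqrt_nonneg _
      nlinarith
    nlinarith
  · have hP : ∀ p ∈ MS a b ((⌈z⌉₊ : ℕ) : ℝ) x, p.Prime ∧ p ≤ x ∧ (x : ℝ) < p * K := by
      intro p hp
      obtain ⟨h1, h2, h3, h4⟩ := mem_MS.1 hp
      refine ⟨h1, h3, ?_⟩
      by_contra hcon
      push Not at hcon
      exact h4 (ha p h1 (lt_of_le_of_lt (Nat.le_ceil z) h2) hcon)
    have hT := sum_top hK2 (by rw [← hκ, ← hLd]; nlinarith) (by rw [← hLd]; exact hL) _ hP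
    rw [← hκ, ← hLd] at hT
    have hP2 : ∀ p ∈ MS a b ((⌈z⌉₊ : ℕ) : ℝ) x, p.Prime ∧ h ≤ Real.log ((y1 : ℝ) / p) := by
      intro p hp
      obtain ⟨h1, h2, _⟩ := hP p hp
      refine ⟨h1, ?_⟩
      rw [hhd]
      have hp0 : (0 : ℝ) < p := by exact_mod_cast h1.pos
      refine Real.log_le_log (by positivity) (div_le_div_of_nonneg_left hy1pos.le hp0 ?_)
      exact_mod_cast h2
    refine (sum_le_of_h (by linarith : 0 ≤ Real.log (⌈z⌉₊ : ℕ)) hhpos _ y1 hP2 hT).trans ?_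
    rw [← hLd]
    have h1 : (Real.log (⌈z⌉₊ : ℕ) + h) / h ^ 2 ≤ (2 * s + h) / h ^ 2 :=
      div_le_div_of_nonneg_right (by linarith) (by positivity)
    have h2 : 40 * κ * ((2 * s + h) / h ^ 2) ≤ c0 := by
      rw [← mul_div_assoc, div_le_iff₀ (by positivity)]
      -- `40 κ (2 s + h) ≤ c0 h^2`
      have h3 : (C / 2 * (q + κ)) ^ 2 ≤ h ^ 2 := pow_le_pow_left₀ (by positivity) hh 2
      have h4 : C / 2 * κ ≤ h := by
        have : C / 2 * κ ≤ C / 2 * (q + κ) := mul_le_mul_of_nonneg_left (by linarith) (by positivity)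
        linarith
      have h5 : C ^ 2 / 4 * (κ * s) ≤ h ^ 2 := by
        rw [← hq2]
        have : (C / 2 * q) ^ 2 ≤ (C / 2 * (q + κ)) ^ 2 :=
          pow_le_pow_left₀ (by positivity) (mul_le_mul_of_nonneg_left (by linarith) (by positivity)) 2
        nlinarith
      have h6 : C / 2 * (κ * h) ≤ h ^ 2 := by nlinarith
      -- `80 κ s ≤ (320 / C^2) h^2 ≤ (c0 / 2) h^2`, `40 κ h ≤ (80 / C) h^2 ≤ (c0 / 2) h^2`
      have h7 : C * (80 * (κ * s)) ≤ C * (c0 / 2 * h ^ 2) := by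
        have h8 : 80 * (C * (κ * s)) ≤ 20 * h ^ 2 := by nlinarith [mul_nonneg (by linarith : 0 ≤ κ) (by linarith : 0 ≤ s)]
        have h9 : 200 * h ^ 2 ≤ C * (c0 / 2 * h ^ 2) := by nlinarith [sq_nonneg h]
        linarith [sq_nonneg h]
      have h8 : C * (40 * (κ * h)) ≤ C * (c0 / 2 * h ^ 2) := by
        have h9 : 200 * h ^ 2 ≤ C * (c0 / 2 * h ^ 2) := by nlinarith [sq_nonneg h]
        linarith [sq_nonneg h]
      have h9 := le_of_mul_le_mul_left h7 hCp
      have h10 := le_of_mul_le_mul_left h8 hCp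
      nlinarith
    have h3 : 0 ≤ 40 * κ / L := by positivity
    calc 40 * κ / L * ((Real.log (⌈z⌉₊ : ℕ) + h) / h ^ 2)
        ≤ 40 * κ / L * ((2 * s + h) / h ^ 2) := mul_le_mul_of_nonneg_left h1 h3
      _ = (40 * κ * ((2 * s + h) / h ^ 2)) / L := by ring
      _ ≤ c0 / L := div_le_div_of_nonneg_right h2 (by linarith)

end Pool.MP42e49e.ER
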