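import Pool.Agent.H.MP_42e49e_nt.ER.FinB

/-!
# ER: the form for almost all large primes
-/

set_option autoImplicit false

namespace Pool.MP42e49e.ER

open Finset Filter

theorem partC (ε : ℝ) (hε : 0 < ε) : ∃ c : ℝ, 0 < c ∧ ∃ x0 : ℕ, ∀ (x y b : ℕ) (a : ℕ → ℕ),
    x0 ≤ x → (x : ℝ) ^ (1 + ε) ≤ y → b ≤ y →
    (∀ n : ℕ, 1 ≤ n → n ≤ y → ∃ p : ℕ, p.Prime ∧ p ≤ x ∧ n ≡ a p [MOD p]) →
    c ≤ ∑ p ∈ MS a b ((x : ℝ) ^ c) x, 1 / (p : ℝ) := by
  obtain ⟨c0, hc0, x0, hcore⟩ := core_shift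
  obtain ⟨e, he⟩ : ∃ e, e = min ε 1 := ⟨_, rfl⟩
  have he0 : 0 < e := by rw [he]; exact lt_min hε one_pos
  have he1 : e ≤ 1 := by rw [he]; exact min_le_right _ _
  have heε : e ≤ ε := by rw [he]; exact min_le_left _ _
  obtain ⟨c, hc⟩ : ∃ c, c = min 1 (min (c0 / 2) (c0 * e ^ 2 / 10)) := ⟨_, rfl⟩
  have hcp : 0 < c := by rw [hc]; exact lt_min one_pos (lt_min (by positivity) (by positivity))
  have hc1 : c ≤ 1 := by rw [hc]; exact min_le_left _ _
  have hc2 : 2 * c ≤ c0 := by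
    have : c ≤ c0 / 2 := by rw [hc]; exact (min_le_right _ _).trans (min_le_left _ _)
    linarith
  have hc3 : 10 * c ≤ c0 * e ^ 2 := by
    have : c ≤ c0 * e ^ 2 / 10 := by rw [hc]; exact (min_le_right _ _).trans (min_le_right _ _)
    linarith
  -- large `L = log x`
  obtain ⟨L0, hL0⟩ : ∃ L0 : ℝ, L0 = max (max 100 (1 / c ^ 2)) (max (4 / e) (300 / e ^ 2)) := ⟨_, rfl⟩
  refine ⟨c, hcp, max x0 ⌈Real.exp L0⌉₊, fun x y b a hx hy hby hcov => ?_⟩
  by_contra hcon
  push Not at hcon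
  have hxe : Real.exp L0 ≤ x := (Nat.le_ceil _).trans (by
    exact_mod_cast (le_max_right _ _).trans hx)
  have hx0 : (0 : ℝ) < x := lt_of_lt_of_le (Real.exp_pos _) hxe
  obtain ⟨L, hLd⟩ : ∃ L, L = Real.log x := ⟨_, rfl⟩
  have hLL : L0 ≤ L := by rw [hLd]; exact (Real.le_log_iff_exp_le hx0).2 hxe
  have k1 : 100 ≤ L := by
    refine le_trans ?_ hLL
    rw [hL0]
    exact (le_max_left _ _).trans (le_max_left _ _)
  have k2 : 1 / c ^ 2 ≤ L := by
    refine le_trans ?_ hLL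
    rw [hL0]
    exact (le_max_right _ _).trans (le_max_left _ _)
  have k3 : 4 ≤ e * L := by
    have : 4 / e ≤ L := by
      refine le_trans ?_ hLL
      rw [hL0]
      exact (le_max_left _ _).trans (le_max_right _ _)
    rw [div_le_iff₀ he0] at this
    linarith
  have k4 : 300 ≤ e ^ 2 * L := by
    have : 300 / e ^ 2 ≤ L := by
      refine le_trans ?_ hLL
      rw [hL0]
      exact (le_max_right _ _).trans (le_max_right _ _)
    rw [div_le_iff₀ (by positivity)] at this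
    linarith
  have hLp : 0 < L := by linarith
  obtain ⟨z, hz⟩ : ∃ z, z = (x : ℝ) ^ c := ⟨_, rfl⟩
  have hz0 : 0 < z := by rw [hz]; positivity
  have hlz : Real.log z = c * L := by rw [hz, Real.log_rpow hx0, hLd]
  have hsq : Real.sqrt L ≤ c * L := by
    rw [Real.sqrt_le_left (by positivity), mul_pow]
    have h1 : 1 ≤ c ^ 2 * L := by
      rw [div_le_iff₀ (by positivity)] at k2
      linarith
    nlinarith
  have hsq10 : 10 ≤ Real.sqrt L := by
    refine Real.le_sqrt_of_sq_le ?_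
    linarith
  obtain ⟨g1, g2⟩ := ceil_log hz0 (by rw [hlz]; linarith)
  rw [hlz] at g1 g2
  rw [← hz] at hcon
  have hx3 : 3 ≤ x := by
    have h1 : (3 : ℝ) ≤ x := by
      have h2 := Real.add_one_le_exp L0
      have h3 : 100 ≤ L0 := by
        rw [hL0]
        exact (le_max_left _ _).trans (le_max_left _ _)
      linarith
    exact_mod_cast h1
  have hx1 : (1 : ℝ) ≤ x := by
    have : (3 : ℝ) ≤ x := by exact_mod_cast hx3
    linarith
  have hye : (x : ℝ) ^ (1 + e) ≤ y :=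
    (Real.rpow_le_rpow_of_exponent_le hx1 (by linarith)).trans hy
  have hy0 : (0 : ℝ) < y := lt_of_lt_of_le (by positivity) hye
  have hly : (1 + e) * L ≤ Real.log y := by
    have := Real.log_le_log (by positivity) hye
    rwa [Real.log_rpow hx0, ← hLd] at this
  have hLy : e * L ≤ Real.log ((y : ℝ) / x) := by
    rw [Real.log_div hy0.ne' hx0.ne', ← hLd]
    linarith
  have hxy : x ≤ y := by
    have h1 : (x : ℝ) ≤ (x : ℝ) ^ (1 + e) := by
      calc (x : ℝ) = (x : ℝ) ^ (1 : ℝ) := (Real.rpow_one _).symm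
        _ ≤ (x : ℝ) ^ (1 + e) := Real.rpow_le_rpow_of_exponent_le hx1 (by linarith)
    exact_mod_cast h1.trans hye
  obtain ⟨y1, hy1⟩ : ∃ y1, y1 = min (y / 2) (x ^ 2) := ⟨_, rfl⟩
  have hy1a : y1 ≤ y / 2 := by rw [hy1]; exact min_le_left _ _
  have hy1b : y1 ≤ x ^ 2 := by rw [hy1]; exact min_le_right _ _
  have hh : e / 2 * L ≤ Real.log ((y1 : ℝ) / x) := by
    rw [hy1]
    rcases le_total (y / 2) (x ^ 2) with h1 | h1
    · rw [min_eq_left h1]
      have h2 := (half_log (by omega : 3 ≤ y) (by omega : 0 < x)).1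
      linarith
    · rw [min_eq_right h1]
      push_cast
      have h2 : (x : ℝ) ^ 2 / x = x := by
        field_simp
      rw [h2, ← hLd]
      nlinarith
  have hhpos : 0 < e / 2 * L := by positivity
  have hy1pos : (0 : ℝ) < y1 := by
    rcases Nat.eq_zero_or_pos y1 with h1 | h1
    · rw [h1] at hh
      simp only [Nat.cast_zero, zero_div, Real.log_zero] at hh
      linarith
    · exact_mod_cast h1
  obtain ⟨n, hn1, hn2, hn3⟩ := hcore x y y1 ⌈z⌉₊ b a ((le_max_left _ _).trans hx) hby (by omega)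
    hy1b (by rw [← hLd]; linarith) (by rw [← hLd]; nlinarith) (by
      refine le_trans ?_ hh
      have h2 := sqrt2_le (by positivity : 0 ≤ c * L) g2
      have h3 : 6 * Real.sqrt (c * L) ≤ e / 2 * L := by
        have h4 : Real.sqrt (c * L) ≤ Real.sqrt L := Real.sqrt_le_sqrt (by nlinarith)
        have h5 : Real.sqrt L ≤ e / 12 * L := by
          rw [Real.sqrt_le_left (by positivity), mul_pow, div_pow]
          nlinarith
        linarith
      linarith) (by
      have hsub : MS a b ((⌈z⌉₊ : ℕ) : ℝ) x ⊆ MS a b z x := MS_mono (Nat.le_ceil z)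
      have hT : ∑ p ∈ MS a b ((⌈z⌉₊ : ℕ) : ℝ) x, 1 / (p : ℝ) ≤ c :=
        (sum_le_sum_of_subset_of_nonneg hsub fun p _ _ => by positivity).trans hcon.le
      have hP2 : ∀ p ∈ MS a b ((⌈z⌉₊ : ℕ) : ℝ) x,
          p.Prime ∧ e / 2 * L ≤ Real.log ((y1 : ℝ) / p) := by
        intro p hp
        obtain ⟨h1, _, h3, _⟩ := mem_MS.1 hp
        refine ⟨h1, hh.trans ?_⟩
        have hp0 : (0 : ℝ) < p := by exact_mod_cast h1.pos
        refine Real.log_le_log (by positivity) (div_le_div_of_nonneg_left hy1pos.le hp0 ?_)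
        exact_mod_cast h3
      have hs0 : 0 ≤ Real.log (⌈z⌉₊ : ℕ) := by
        have : 0 ≤ c * L := by positivity
        linarith
      refine (sum_le_of_h hs0 hhpos _ y1 hP2 hT).trans ?_
      rw [← hLd, ← mul_div_assoc, div_le_div_iff₀ (by positivity) hLp]
      -- `c (s' + h) L ≤ c0 h^2`, `h = e L / 2`, `s' ≤ 2 c L`
      have h1 : Real.log (⌈z⌉₊ : ℕ) + e / 2 * L ≤ (2 * c + e / 2) * L := by linarith
      have h2 : c * (Real.log (⌈z⌉₊ : ℕ) + e / 2 * L) * L ≤ c * ((2 * c + e / 2) * L) * L :=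
        mul_le_mul_of_nonneg_right (mul_le_mul_of_nonneg_left h1 hcp.le) hLp.le
      have h3 : c * (2 * c + e / 2) ≤ c0 * (e / 2) ^ 2 := by
        have h4 : c * (2 * c + e / 2) ≤ c * (5 / 2) :=
          mul_le_mul_of_nonneg_left (by linarith) hcp.le
        nlinarith
      have h4 : 0 ≤ L * L := by positivity
      nlinarith [mul_le_mul_of_nonneg_right h3 h4])
  obtain ⟨p, hp, hpx, hpn⟩ := hcov n hn1 hn2
  exact hn3 p hp hpx hpn

end Pool.MP42e49e.ER
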