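import Pool.Agent.H.MP_42e49e_nt.ER.FinC

/-!
# ER: the lower bound for the primes whose class misses `b`
-/

set_option autoImplicit false

namespace Pool.MP42e49e.ER

open Finset

theorem partD : ∃ c : ℝ, 0 < c ∧ ∃ x0 : ℕ, ∀ (x y b : ℕ) (z u : ℝ) (a : ℕ → ℕ), x0 ≤ x →
    (y : ℝ) = x * Real.exp u → y ≤ x ^ 2 → Real.exp (Real.sqrt (Real.log x)) ≤ z →
    z ≤ (x : ℝ) ^ c → Real.sqrt (Real.log z) ≤ c * u → b ≤ y →
    (∀ n : ℕ, 1 ≤ n → n ≤ y → ∃ p : ℕ, p.Prime ∧ p ≤ x ∧ n ≡ a p [MOD p]) →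
    c * u ^ 2 / ((u + Real.log z) * Real.log x) ≤ ∑ p ∈ MS a b z x, 1 / (p : ℝ) := by
  obtain ⟨c, hc, x0, h⟩ := partA
  refine ⟨c, hc, max x0 3, fun x y b z u a hx hyu hyx hz1 hz2 hu hby hcov => ?_⟩
  by_contra hcon
  push Not at hcon
  have hx3 : 3 ≤ x := (le_max_right _ _).trans hx
  have hx3' : (3 : ℝ) ≤ x := by exact_mod_cast hx3
  have hx0 : (0 : ℝ) < x := by linarith
  have hL1 : 1 ≤ Real.log x := by
    rw [Real.le_log_iff_exp_le hx0]
    have := Real.exp_one_lt_d9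
    linarith
  have hsq1 : 1 ≤ Real.sqrt (Real.log x) := by
    rw [Real.one_le_sqrt]
    exact hL1
  have hz0 : 0 < z := lt_of_lt_of_le (Real.exp_pos _) hz1
  have hlz : Real.sqrt (Real.log x) ≤ Real.log z := (Real.le_log_iff_exp_le hz0).2 hz1
  have hlz1 : 1 ≤ Real.log z := hsq1.trans hlz
  have hs1 : 1 ≤ Real.sqrt (Real.log z) := by
    rw [Real.one_le_sqrt]
    exact hlz1
  have hu0 : 0 < u := by
    by_contra hc2
    push Not at hc2
    have : c * u ≤ 0 := mul_nonpos_of_nonneg_of_nonpos hc.le hc2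
    linarith
  have hy0 : (0 : ℝ) < y := by rw [hyu]; positivity
  have hlogx : Real.log ((y : ℝ) / x) = u := by
    rw [hyu, mul_div_cancel_left₀ _ hx0.ne', Real.log_exp]
  obtain ⟨n, hn1, hn2, hn3⟩ := h x y b z a ((le_max_left _ _).trans hx) hz1 hz2 (by
      rw [hyu]
      refine mul_le_mul_of_nonneg_left (Real.exp_le_exp.2 ?_) hx0.le
      rw [div_le_iff₀ hc]
      linarith) hyx hby (by
      have hP : ∀ p ∈ MS a b z x, p.Prime ∧ u ≤ Real.log ((y : ℝ) / p) := by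
        intro p hp
        obtain ⟨h1, _, h3, _⟩ := mem_MS.1 hp
        have hp0 : (0 : ℝ) < p := by exact_mod_cast h1.pos
        refine ⟨h1, ?_⟩
        rw [← hlogx]
        refine Real.log_le_log (by positivity) (div_le_div_of_nonneg_left hy0.le hp0 ?_)
        exact_mod_cast h3
      refine (sum_le_of_h (by linarith) hu0 _ y hP hcon.le).trans (le_of_eq ?_)
      have h1 : u + Real.log z ≠ 0 := by positivity
      have h2 : Real.log x ≠ 0 := by linarith
      have h3 : Real.log z + u = u + Real.log z := add_comm _ _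
      rw [h3]
      field_simp)
  obtain ⟨p, hp, hpx, hpn⟩ := hcov n hn1 hn2
  exact hn3 p hp hpx hpn

end Pool.MP42e49e.ER
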