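import Pool.Agent.H.MP_42e49e_nt.ER.Good

/-!
# ER: the conclusion from the numerical estimates
-/

set_option autoImplicit false

namespace Pool.MP42e49e.ER

open Finset Pool.Agent.H.MP_711652_nt.CH

/-- The live primes of `(A, B]`: the class is not the zero class. -/
def LV (a : ℕ → ℕ) (A B : ℕ) : Finset ℕ := (pw A B).filter (fun p => ¬ p ∣ a p)

theorem mem_LV {a : ℕ → ℕ} {A B p : ℕ} :
    p ∈ LV a A B ↔ p.Prime ∧ A < p ∧ p ≤ B ∧ ¬ p ∣ a p := by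
  unfold LV
  rw [mem_filter, mem_pw]
  tauto

theorem LV_prod_dvd {a : ℕ → ℕ} {D p : ℕ} (hp : p.Prime) (h : p ∣ ∏ l ∈ LV a 0 D, l) :
    p ∈ LV a 0 D := by
  obtain ⟨l, hl, hpl⟩ := (hp.prime.dvd_finset_prod_iff _).1 h
  have := (Nat.prime_dvd_prime_iff_eq hp (mem_LV.1 hl).1).1 hpl
  exact this ▸ hl

/-- The algebra of the final inequality. -/
theorem final_ineq {N Th X V Vm Em Er T1 T2 R ζ C6 S e5 : ℝ} (hN : 0 < N) (hX : 0 < X)
    (hV : 0 < V) (he5 : 0 < e5) (hVm : e5 ≤ Vm) (hTh1 : X / 2 ≤ Th) (hTh2 : Th ≤ 3 * X)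
    (hEm0 : 0 ≤ Em) (hEm : Em ≤ 1 / e5) (hEr : 0 ≤ Er) (hT1 : T1 ≤ ζ * N) (hT2 : T2 ≤ R * X)
    (hT10 : 0 ≤ T1) (hT20 : 0 ≤ T2) (hζ0 : 0 ≤ ζ) (hR0 : 0 ≤ R)
    (hζ : 200 * ζ ≤ e5 ^ 2) (hR : 32 * (Er * R) ≤ e5 ^ 2 * V) (hS : C6 * S ≤ e5 / 8) :
    N * (C6 * X * V * S) <
      N * Th * (Vm * V * ((1 - 1 / 32) - 1 / 8 * (1 + 1 / 32))) -
        2 * ((1 + 1 / 32) * V * Em * (Th * T1) + Em * Er * (N * T2)) := by
  have hTh0 : 0 < Th := by linarith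
  have a1 : N * (C6 * X * V * S) ≤ N * X * V * (e5 / 8) := by
    have := mul_le_mul_of_nonneg_left hS (by positivity : 0 ≤ N * X * V)
    linarith
  have a2 : N * X * V * (3 / 8 * e5) ≤ N * Th * (Vm * V * ((1 - 1 / 32) - 1 / 8 * (1 + 1 / 32))) := by
    have h1 : X / 2 * e5 ≤ Th * Vm := mul_le_mul hTh1 hVm he5.le hTh0.le
    have h2 : 0 ≤ N * V := by positivity
    have h3 := mul_le_mul_of_nonneg_left h1 h2
    have h4 : (3 / 4 : ℝ) ≤ (1 - 1 / 32) - 1 / 8 * (1 + 1 / 32) := by norm_num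
    have h5 : 0 ≤ N * V * (Th * Vm) := by
      have := he5.le.trans hVm
      positivity
    have h6 := mul_le_mul_of_nonneg_left h4 h5
    linarith
  have a3 : 2 * ((1 + 1 / 32) * V * Em * (Th * T1)) ≤ N * X * V * (e5 / 16) := by
    have h1 : Th * T1 ≤ (3 * X) * (ζ * N) := mul_le_mul hTh2 hT1 hT10 (by positivity)
    have h2 : Em * (Th * T1) ≤ 1 / e5 * ((3 * X) * (ζ * N)) :=
      mul_le_mul hEm h1 (by positivity) (by positivity)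
    have h3 : 1 / e5 * ζ ≤ e5 / 200 := by
      rw [div_mul_eq_mul_div, one_mul, div_le_div_iff₀ he5 (by norm_num)]
      nlinarith
    have h4 : 1 / e5 * ((3 * X) * (ζ * N)) ≤ 3 * X * N * (e5 / 200) := by
      have := mul_le_mul_of_nonneg_left h3 (by positivity : 0 ≤ 3 * X * N)
      linarith
    have h5 := mul_le_mul_of_nonneg_left (h2.trans h4) (by positivity : 0 ≤ 33 / 16 * V)
    have h6 : 0 ≤ N * X * V * e5 := by positivity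
    linarith
  have a4 : 2 * (Em * Er * (N * T2)) ≤ N * X * V * (e5 / 16) := by
    have h1 : Er * T2 ≤ Er * (R * X) := mul_le_mul_of_nonneg_left hT2 hEr
    have h2 : Em * (Er * T2) ≤ 1 / e5 * (Er * (R * X)) :=
      mul_le_mul hEm h1 (by positivity) (by positivity)
    have h3 : 1 / e5 * (Er * R) ≤ e5 * V / 32 := by
      rw [div_mul_eq_mul_div, one_mul, div_le_iff₀ he5]
      nlinarith
    have h4 := mul_le_mul_of_nonneg_left h3 (by positivity : 0 ≤ 2 * N * X)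
    have h5 := mul_le_mul_of_nonneg_left h2 (by positivity : 0 ≤ 2 * N)
    linarith
  have a5 : 0 < N * X * V * e5 := by positivity
  linarith

theorem finish (x y z D0 D1 k km X : ℕ) (a : ℕ → ℕ) (Bs Pm K1 : Finset ℕ)
    (Qm Qr R ζ C6 e5 : ℝ) (φ : ℕ → ℝ) (lp lm : Finset ℕ → ℝ)
    (hD01 : D0 ≤ D1) (hD1z : D1 ≤ z) (hzx : z ≤ x) (hxX : x ≤ X) (hX0 : 1 ≤ X)
    (hM : Pm ∪ K1 = LV a D0 D1) (hd : Disjoint Pm K1) (hBs : Bs ⊆ K1) (hN : 0 < Bs.card ∨ k = 0)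
    (hXy : (∏ l ∈ LV a 0 D0, l) * D1 ^ (2 * k) * (2 * X) ≤ y)
    (hQm0 : 0 ≤ Qm) (hQr0 : 0 ≤ Qr)
    (hQm : ∀ T, T ⊆ Pm → T.card ≤ 2 * km + 1 → ((∏ p ∈ T, p : ℕ) : ℝ) ≤ Qm)
    (hW : Wts (LV a D1 z) g1 Qr (1 / 32) lp lm)
    (hη : sw (tW km) g1 Pm ≤ 1 / 8 * ∏ p ∈ Pm, (1 - g1 p))
    (he5 : 0 < e5) (hVm : e5 ≤ ∏ p ∈ Pm, (1 - g1 p)) (hEm : EP Pm ≤ 1 / e5)
    (hV : 0 < ∏ p ∈ LV a D1 z, (1 - g1 p))
    (hTh1 : (X : ℝ) / 2 ≤ ∑ q ∈ PX X, thn q) (hTh2 : ∑ q ∈ PX X, thn q ≤ 3 * X)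
    (hE1 : E1 Pm Qm (ZB k Bs) ≤ ζ * (Bs.card : ℝ) ^ (2 * k))
    (hE2 : E2 Pm (LV a D1 z) (Qm * Qr) (Zs (PX X) thn) ≤ R * X)
    (hζ0 : 0 ≤ ζ) (hR0 : 0 ≤ R) (hζ : 200 * ζ ≤ e5 ^ 2)
    (hR : 32 * (EP (LV a D1 z) * R) ≤ e5 ^ 2 * ∏ p ∈ LV a D1 z, (1 - g1 p))
    (hC6 : 0 ≤ C6) (hφ : ∀ p ∈ K1 ∪ LV a z x, 0 ≤ φ p)
    (hkill : ∀ p ∈ K1 ∪ LV a z x, ∀ v : ℕ → ℕ, (∀ l ∈ LV a D1 z, ¬ l ∣ v l) →
      ∑ q ∈ (PX X).filter (fun q => q ≡ v p [MOD p] ∧ ∀ l ∈ LV a D1 z, ¬ q ≡ v l [MOD l]), thn q ≤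
        C6 * X * (∏ l ∈ LV a D1 z, (1 - g1 l)) * (φ p / p))
    (hS : C6 * ∑ p ∈ K1 ∪ LV a z x, φ p / p ≤ e5 / 8) :
    ∃ n : ℕ, 1 ≤ n ∧ n ≤ y ∧ ∀ p : ℕ, p.Prime → p ≤ x → ¬ n ≡ a p [MOD p] := by
  obtain ⟨Pr, hPr⟩ : ∃ Pr, Pr = LV a D1 z := ⟨_, rfl⟩
  obtain ⟨m0, hm0⟩ : ∃ m0, m0 = ∏ l ∈ LV a 0 D0, l := ⟨_, rfl⟩
  obtain ⟨K, hK⟩ : ∃ K, K = K1 ∪ LV a z x := ⟨_, rfl⟩
  rw [← hPr] at hW hV hE2 hR hkill
  rw [← hm0] at hXy
  rw [← hK] at hφ hkill hS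
  have mM : ∀ p, p ∈ Pm ∪ K1 ↔ p ∈ LV a D0 D1 := fun p => by rw [hM]
  have mPm : ∀ p ∈ Pm, p.Prime ∧ D0 < p ∧ p ≤ D1 ∧ ¬ p ∣ a p := fun p hp =>
    mem_LV.1 ((mM p).1 (mem_union_left _ hp))
  have mK1 : ∀ p ∈ K1, p.Prime ∧ D0 < p ∧ p ≤ D1 ∧ ¬ p ∣ a p := fun p hp =>
    mem_LV.1 ((mM p).1 (mem_union_right _ hp))
  have mPr : ∀ p ∈ Pr, p.Prime ∧ D1 < p ∧ p ≤ z ∧ ¬ p ∣ a p := fun p hp =>
    mem_LV.1 (by rw [hPr] at hp; exact hp)
  have hdm : Disjoint Pm Pr := by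
    rw [disjoint_left]
    intro p h1 h2
    have h3 := mPm p h1
    have h4 := mPr p h2
    omega
  have mP : ∀ p ∈ Pm ∪ Pr, p.Prime ∧ p ≤ z ∧ ¬ p ∣ a p := by
    intro p hp
    rcases mem_union.1 hp with h | h
    · obtain ⟨h1, _, h3, h4⟩ := mPm p h
      exact ⟨h1, h3.trans hD1z, h4⟩
    · obtain ⟨h1, _, h3, h4⟩ := mPr p h
      exact ⟨h1, h3, h4⟩
  -- the primes above `D0` do not divide `m0`, nor do the primes with the zero class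
  have hm0' : ∀ p : ℕ, p.Prime → (D0 < p ∨ p ∣ a p) → ¬ p ∣ m0 := by
    intro p hp h1 h2
    rw [hm0] at h2
    have h3 := mem_LV.1 (LV_prod_dvd hp h2)
    rcases h1 with h1 | h1
    · omega
    · exact h3.2.2.2 h1
  have hD0P : ∀ p ∈ Pm ∪ Pr, D0 < p := by
    intro p hp
    rcases mem_union.1 hp with h | h
    · exact (mPm p h).2.1
    · have := (mPr p h).2.1
      omega
  have hBs' : ∀ t ∈ Bs, t.Prime ∧ t ∉ Pm ∪ Pr := by
    intro t ht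
    have h1 := mK1 t (hBs ht)
    refine ⟨h1.1, fun h => ?_⟩
    rcases mem_union.1 h with h | h
    · exact disjoint_left.1 hd h (hBs ht)
    · have := mPr t h
      omega
  have hK' : ∀ p ∈ K, p.Prime ∧ ¬ p ∣ a p ∧ ¬ p ∣ m0 := by
    intro p hp
    rw [hK] at hp
    rcases mem_union.1 hp with h | h
    · obtain ⟨h1, h2, _, h4⟩ := mK1 p h
      exact ⟨h1, h4, hm0' p h1 (Or.inl h2)⟩
    · obtain ⟨h1, h2, _, h4⟩ := mem_LV.1 h
      exact ⟨h1, h4, hm0' p h1 (Or.inl (by omega))⟩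
  -- the lower bound for the points which avoid `Pm ∪ Pr`
  have low := sift_lower k km m0 X Bs Pm Pr a Qm Qr (1 / 32) (1 / 8) lp lm
    (fun p hp => (mP p hp).1) hdm (fun p hp => (mP p hp).2.2)
    (fun p hp => hm0' p (mP p hp).1 (Or.inl (hD0P p hp))) hBs'
    (fun p hp => by have := (mP p hp).2.1; omega) hQm0 hQr0 hQm (by norm_num) (by norm_num) hW hη
  have hNpos : (0 : ℝ) < (Bs.card : ℝ) ^ (2 * k) := by
    rcases hN with h | h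
    · have : (0 : ℝ) < Bs.card := by exact_mod_cast h
      positivity
    · rw [h, mul_zero, pow_zero]
      exact one_pos
  have hXpos : (0 : ℝ) < X := by exact_mod_cast hX0
  have hPmP : ∀ p ∈ Pm, p.Prime := fun p hp => (mPm p hp).1
  have hPrP : ∀ p ∈ Pr, p.Prime := fun p hp => (mPr p hp).1
  have hZs : ∀ r, 0 ≤ Zs (PX X) thn r := fun r => sum_nonneg fun _ _ => norm_nonneg _
  have hZB : ∀ r, 0 ≤ ZB k Bs r := fun r => sum_nonneg fun _ _ => by positivity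
  have fin := final_ineq hNpos hXpos hV he5 hVm hTh1 hTh2 (EP_nonneg hPmP) hEm
    (EP_nonneg hPrP) hE1 hE2 (E1_nonneg hZB) (E2_nonneg hZs) hζ0 hR0 hζ hR hS
  obtain ⟨Kb, hKb⟩ : ∃ Kb : ℕ → ℝ, Kb = fun p => C6 * X * (∏ l ∈ Pr, (1 - g1 l)) * (φ p / p) :=
    ⟨_, rfl⟩
  have hsumK : ∑ p ∈ K, Kb p = C6 * X * (∏ l ∈ Pr, (1 - g1 l)) * ∑ p ∈ K, φ p / p := by
    rw [hKb, mul_sum]
  obtain ⟨w, hw, hgood⟩ := exists_good k m0 X Bs Pm Pr K a Kb hPrP (fun l hl => (mPr l hl).2.2.2)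
    (fun l hl => hm0' l (mPr l hl).1 (Or.inl (by have := (mPr l hl).2.1; omega)))
    (fun t ht => ⟨(hBs' t ht).1, fun h => (hBs' t ht).2 (mem_union_right _ h)⟩)
    (fun p hp => by
      obtain ⟨h1, h2, h3⟩ := hK' p hp
      refine ⟨h1, h2, h3, ?_, ?_⟩
      · rw [hKb]
        have h4 := hφ p hp
        have h5 : 0 ≤ ∏ l ∈ Pr, (1 - g1 l) := hV.le
        positivity
      · intro v hv
        rw [hKb]
        exact hkill p hp v hv)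
    (by
      rw [hsumK]
      exact lt_of_lt_of_le fin low)
  -- the point
  unfold famI at hw
  rw [mem_product, Fintype.mem_piFinset] at hw
  obtain ⟨hq, hqX, hq2⟩ := PX_mem hw.2
  have hm0pos : 0 < m0 := by
    rw [hm0]
    exact prod_pos fun l hl => (mem_LV.1 hl).1.pos
  refine ⟨pt m0 k w, ?_, ?_, ?_⟩
  · unfold pt
    have h1 : 0 < ∏ i, w.1 i := prod_pos fun i _ => (hBs' _ (hw.1 i)).1.pos
    have := hq.pos
    exact Nat.mul_pos (Nat.mul_pos hm0pos h1) this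
  · unfold pt
    have h1 : ∏ i, w.1 i ≤ D1 ^ (2 * k) := by
      calc ∏ i, w.1 i ≤ ∏ _i : Fin (2 * k), D1 :=
            prod_le_prod' fun i _ => (mK1 _ (hBs (hw.1 i))).2.2.1
        _ = D1 ^ (2 * k) := by rw [prod_const, card_univ, Fintype.card_fin]
    exact (Nat.mul_le_mul (Nat.mul_le_mul_left m0 h1) hq2).trans hXy
  · intro p hp hpx hbad
    by_cases hz : p ∣ a p
    · -- the zero class
      have h1 : p ∣ pt m0 k w := (hbad.dvd_iff dvd_rfl).2 hz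
      refine pt_not_dvd (X := X) (Bs := Bs) hp (hm0' p hp (Or.inr hz)) (fun t ht => (hBs' t ht).1)
        (fun h => ?_) (hpx.trans hxX) w ?_ h1
      · exact (mK1 p (hBs h)).2.2.2 hz
      · unfold famI
        rw [mem_product, Fintype.mem_piFinset]
        exact hw
    · by_cases h0 : p ≤ D0
      · have h1 : p ∣ m0 := by
          rw [hm0]
          exact dvd_prod_of_mem _ (mem_LV.2 ⟨hp, hp.pos, h0, hz⟩)
        have h2 : p ∣ pt m0 k w := by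
          unfold pt
          exact Dvd.dvd.mul_right (Dvd.dvd.mul_right h1 _) _
        exact hz ((hbad.dvd_iff dvd_rfl).1 h2)
      · refine hgood p ?_ hbad
        rw [mem_union, mem_union]
        by_cases h1 : p ≤ D1
        · have h2 : p ∈ Pm ∪ K1 := (mM p).2 (mem_LV.2 ⟨hp, by omega, h1, hz⟩)
          rcases mem_union.1 h2 with h | h
          · exact Or.inl (Or.inl h)
          · right
            rw [hK]
            exact mem_union_left _ h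
        · by_cases h2 : p ≤ z
          · left; right
            rw [hPr]
            exact mem_LV.2 ⟨hp, by omega, h2, hz⟩
          · right
            rw [hK]
            exact mem_union_right _ (mem_LV.2 ⟨hp, by omega, hpx, hz⟩)

end Pool.MP42e49e.ER
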