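import Pool.Agent.H.MP_42e49e_nt.ER.Sift

/-!
# ER: a point which avoids all the classes
-/

set_option autoImplicit false

namespace Pool.MP42e49e.ER

open Finset Pool.Agent.H.MP_711652_nt.CH

theorem exists_inv {m l c : ℕ} (h : Nat.Coprime m l) (hl : l ≠ 0) : ∃ v, m * v ≡ c [MOD l] := by
  obtain ⟨e, _, he⟩ := Nat.exists_mul_mod_eq_of_coprime c h hl
  exact ⟨e, he⟩

/-- For a fixed tuple: the points in the class of `p`. -/
theorem tuple_le (k m0 X p : ℕ) (Bs Pr : Finset ℕ) (u : ℕ → ℕ) (Kb : ℝ) (hKb : 0 ≤ Kb)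
    (hp : p.Prime) (hup : ¬ p ∣ u p) (hpm : ¬ p ∣ m0) (hPr : ∀ l ∈ Pr, l.Prime)
    (hu : ∀ l ∈ Pr, ¬ l ∣ u l) (hm0 : ∀ l ∈ Pr, ¬ l ∣ m0) (hBs : ∀ t ∈ Bs, t.Prime ∧ t ∉ Pr)
    (hK : ∀ v : ℕ → ℕ, (∀ l ∈ Pr, ¬ l ∣ v l) →
      ∑ q ∈ (PX X).filter (fun q => q ≡ v p [MOD p] ∧ ∀ l ∈ Pr, ¬ q ≡ v l [MOD l]), thn q ≤ Kb)
    (t : Fin (2 * k) → ℕ) (ht : t ∈ Fintype.piFinset fun _ : Fin (2 * k) => Bs) :
    ∑ q ∈ PX X, thn q * (ind u p (pt m0 k (t, q)) * ∏ l ∈ Pr, (1 - ind u l (pt m0 k (t, q)))) ≤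
      Kb := by
  rw [Fintype.mem_piFinset] at ht
  by_cases hpt : p ∣ ∏ i, t i
  · refine le_trans (le_of_eq ?_) hKb
    refine sum_eq_zero fun q _ => ?_
    have h1 : ind u p (pt m0 k (t, q)) = 0 := by
      unfold ind
      rw [if_neg]
      intro h
      have h2 : p ∣ pt m0 k (t, q) := by
        unfold pt
        exact Dvd.dvd.mul_right (Dvd.dvd.mul_left hpt _) _
      exact hup ((h.dvd_iff dvd_rfl).1 h2)
    rw [h1, zero_mul, mul_zero]
  · obtain ⟨m, hm⟩ : ∃ m, m = m0 * ∏ i, t i := ⟨_, rfl⟩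
    have hpr : ∀ l ∈ Pr, ¬ l ∣ m := by
      intro l hl h
      rw [hm] at h
      rcases (hPr l hl).dvd_mul.1 h with h | h
      · exact hm0 l hl h
      · obtain ⟨i, _, hi⟩ := ((hPr l hl).prime.dvd_finset_prod_iff _).1 h
        have := (Nat.prime_dvd_prime_iff_eq (hPr l hl) (hBs _ (ht i)).1).1 hi
        exact (hBs _ (ht i)).2 (this ▸ hl)
    have hcp : ∀ l, l = p ∨ l ∈ Pr → Nat.Coprime m l := by
      intro l hl
      rcases hl with rfl | hl
      · refine ((Nat.Prime.coprime_iff_not_dvd hp).2 ?_).symm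
        intro h
        rw [hm] at h
        rcases hp.dvd_mul.1 h with h | h
        · exact hpm h
        · exact hpt h
      · exact ((Nat.Prime.coprime_iff_not_dvd (hPr l hl)).2 (hpr l hl)).symm
    have hex : ∀ l, ∃ v, (l = p ∨ l ∈ Pr) → m * v ≡ u l [MOD l] := by
      intro l
      by_cases hl : l = p ∨ l ∈ Pr
      · have hl0 : l ≠ 0 := by
          rcases hl with rfl | hl
          · exact hp.ne_zero
          · exact (hPr l hl).ne_zero
        obtain ⟨v, hv⟩ := exists_inv (c := u l) (hcp l hl) hl0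
        exact ⟨v, fun _ => hv⟩
      · exact ⟨0, fun h => absurd h hl⟩
    choose v hv using hex
    have hiff : ∀ l, (l = p ∨ l ∈ Pr) → ∀ q, (pt m0 k (t, q) ≡ u l [MOD l] ↔ q ≡ v l [MOD l]) := by
      intro l hl q
      have e : pt m0 k (t, q) = m * q := by
        unfold pt
        rw [hm]
      rw [e]
      constructor
      · intro h
        exact Nat.ModEq.cancel_left_of_coprime ((hcp l hl).symm) (h.trans (hv l hl).symm)
      · intro h
        exact (Nat.ModEq.mul_left m h).trans (hv l hl)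
    have hvl : ∀ l ∈ Pr, ¬ l ∣ v l := by
      intro l hl h
      have h1 := hv l (Or.inr hl)
      exact hu l hl ((h1.dvd_iff dvd_rfl).1 (Dvd.dvd.mul_left h _))
    refine le_trans ?_ (hK v hvl)
    rw [sum_filter]
    refine sum_le_sum fun q _ => ?_
    have hprod : 0 ≤ ∏ l ∈ Pr, (1 - ind u l (pt m0 k (t, q))) ∧
        ∏ l ∈ Pr, (1 - ind u l (pt m0 k (t, q))) ≤ 1 := by
      refine ⟨prod_nonneg fun l _ => by linarith [(ind_mem u l (pt m0 k (t, q))).2],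
        prod_le_one (fun l _ => by linarith [(ind_mem u l (pt m0 k (t, q))).2])
          fun l _ => by linarith [(ind_mem u l (pt m0 k (t, q))).1]⟩
    split_ifs with hq
    · have h1 := (ind_mem u p (pt m0 k (t, q)))
      have h2 : ind u p (pt m0 k (t, q)) * ∏ l ∈ Pr, (1 - ind u l (pt m0 k (t, q))) ≤ 1 :=
        mul_le_one₀ h1.2 hprod.1 hprod.2
      have := mul_le_mul_of_nonneg_left h2 (thn_nonneg q)
      linarith
    · by_cases h1 : q ≡ v p [MOD p]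
      · have h2 : ∃ l ∈ Pr, q ≡ v l [MOD l] := by
          by_contra hcon
          push Not at hcon
          exact hq ⟨h1, hcon⟩
        obtain ⟨l, hl, hql⟩ := h2
        have h3 : ∏ l ∈ Pr, (1 - ind u l (pt m0 k (t, q))) = 0 := by
          refine prod_eq_zero hl ?_
          unfold ind
          rw [if_pos ((hiff l (Or.inr hl) q).2 hql), sub_self]
        rw [h3, mul_zero, mul_zero]
      · have h3 : ind u p (pt m0 k (t, q)) = 0 := by
          unfold ind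
          rw [if_neg]
          intro h
          exact h1 ((hiff p (Or.inl rfl) q).1 h)
        rw [h3, zero_mul, mul_zero]

/-- If the points in the classes of `K` have less weight than the points which avoid the classes of
`Pm ∪ Pr`, some point avoids all. -/
theorem exists_good (k m0 X : ℕ) (Bs Pm Pr K : Finset ℕ) (u : ℕ → ℕ) (Kb : ℕ → ℝ)
    (hPr : ∀ l ∈ Pr, l.Prime) (hu : ∀ l ∈ Pr, ¬ l ∣ u l) (hm0 : ∀ l ∈ Pr, ¬ l ∣ m0)
    (hBs : ∀ t ∈ Bs, t.Prime ∧ t ∉ Pr)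
    (hK : ∀ p ∈ K, p.Prime ∧ ¬ p ∣ u p ∧ ¬ p ∣ m0 ∧ 0 ≤ Kb p ∧
      ∀ v : ℕ → ℕ, (∀ l ∈ Pr, ¬ l ∣ v l) →
      ∑ q ∈ (PX X).filter (fun q => q ≡ v p [MOD p] ∧ ∀ l ∈ Pr, ¬ q ≡ v l [MOD l]), thn q ≤ Kb p)
    (h : (Bs.card : ℝ) ^ (2 * k) * ∑ p ∈ K, Kb p <
      ∑ z ∈ famI k Bs (PX X), thn z.2 * ∏ p ∈ Pm ∪ Pr, (1 - ind u p (pt m0 k z))) :
    ∃ z ∈ famI k Bs (PX X), ∀ p ∈ Pm ∪ Pr ∪ K, ¬ pt m0 k z ≡ u p [MOD p] := by
  by_contra hcon
  push Not at hcon
  apply not_le.2 h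
  have h1 : ∀ z ∈ famI k Bs (PX X), thn z.2 * ∏ p ∈ Pm ∪ Pr, (1 - ind u p (pt m0 k z)) ≤
      ∑ p ∈ K, thn z.2 * (ind u p (pt m0 k z) * ∏ l ∈ Pr, (1 - ind u l (pt m0 k z))) := by
    intro z hz
    obtain ⟨f, hf⟩ : ∃ f : ℕ → ℝ, f = fun p => ind u p (pt m0 k z) := ⟨_, rfl⟩
    have hf01 : ∀ p, 0 ≤ f p ∧ f p ≤ 1 := fun p => by rw [hf]; exact ind_mem _ _ _
    have e : ∀ p, ind u p (pt m0 k z) = f p := fun p => by rw [hf]
    simp only [e]
    have hpos : ∀ p ∈ K, 0 ≤ thn z.2 * (f p * ∏ l ∈ Pr, (1 - f l)) := fun p _ =>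
      mul_nonneg (thn_nonneg _) (mul_nonneg (hf01 p).1
        (prod_nonneg fun l _ => by linarith [(hf01 l).2]))
    obtain ⟨p, hp, hhit⟩ := hcon z hz
    have hfp : f p = 1 := by
      rw [hf]
      simp only [ind]
      rw [if_pos hhit]
    rw [mem_union] at hp
    rcases hp with hp | hp
    · have h3 : ∏ p ∈ Pm ∪ Pr, (1 - f p) = 0 := prod_eq_zero hp (by rw [hfp, sub_self])
      rw [h3, mul_zero]
      exact sum_nonneg hpos
    · refine le_trans ?_ (single_le_sum hpos hp)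
      rw [hfp, one_mul]
      refine mul_le_mul_of_nonneg_left ?_ (thn_nonneg _)
      have h4 : ∏ l ∈ Pr, (1 - f l) = ∏ l ∈ Pm ∪ Pr, (if l ∈ Pr then (1 - f l) else 1) := by
        rw [prod_ite_mem, inter_eq_right.2 subset_union_right]
      rw [h4]
      refine prod_le_prod (fun l _ => by linarith [(hf01 l).2]) fun l _ => ?_
      split_ifs
      · exact le_rfl
      · linarith [(hf01 l).1]
  refine (sum_le_sum h1).trans ?_
  rw [sum_comm, mul_sum]
  refine sum_le_sum fun p hp => ?_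
  obtain ⟨a1, a2, a3, a4, a5⟩ := hK p hp
  unfold famI
  rw [sum_product]
  have h5 : ∀ t ∈ Fintype.piFinset fun _ : Fin (2 * k) => Bs,
      ∑ q ∈ PX X, thn (t, q).2 * (ind u p (pt m0 k (t, q)) *
        ∏ l ∈ Pr, (1 - ind u l (pt m0 k (t, q)))) ≤ Kb p := by
    intro t ht
    exact tuple_le k m0 X p Bs Pr u (Kb p) a4 a1 a2 a3 hPr hu hm0 hBs a5 t ht
  refine (sum_le_sum h5).trans ?_
  rw [sum_const, nsmul_eq_mul, Fintype.card_piFinset_const]
  push_cast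
  exact le_rfl

end Pool.MP42e49e.ER
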