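import Pool.Agent.H.MP_42e49e_nt.ER.KillB
import Pool.Agent.H.MP_42e49e_nt.ER.MertB

/-!
# ER: the upper bound for the points in a class modulo p
-/

set_option autoImplicit false

namespace Pool.MP42e49e.ER

open Finset Pool.Agent.H.MP_711652_nt.CH Pool.Agent.H.MP_3e6494_nt

/-- The primes used in the sieve. -/
noncomputable def SS (w p : ℕ) : Finset ℕ := (prm w).filter fun l : ℕ => 150 < Real.log l ∧ l ≠ p

lemma mem_SS {w p l : ℕ} : l ∈ SS w p ↔ (l.Prime ∧ l ≤ w) ∧ 150 < Real.log l ∧ l ≠ p := by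
  rw [SS, mem_filter, mem_prm]

/-- The constant of the small primes. -/
noncomputable def Csm : ℝ := ∑ l ∈ prm ⌊Real.exp 150⌋₊, 1 / (l : ℝ)

lemma Csm_nonneg : 0 ≤ Csm := sum_nonneg fun _ _ => by positivity

lemma sum_SS (w p : ℕ) (hw : 2 ≤ w) (hp : p.Prime) :
    Real.log (Real.log w) - 19 - Csm ≤ ∑ l ∈ SS w p, 1 / (l : ℝ) := by
  have h1 := sum_ge w hw
  have h2 : ∑ l ∈ prm w, 1 / (l : ℝ) ≤ ∑ l ∈ SS w p ∪ (prm ⌊Real.exp 150⌋₊ ∪ {p}), 1 / (l : ℝ) := by
    refine sum_le_sum_of_subset_of_nonneg ?_ fun _ _ _ => by positivity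
    intro l hl
    rw [mem_union, mem_union, mem_singleton, mem_SS, mem_prm]
    rw [mem_prm] at hl
    by_cases h3 : l = p
    · exact Or.inr (Or.inr h3)
    by_cases h4 : 150 < Real.log l
    · exact Or.inl ⟨hl, h4, h3⟩
    · refine Or.inr (Or.inl ⟨hl.1, Nat.le_floor ?_⟩)
      have h5 : (0 : ℝ) < l := by exact_mod_cast hl.1.pos
      exact (Real.log_le_iff_le_exp h5).1 (not_lt.1 h4)
  have h3 : ∑ l ∈ SS w p ∪ (prm ⌊Real.exp 150⌋₊ ∪ {p}), 1 / (l : ℝ) ≤
      ∑ l ∈ SS w p, 1 / (l : ℝ) + (Csm + 1 / (p : ℝ)) := by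
    have a1 : ∀ s t : Finset ℕ, ∑ l ∈ s ∪ t, 1 / (l : ℝ) ≤ ∑ l ∈ s, 1 / (l : ℝ) +
        ∑ l ∈ t, 1 / (l : ℝ) := by
      intro s t
      rw [← sum_union_inter]
      have : 0 ≤ ∑ l ∈ s ∩ t, 1 / (l : ℝ) := sum_nonneg fun _ _ => by positivity
      linarith
    have a2 := a1 (SS w p) (prm ⌊Real.exp 150⌋₊ ∪ {p})
    have a3 := a1 (prm ⌊Real.exp 150⌋₊) {p}
    rw [sum_singleton] at a3
    change _ ≤ Csm + 1 / (p : ℝ) at a3
    linarith
  have h4 : 1 / (p : ℝ) ≤ 1 := by
    have : (1 : ℝ) ≤ p := by exact_mod_cast hp.one_lt.le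
    rw [div_le_one (by linarith)]
    exact this
  linarith

/-- The product over the sieving primes. -/
lemma prod_SS (w p : ℕ) (Pr : Finset ℕ) (hPr : ∀ l ∈ Pr, l.Prime ∧ 150 < Real.log l)
    (hpr : p ∉ Pr) :
    ∏ l ∈ SS w p, (1 - om Pr l / l) ≤
      Real.exp (-(∑ l ∈ SS w p, 1 / (l : ℝ) + ∑ l ∈ Pr.filter (fun l => l ≤ w), 1 / (l : ℝ))) := by
  have h1 : ∏ l ∈ SS w p, (1 - om Pr l / l) ≤ ∏ l ∈ SS w p, Real.exp (-(om Pr l / l)) := by
    refine prod_le_prod (fun l hl => ?_) fun l hl => Real.one_sub_le_exp_neg _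
    rw [mem_SS] at hl
    have h2 : (2 : ℝ) ≤ l := by exact_mod_cast hl.1.1.two_le
    have h3 : om Pr l ≤ 2 := by unfold om; split_ifs <;> norm_num
    have h4 : om Pr l / l ≤ 1 := by
      rw [div_le_one (by linarith)]
      linarith
    linarith
  refine h1.trans (le_of_eq ?_)
  rw [← Real.exp_sum, sum_neg_distrib]
  congr 2
  have h2 : Pr.filter (fun l => l ≤ w) = (SS w p).filter (fun l => l ∈ Pr) := by
    ext l
    rw [mem_filter, mem_filter, mem_SS]
    constructor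
    · rintro ⟨h3, h4⟩
      exact ⟨⟨⟨(hPr l h3).1, h4⟩, (hPr l h3).2, fun h => hpr (h ▸ h3)⟩, h3⟩
    · rintro ⟨⟨⟨_, h4⟩, _⟩, h3⟩
      exact ⟨h3, h4⟩
  rw [h2, sum_filter, ← sum_add_distrib]
  refine sum_congr rfl fun l _ => ?_
  unfold om
  split_ifs <;> ring

/-- The main term. -/
lemma main_term (w p z : ℕ) (hw : 3 ≤ w) (hz : 2 ≤ z) (hp : p.Prime) (Pr : Finset ℕ)
    (hPr : ∀ l ∈ Pr, l.Prime ∧ l ≤ z ∧ 150 < Real.log l) (hpr : p ∉ Pr) :
    ∏ l ∈ SS w p, (1 - om Pr l / l) ≤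
      Real.exp (32 + Csm) * (∏ l ∈ Pr, (1 - g1 l)) *
        ((Real.log z + Real.log w) / Real.log w ^ 2) := by
  have hlw1 : 1 ≤ Real.log w := by
    have h1 : Real.log 3 ≤ Real.log w := Real.log_le_log (by norm_num) (by exact_mod_cast hw)
    have h2 : (1 : ℝ) ≤ Real.log 3 := by
      rw [Real.le_log_iff_exp_le (by norm_num)]
      have := Real.exp_one_lt_d9
      linarith
    linarith
  have hlz : 0 < Real.log z := Real.log_pos (by exact_mod_cast hz)
  have h1 := prod_SS w p Pr (fun l hl => ⟨(hPr l hl).1, (hPr l hl).2.2⟩) hpr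
  have h2 := sum_SS w p (by omega) hp
  have h3 : ∑ l ∈ Pr, 1 / (l : ℝ) ≤ ∑ l ∈ Pr.filter (fun l => l ≤ w), 1 / (l : ℝ) +
      (Real.log ((Real.log z + Real.log w) / Real.log w) + 12) := by
    rw [← sum_filter_add_sum_filter_not Pr (fun l => l ≤ w)]
    refine add_le_add le_rfl ?_
    rcases le_or_gt w z with h4 | h4
    · have h5 := sum_window w z (by omega) h4 (Pr.filter fun l => ¬ l ≤ w) (by
        intro l hl
        rw [mem_filter] at hl
        exact ⟨(hPr l hl.1).1, not_le.1 hl.2, (hPr l hl.1).2.1⟩)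
      have h6 : 12 / Real.log w ≤ 12 := by
        rw [div_le_iff₀ (by linarith)]
        linarith
      have h7 : Real.log (Real.log z) - Real.log (Real.log w) ≤
          Real.log ((Real.log z + Real.log w) / Real.log w) := by
        rw [← Real.log_div hlz.ne' (by linarith)]
        refine Real.log_le_log (div_pos hlz (by linarith)) ?_
        rw [div_le_div_iff_of_pos_right (by linarith)]
        linarith
      linarith
    · have h5 : Pr.filter (fun l => ¬ l ≤ w) = ∅ := by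
        rw [filter_eq_empty_iff]
        intro l hl h6
        have := (hPr l hl).2.1
        omega
      rw [h5, sum_empty]
      have h6 : 0 ≤ Real.log ((Real.log z + Real.log w) / Real.log w) := by
        apply Real.log_nonneg
        rw [le_div_iff₀ (by linarith)]
        linarith
      linarith
  have h4 := V_ge Pr (fun l hl => ⟨(hPr l hl).1, by
    by_contra h5
    have h6 : (l : ℝ) ≤ 5 := by exact_mod_cast (not_le.1 h5).le
    have h7 : (0 : ℝ) < l := by exact_mod_cast (hPr l hl).1.pos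
    have h8 := Real.log_le_sub_one_of_pos h7
    have h9 := (hPr l hl).2.2
    linarith⟩)
  refine h1.trans ?_
  have hR : 0 < (Real.log z + Real.log w) / Real.log w := div_pos (by linarith) (by linarith)
  calc Real.exp (-(∑ l ∈ SS w p, 1 / (l : ℝ) + ∑ l ∈ Pr.filter (fun l => l ≤ w), 1 / (l : ℝ)))
      ≤ Real.exp ((31 + Csm) + -Real.log (Real.log w) +
          Real.log ((Real.log z + Real.log w) / Real.log w) + -∑ l ∈ Pr, 1 / (l : ℝ)) := by
        refine Real.exp_le_exp.2 ?_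
        linarith
    _ = Real.exp (31 + Csm) * (Real.log w)⁻¹ * ((Real.log z + Real.log w) / Real.log w) *
          Real.exp (-∑ l ∈ Pr, 1 / (l : ℝ)) := by
        rw [Real.exp_add, Real.exp_add, Real.exp_add _ (-Real.log (Real.log w)), Real.exp_neg,
          Real.exp_log (by linarith), Real.exp_log hR]
    _ ≤ Real.exp (31 + Csm) * (Real.log w)⁻¹ * ((Real.log z + Real.log w) / Real.log w) *
          (Real.exp 1 * ∏ l ∈ Pr, (1 - g1 l)) := by
        refine mul_le_mul_of_nonneg_left ?_ (by positivity)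
        have h5 := mul_le_mul_of_nonneg_left h4 (Real.exp_pos 1).le
        rw [← mul_assoc, ← Real.exp_add, add_neg_cancel, Real.exp_zero, one_mul] at h5
        exact h5
    _ = _ := by
        rw [show (32 : ℝ) + Csm = (31 + Csm) + 1 by ring, Real.exp_add _ 1]
        field_simp

lemma exp_aux (h : ℝ) (h0 : 0 ≤ h) : h ^ 2 * Real.exp (h * (52 / 120)) ≤ 7 * Real.exp h := by
  have h1 := Real.quadratic_le_exp_of_nonneg (show 0 ≤ h * (68 / 120) by positivity)
  have h2 : Real.exp h = Real.exp (h * (52 / 120)) * Real.exp (h * (68 / 120)) := by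
    rw [← Real.exp_add]; congr 1; ring
  have h3 : h ^ 2 ≤ 7 * Real.exp (h * (68 / 120)) := by
    have : 0 ≤ h * (68 / 120) := by positivity
    nlinarith
  rw [h2]
  have h4 := mul_le_mul_of_nonneg_right h3 (Real.exp_pos (h * (52 / 120))).le
  linarith

/-- PROOF. `H = X / p`, `h = log H`; `w = ⌊exp (h / 120)⌋₊` (so `w^52 ≤ H^(1/2)`), `S` = the primes `l ≤ w`, `log l > 150`, `l ≠ p`.  `kill_one`;
`∏_S (1 - om / l) ≤ exp (- ∑_S om / l) ≤ exp (C1 - log log w - ∑_{l ∈ Pr, l ≤ w} 1 / l)` (`FF_ge`; the primes with `log l ≤ 150` and `l = p` cost a constant),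
`∑_{l ∈ Pr} 1 / l ≤ ∑_{l ∈ Pr, l ≤ w} 1 / l + max 0 (log log z - log log w) + 12`, and `∏_{Pr} (1 - g1) ≥ exp (- 1 - ∑_{Pr} 1 / l)` (`V_ge`).  So
`∏_S (1 - om / l) ≤ C2 / h * max 1 (log z / h) * ∏_{Pr} (1 - g1)`.  The term `w^52 ≤ H^(1/2)` is smaller than `H / h * ∏_{Pr} (1 - g1) * max 1 (log z / h)` as
`∏_{Pr} (1 - g1) ≥ c / log z` and `h` is large. -/
theorem kill : ∃ C H0 : ℝ, 0 < C ∧ 1 ≤ H0 ∧ ∀ (X p z : ℕ) (Pr : Finset ℕ) (u : ℕ → ℕ), p.Prime →
    2 ≤ z → (∀ l ∈ Pr, l.Prime ∧ l ≤ z ∧ 150 < Real.log l) → p ∉ Pr → (∀ l ∈ Pr, ¬ l ∣ u l) →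
    H0 ≤ Real.log ((X : ℝ) / p) →
    ∑ q ∈ (PX X).filter (fun q => q ≡ u p [MOD p] ∧ ∀ l ∈ Pr, ¬ q ≡ u l [MOD l]), thn q ≤
      C * (X / p) * (∏ l ∈ Pr, (1 - g1 l)) * Real.log X *
        ((Real.log z + Real.log ((X : ℝ) / p)) / Real.log ((X : ℝ) / p) ^ 2) := by
  refine ⟨4 * 57600 * Real.exp (32 + Csm) + 28 * Real.exp 21, 240, by positivity, by norm_num, ?_⟩
  intro X p z Pr u hp hz hPr hpr hu hH
  obtain ⟨h, hh⟩ : ∃ h, h = Real.log ((X : ℝ) / p) := ⟨_, rfl⟩
  rw [← hh] at hH ⊢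
  have hp0 : (0 : ℝ) < p := by exact_mod_cast hp.pos
  have hX1 : 1 ≤ X := by
    by_contra h1
    have h2 : X = 0 := by omega
    rw [h2, Nat.cast_zero, zero_div, Real.log_zero] at hh
    linarith
  have hX0 : (0 : ℝ) < X := by exact_mod_cast hX1
  have hXp : 0 < (X : ℝ) / p := div_pos hX0 hp0
  have hexp : Real.exp h = X / p := by rw [hh, Real.exp_log hXp]
  obtain ⟨w, hw⟩ : ∃ w, w = ⌊Real.exp (h / 120)⌋₊ := ⟨_, rfl⟩
  have hwle : (w : ℝ) ≤ Real.exp (h / 120) := by rw [hw]; exact Nat.floor_le (Real.exp_pos _).le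
  have he3 : 3 ≤ Real.exp (h / 120) := by
    have := Real.add_one_le_exp (h / 120)
    have : 2 ≤ h / 120 := by linarith
    linarith
  have hw3 : 3 ≤ w := by rw [hw]; exact Nat.le_floor (by exact_mod_cast he3)
  have hwge : Real.exp (h / 120) / 2 ≤ w := by
    have h1 := Nat.sub_one_lt_floor (Real.exp (h / 120))
    rw [← hw] at h1
    linarith
  have hlw : h / 240 ≤ Real.log w := by
    have h1 : Real.log (Real.exp (h / 120) / 2) ≤ Real.log w :=
      Real.log_le_log (by positivity) hwge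
    rw [Real.log_div (Real.exp_pos _).ne' (by norm_num), Real.log_exp] at h1
    have := Real.log_two_lt_d9
    linarith
  have hlw' : Real.log w ≤ h := by
    have h1 : Real.log w ≤ Real.log (Real.exp (h / 120)) :=
      Real.log_le_log (by exact_mod_cast (by omega : 0 < w)) hwle
    rw [Real.log_exp] at h1
    linarith
  have hp1 : (1 : ℝ) ≤ p := by exact_mod_cast hp.one_lt.le
  have hwX : w ≤ X := by
    have h1 : (w : ℝ) ≤ X := by
      refine hwle.trans ?_
      have h2 : Real.exp (h / 120) ≤ Real.exp h := Real.exp_le_exp.2 (by linarith)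
      rw [hexp] at h2
      refine h2.trans (div_le_self hX0.le hp1)
    exact_mod_cast h1
  have hX2 : (2 : ℝ) ≤ X := by
    have : (w : ℝ) ≤ X := by exact_mod_cast hwX
    have : (3 : ℝ) ≤ w := by exact_mod_cast hw3
    linarith
  have hlX : 0 ≤ Real.log X := Real.log_nonneg (by linarith)
  have hl2X : Real.log (2 * X) ≤ 2 * Real.log X := by
    rw [Real.log_mul (by norm_num) hX0.ne']
    have := Real.log_le_log (by norm_num) hX2
    linarith
  have hlz : 0 < Real.log z := Real.log_pos (by exact_mod_cast hz)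
  have k1 := kill_one X p w Pr (SS w p) u hp hX1 (by omega) hwX (by
    intro l hl
    rw [mem_SS] at hl
    exact ⟨hl.1.1, hl.1.2, hl.2⟩) hu
  have k2 := main_term w p z hw3 hz hp Pr hPr hpr
  obtain ⟨V, hV⟩ : ∃ V, V = ∏ l ∈ Pr, (1 - g1 l) := ⟨_, rfl⟩
  rw [← hV] at k2 ⊢
  -- the lower bound of the product
  have hVge : Real.exp (-21) / Real.log z ≤ V := by
    have h1 := V_ge Pr (fun l hl => ⟨(hPr l hl).1, by
      by_contra h5
      have h6 : (l : ℝ) ≤ 5 := by exact_mod_cast (not_le.1 h5).le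
      have h7 : (0 : ℝ) < l := by exact_mod_cast (hPr l hl).1.pos
      have h8 := Real.log_le_sub_one_of_pos h7
      have h9 := (hPr l hl).2.2
      linarith⟩)
    rw [← hV] at h1
    refine le_trans ?_ h1
    have h2 : ∑ l ∈ Pr, 1 / (l : ℝ) ≤ Real.log (Real.log z) + 20 := by
      refine le_trans ?_ (FF_le hz)
      refine sum_le_sum_of_subset_of_nonneg ?_ fun _ _ _ => by positivity
      intro l hl
      rw [mem_prm]
      exact ⟨(hPr l hl).1, (hPr l hl).2.1⟩
    rw [← Real.exp_add]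
    have h3 : Real.exp (-21) / Real.log z = Real.exp (-21 - Real.log (Real.log z)) := by
      rw [Real.exp_sub, Real.exp_log hlz]
    rw [h3]
    exact Real.exp_le_exp.2 (by linarith)
  have hV0 : 0 < V := lt_of_lt_of_le (by positivity) hVge
  have hR : (Real.log z + Real.log w) / Real.log w ^ 2 ≤ 57600 * ((Real.log z + h) / h ^ 2) := by
    have h1 : 0 < h / 240 := by linarith
    have h2 : (h / 240) ^ 2 ≤ Real.log w ^ 2 := pow_le_pow_left₀ h1.le hlw 2
    calc (Real.log z + Real.log w) / Real.log w ^ 2 ≤ (Real.log z + h) / (h / 240) ^ 2 := by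
          apply div_le_div₀ (by linarith) (by linarith) (by positivity) h2
      _ = 57600 * ((Real.log z + h) / h ^ 2) := by
          field_simp
          norm_num
  obtain ⟨R, hRd⟩ : ∃ R, R = (Real.log z + h) / h ^ 2 := ⟨_, rfl⟩
  rw [← hRd] at hR ⊢
  obtain ⟨E, hE⟩ : ∃ E, E = Real.exp (32 + Csm) := ⟨_, rfl⟩
  rw [← hE] at k2 ⊢
  have hE0 : 0 < E := by rw [hE]; exact Real.exp_pos _
  have t1 : ∏ l ∈ SS w p, (1 - om Pr l / l) ≤ 57600 * E * V * R := by
    refine k2.trans ?_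
    have := mul_le_mul_of_nonneg_left hR (mul_pos hE0 hV0).le
    linarith
  -- the second term
  have t2 : 2 * (w : ℝ) ^ 52 ≤ 14 * Real.exp 21 * (X / p) * V * R := by
    have h1 : (w : ℝ) ^ 52 ≤ Real.exp (h * (52 / 120)) := by
      have h2 : (w : ℝ) ^ 52 ≤ Real.exp (h / 120) ^ 52 := pow_le_pow_left₀ (by positivity) hwle 52
      refine h2.trans (le_of_eq ?_)
      rw [← Real.exp_nat_mul]
      congr 1
      push_cast
      ring
    have h2 := exp_aux h (by linarith)
    have h3 : 1 ≤ Real.exp 21 * V * (Real.log z + h) := by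
      have h4 : Real.exp (-21) / Real.log z * Real.log z ≤ V * (Real.log z + h) :=
        mul_le_mul hVge (by linarith) hlz.le hV0.le
      rw [div_mul_cancel₀ _ hlz.ne'] at h4
      have h5 := mul_le_mul_of_nonneg_left h4 (Real.exp_pos 21).le
      rw [← Real.exp_add, add_neg_cancel, Real.exp_zero] at h5
      linarith
    have hh0 : 0 < h ^ 2 := by positivity
    have h6 : h ^ 2 * (2 * (w : ℝ) ^ 52) ≤ h ^ 2 * (14 * Real.exp 21 * (X / p) * V * R) := by
      have h7 : h ^ 2 * (14 * Real.exp 21 * (X / p) * V * R) =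
          14 * (X / p) * (Real.exp 21 * V * (Real.log z + h)) := by
        rw [hRd]
        field_simp
      rw [h7, ← hexp]
      have h8 : h ^ 2 * (2 * (w : ℝ) ^ 52) ≤ 14 * Real.exp h := by
        have := mul_le_mul_of_nonneg_left h1 hh0.le
        linarith
      refine h8.trans ?_
      exact le_mul_of_one_le_right (by positivity) h3
    exact le_of_mul_le_mul_left h6 hh0
  have hl2X0 : 0 ≤ Real.log (2 * X) := Real.log_nonneg (by linarith)
  refine k1.trans ?_
  have hR0 : 0 ≤ R := by rw [hRd]; apply div_nonneg <;> [linarith; positivity]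
  have t3 : 2 * ((X : ℝ) / p) * ∏ l ∈ SS w p, (1 - om Pr l / l) + 2 * (w : ℝ) ^ 52 ≤
      (115200 * E + 14 * Real.exp 21) * (X / p) * V * R := by
    have := mul_le_mul_of_nonneg_left t1 (by positivity : 0 ≤ 2 * ((X : ℝ) / p))
    linarith
  have t4 : 0 ≤ (115200 * E + 14 * Real.exp 21) * (X / p) * V * R := by positivity
  calc Real.log (2 * X) * (2 * ((X : ℝ) / p) * ∏ l ∈ SS w p, (1 - om Pr l / l) +
        2 * (w : ℝ) ^ 52)
      ≤ Real.log (2 * X) * ((115200 * E + 14 * Real.exp 21) * (X / p) * V * R) :=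
        mul_le_mul_of_nonneg_left t3 hl2X0
    _ ≤ (2 * Real.log X) * ((115200 * E + 14 * Real.exp 21) * (X / p) * V * R) :=
        mul_le_mul_of_nonneg_right hl2X t4
    _ ≤ _ := by
        refine le_of_eq ?_
        ring

end Pool.MP42e49e.ER
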