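import Pool.Agent.H.MP_42e49e_nt.ER.Defs

/-!
# ER: counting in arithmetic progressions
-/

set_option autoImplicit false

namespace Pool.MP42e49e.ER

open Finset Pool.Agent.H.MP_711652_nt.CH Pool.Agent.H.MP_3e6494_nt

/-- The indicator of `n ≡ 0` or (`l ∈ Pr` and `n ≡ u l`) modulo `l`. -/
noncomputable def ind2 (Pr : Finset ℕ) (u : ℕ → ℕ) (l n : ℕ) : ℝ :=
  if n ≡ 0 [MOD l] ∨ (l ∈ Pr ∧ n ≡ u l [MOD l]) then 1 else 0

/-- The number of classes. -/
noncomputable def om (Pr : Finset ℕ) (l : ℕ) : ℝ := if l ∈ Pr then 2 else 1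

/-- One class. -/
private theorem KillA_count (X r c : ℕ) (hr : 0 < r) :
    |(((Ioc X (2 * X)).filter (fun n => n ≡ c [MOD r])).card : ℝ) - (X : ℝ) / r| ≤ 1 := by
  have h := Nat.Ioc_filter_modEq_card X (2 * X) hr c
  have hr' : (0 : ℚ) < (r : ℚ) := by exact_mod_cast hr
  set x : ℚ := (((2 * X : ℕ) : ℚ) - c) / r with hx
  set y : ℚ := ((X : ℚ) - c) / r with hy
  have hxy : x - y = (X : ℚ) / r := by
    rw [hx, hy]
    push_cast
    field_simp
    ring
  have hxy0 : y ≤ x := by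
    have : 0 ≤ (X : ℚ) / r := by positivity
    linarith
  have hfl : ⌊y⌋ ≤ ⌊x⌋ := Int.floor_le_floor hxy0
  rw [max_eq_left (by omega)] at h
  have h1 : ((((Ioc X (2 * X)).filter (fun n => n ≡ c [MOD r])).card : ℤ) : ℚ) =
      (⌊x⌋ : ℚ) - ⌊y⌋ := by
    rw [h]
    push_cast
    rfl
  have hq : |((((Ioc X (2 * X)).filter (fun n => n ≡ c [MOD r])).card : ℤ) : ℚ) -
      (X : ℚ) / r| ≤ 1 := by
    rw [h1, ← hxy, abs_le]
    have a1 := Int.floor_le x
    have a2 := Int.lt_floor_add_one x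
    have a3 := Int.floor_le y
    have a4 := Int.lt_floor_add_one y
    constructor <;> linarith
  have hq' : (((|((((Ioc X (2 * X)).filter (fun n => n ≡ c [MOD r])).card : ℤ) : ℚ) -
      (X : ℚ) / r| : ℚ)) : ℝ) ≤ ((1 : ℚ) : ℝ) := by exact_mod_cast hq
  push_cast at hq'
  exact hq'

/-- The two classes of one prime. -/
private theorem KillA_ind2 {Pr : Finset ℕ} {u : ℕ → ℕ} {l : ℕ} (hl : l.Prime)
    (hu : ∀ l ∈ Pr, ¬ l ∣ u l) (n : ℕ) :
    ind2 Pr u l n = (if n ≡ 0 [MOD l] then 1 else 0) +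
      (if l ∈ Pr then (if n ≡ u l [MOD l] then 1 else 0) else 0) := by
  have _ := hl
  unfold ind2
  by_cases h1 : n ≡ 0 [MOD l]
  · by_cases h2 : l ∈ Pr
    · have h3 : ¬ n ≡ u l [MOD l] := fun h3 =>
        hu l h2 ((Nat.modEq_zero_iff_dvd).1 (h3.symm.trans h1))
      simp [h1, h2, h3]
    · simp [h1, h2]
  · by_cases h2 : l ∈ Pr
    · by_cases h3 : n ≡ u l [MOD l]
      · simp [h1, h2, h3]
      · simp [h1, h2, h3]
    · simp [h1, h2]

/-- Two congruences. -/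
private theorem KillA_crt {r l : ℕ} (h : r.Coprime l) (c a : ℕ) :
    ∃ c', ∀ n, (n ≡ c [MOD r] ∧ n ≡ a [MOD l]) ↔ n ≡ c' [MOD r * l] := by
  obtain ⟨k, hk1, hk2⟩ := Nat.chineseRemainder h c a
  refine ⟨k, fun n => ?_⟩
  rw [← Nat.modEq_and_modEq_iff_modEq_mul h]
  constructor
  · rintro ⟨h1, h2⟩
    exact ⟨h1.trans hk1.symm, h2.trans hk2.symm⟩
  · rintro ⟨h1, h2⟩
    exact ⟨h1.trans hk1, h2.trans hk2⟩

private theorem KillA_gen (X : ℕ) (Pr : Finset ℕ) (u : ℕ → ℕ) (hu : ∀ l ∈ Pr, ¬ l ∣ u l)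
    (T : Finset ℕ) : ∀ (r c : ℕ), 0 < r → (∀ l ∈ T, l.Prime ∧ r.Coprime l) →
    |∑ n ∈ (Ioc X (2 * X)).filter (fun n => n ≡ c [MOD r]), ∏ l ∈ T, ind2 Pr u l n -
        (X : ℝ) / r * ∏ l ∈ T, (om Pr l / l)| ≤ ∏ l ∈ T, om Pr l := by
  classical
  induction T using Finset.induction_on with
  | empty =>
    intro r c hr _
    simp only [prod_empty, sum_const, nsmul_eq_mul, mul_one]
    exact KillA_count X r c hr
  | insert l T hlT ih =>
    intro r c hr hT
    have hl := (hT l (mem_insert_self l T)).1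
    have hrl := (hT l (mem_insert_self l T)).2
    have hl0 : (0 : ℝ) < l := by exact_mod_cast hl.pos
    have hr0 : (0 : ℝ) < r := by exact_mod_cast hr
    have hrl0 : 0 < r * l := Nat.mul_pos hr hl.pos
    have hT' : ∀ q ∈ T, q.Prime ∧ (r * l).Coprime q := by
      intro q hq
      have h1 := hT q (mem_insert_of_mem hq)
      refine ⟨h1.1, Nat.Coprime.mul_left h1.2 ?_⟩
      rw [Nat.coprime_primes hl h1.1]
      rintro rfl
      exact hlT hq
    -- the sum over one class modulo `l`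
    have hcls : ∀ a : ℕ, |∑ n ∈ (Ioc X (2 * X)).filter (fun n => n ≡ c [MOD r]),
        (if n ≡ a [MOD l] then (1 : ℝ) else 0) * ∏ l ∈ T, ind2 Pr u l n -
        (X : ℝ) / (r * l) * ∏ l ∈ T, (om Pr l / l)| ≤ ∏ l ∈ T, om Pr l := by
      intro a
      obtain ⟨c', hc'⟩ := KillA_crt hrl c a
      have h1 := ih (r * l) c' hrl0 hT'
      have h2 : ∑ n ∈ (Ioc X (2 * X)).filter (fun n => n ≡ c [MOD r]),
          (if n ≡ a [MOD l] then (1 : ℝ) else 0) * ∏ l ∈ T, ind2 Pr u l n =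
          ∑ n ∈ (Ioc X (2 * X)).filter (fun n => n ≡ c' [MOD r * l]),
            ∏ l ∈ T, ind2 Pr u l n := by
        simp only [ite_mul, one_mul, zero_mul]
        rw [← sum_filter, filter_filter]
        apply sum_congr _ fun _ _ => rfl
        apply filter_congr
        intro n _
        exact hc' n
      rw [h2]
      push_cast at h1
      exact h1
    have hsum : ∑ n ∈ (Ioc X (2 * X)).filter (fun n => n ≡ c [MOD r]),
        ∏ q ∈ insert l T, ind2 Pr u q n =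
        ∑ n ∈ (Ioc X (2 * X)).filter (fun n => n ≡ c [MOD r]),
          (if n ≡ 0 [MOD l] then (1 : ℝ) else 0) * ∏ l ∈ T, ind2 Pr u l n +
        (if l ∈ Pr then ∑ n ∈ (Ioc X (2 * X)).filter (fun n => n ≡ c [MOD r]),
          (if n ≡ u l [MOD l] then (1 : ℝ) else 0) * ∏ l ∈ T, ind2 Pr u l n else 0) := by
      by_cases hP : l ∈ Pr
      · rw [if_pos hP, ← sum_add_distrib]
        apply sum_congr rfl
        intro n _
        rw [prod_insert hlT, KillA_ind2 hl hu, if_pos hP]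
        ring
      · rw [if_neg hP, add_zero]
        apply sum_congr rfl
        intro n _
        rw [prod_insert hlT, KillA_ind2 hl hu, if_neg hP, add_zero]
    rw [hsum, prod_insert hlT, prod_insert hlT]
    have h0 := hcls 0
    have hu1 := hcls (u l)
    unfold om at h0 hu1 ⊢
    by_cases hP : l ∈ Pr
    · simp only [hP, if_true]
      rw [abs_le] at h0 hu1 ⊢
      have e : (X : ℝ) / r * ((2 : ℝ) / l * ∏ x ∈ T, ((if x ∈ Pr then (2 : ℝ) else 1) / x)) =
          2 * ((X : ℝ) / (r * l) * ∏ x ∈ T, ((if x ∈ Pr then (2 : ℝ) else 1) / x)) := by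
        field_simp
      rw [e]
      constructor <;> linarith
    · simp only [hP, if_false, add_zero, one_mul]
      have e : (X : ℝ) / r * ((1 : ℝ) / l * ∏ x ∈ T, ((if x ∈ Pr then (2 : ℝ) else 1) / x)) =
          (X : ℝ) / (r * l) * ∏ x ∈ T, ((if x ∈ Pr then (2 : ℝ) else 1) / x) := by
        field_simp
      rw [e]
      exact h0

/-- PROOF. `F n = [n ≡ c mod p] ∏_{l ∈ T} ind2 n` is periodic modulo `r = p ∏ T` and nonnegative, its sum over a period is `∏_{l ∈ T} om l` (CRT: by induction on `T`;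
compare `unit_prod_sum` in CH/ExpC, `E_prod` in G2); a sum over an interval of length `X` is between `⌊X / r⌋` and `⌊X / r⌋ + 1` times the sum over a period. -/
theorem count_ap (X p c : ℕ) (T Pr : Finset ℕ) (u : ℕ → ℕ) (hp : p.Prime)
    (hT : ∀ l ∈ T, l.Prime ∧ l ≠ p) (hu : ∀ l ∈ Pr, ¬ l ∣ u l) :
    |∑ n ∈ (Ioc X (2 * X)).filter (fun n => n ≡ c [MOD p]), ∏ l ∈ T, ind2 Pr u l n -
        (X : ℝ) / p * ∏ l ∈ T, (om Pr l / l)| ≤ ∏ l ∈ T, om Pr l :=
  KillA_gen X Pr u hu T p c hp.pos fun l hl =>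
    ⟨(hT l hl).1, (Nat.coprime_primes hp (hT l hl).1).2 (hT l hl).2.symm⟩

end Pool.MP42e49e.ER
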