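import Pool.Agent.H.MP_42e49e_nt.ER.Fl
import Pool.Agent.H.MP_42e49e_nt.ER.MertA
import Pool.Agent.H.MP_42e49e_nt.ER.KillA

/-!
# ER: the upper bound sieve in a progression modulo p
-/

set_option autoImplicit false

namespace Pool.MP42e49e.ER

open Finset Pool.Agent.H.MP_711652_nt.CH Pool.Agent.H.MP_3e6494_nt

private theorem killB_om (Pr : Finset ℕ) (l : ℕ) : 1 ≤ om Pr l ∧ om Pr l ≤ 2 := by
  unfold om
  split_ifs <;> norm_num

private theorem killB_ind2 (Pr : Finset ℕ) (u : ℕ → ℕ) (l n : ℕ) :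
    0 ≤ ind2 Pr u l n ∧ ind2 Pr u l n ≤ 1 := by
  unfold ind2
  split_ifs <;> norm_num

private theorem killB_sum (S : Finset ℕ) (hS : ∀ l ∈ S, l.Prime) (Q : ℕ) (lp : Finset ℕ → ℝ)
    (hb : ∀ T, |lp T| ≤ 1)
    (hs : ∀ T, T ⊆ S → lp T ≠ 0 → ((∏ p ∈ T, p : ℕ) : ℝ) ≤ Q) (Pr : Finset ℕ) :
    ∑ T ∈ S.powerset, |lp T| * ∏ l ∈ T, om Pr l ≤ (Q : ℝ) * (Q + 1) / 2 := by
  classical
  set A : Finset (Finset ℕ) := S.powerset.filter (fun T => lp T ≠ 0) with hA
  have h1 : ∑ T ∈ S.powerset, |lp T| * ∏ l ∈ T, om Pr l =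
      ∑ T ∈ A, |lp T| * ∏ l ∈ T, om Pr l := by
    rw [hA, sum_filter]
    apply sum_congr rfl
    intro T _
    split_ifs with h
    · rfl
    · push Not at h
      rw [h]; simp
  have h2 : ∑ T ∈ A, |lp T| * ∏ l ∈ T, om Pr l ≤ ∑ T ∈ A, ((∏ p ∈ T, p : ℕ) : ℝ) := by
    apply sum_le_sum
    intro T hT
    have hTS : T ⊆ S := mem_powerset.1 (mem_filter.1 hT).1
    have h3 : ∏ l ∈ T, om Pr l ≤ ((∏ p ∈ T, p : ℕ) : ℝ) := by
      push_cast
      apply prod_le_prod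
      · intro l _
        have := (killB_om Pr l).1
        linarith
      · intro l hl
        have h4 := (killB_om Pr l).2
        have h5 : (2 : ℝ) ≤ l := by exact_mod_cast (hS l (hTS hl)).two_le
        linarith
    have h0 : 0 ≤ ∏ l ∈ T, om Pr l := by
      apply prod_nonneg
      intro l _
      have := (killB_om Pr l).1
      linarith
    calc |lp T| * ∏ l ∈ T, om Pr l ≤ 1 * ∏ l ∈ T, om Pr l :=
          mul_le_mul_of_nonneg_right (hb T) h0
      _ ≤ _ := by rw [one_mul]; exact h3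
  have hinj : Set.InjOn (fun T : Finset ℕ => ∏ p ∈ T, p) (A : Set (Finset ℕ)) := by
    intro T hT T' hT' h
    have hTS : T ⊆ S := mem_powerset.1 (mem_filter.1 (mem_coe.1 hT)).1
    have hTS' : T' ⊆ S := mem_powerset.1 (mem_filter.1 (mem_coe.1 hT')).1
    have e1 := Nat.primeFactors_prod (s := T) (fun p hp => hS p (hTS hp))
    have e2 := Nat.primeFactors_prod (s := T') (fun p hp => hS p (hTS' hp))
    simp only at h
    rw [← e1, ← e2, h]
  have h3 : ∑ T ∈ A, ((∏ p ∈ T, p : ℕ) : ℝ) = ∑ r ∈ A.image (fun T => ∏ p ∈ T, p), (r : ℝ) := by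
    rw [sum_image hinj]
  have h4 : ∑ r ∈ A.image (fun T => ∏ p ∈ T, p), (r : ℝ) ≤ ∑ r ∈ range (Q + 1), (r : ℝ) := by
    apply sum_le_sum_of_subset_of_nonneg
    · intro r hr
      rw [mem_image] at hr
      obtain ⟨T, hT, rfl⟩ := hr
      rw [hA, mem_filter] at hT
      have := hs T (mem_powerset.1 hT.1) hT.2
      rw [mem_range]
      have h5 : (∏ p ∈ T, p) ≤ Q := by exact_mod_cast this
      omega
    · intro r _ _
      exact Nat.cast_nonneg r
  have h5 : ∑ r ∈ range (Q + 1), (r : ℝ) = (Q : ℝ) * (Q + 1) / 2 := by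
    have h6 := Finset.sum_range_id_mul_two (Q + 1)
    have h7 : ((∑ i ∈ range (Q + 1), i : ℕ) : ℝ) * 2 = ((Q + 1 : ℕ) : ℝ) * Q := by
      have : Q + 1 - 1 = Q := by omega
      rw [this] at h6
      exact_mod_cast h6
    push_cast at h7
    linarith
  rw [h1]
  calc ∑ T ∈ A, |lp T| * ∏ l ∈ T, om Pr l ≤ _ := h2
    _ = _ := h3
    _ ≤ _ := h4
    _ = _ := h5

/-- The sieve bound, for the primes of a set `S ⊆ (1, w]`.

PROOF. For a prime `q ∈ (X, 2 X]`, `q > X ≥ w`, with `q ≢ u l` for all `l ∈ Pr`, all `ind2 q` (`l ∈ S`) vanish, so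
`thn q ≤ log (2 X) * sw lp (ind2 q) S` for the upper weights of level `Q = exp (log w * 26)` of `fl` (`k = 5`, `g l = om l / l`), and this is `≥ 0` for all `n`.  Exchange the sums, `count_ap`:
`∑_n sw lp (ind2 n) S ≤ (X / p) sw lp g S + ∑_{T, ∏ T ≤ Q} ∏_T om`, and the last sum is at most `∑_{r ≤ Q} r ≤ Q (Q + 1)` (`∏_T om ≤ ∏ T`, `T ↦ ∏ T` injective).
`sw lp g S ≤ 2 ∏_S (1 - g)`. -/
theorem kill_one (X p w : ℕ) (Pr S : Finset ℕ) (u : ℕ → ℕ) (hp : p.Prime) (hX : 1 ≤ X)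
    (hw : 1 ≤ w) (hwX : w ≤ X) (hS : ∀ l ∈ S, l.Prime ∧ l ≤ w ∧ 150 < Real.log l ∧ l ≠ p)
    (hu : ∀ l ∈ Pr, ¬ l ∣ u l) :
    ∑ q ∈ (PX X).filter (fun q => q ≡ u p [MOD p] ∧ ∀ l ∈ Pr, ¬ q ≡ u l [MOD l]), thn q ≤
      Real.log (2 * X) * (2 * (X / p) * ∏ l ∈ S, (1 - om Pr l / l) + 2 * (w : ℝ) ^ 52) := by
  classical
  have hw0 : (0 : ℝ) < w := by exact_mod_cast hw
  have hX0 : (1 : ℝ) ≤ X := by exact_mod_cast hX
  have hp0 : (0 : ℝ) < p := by exact_mod_cast hp.pos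
  have hS4 : ∀ l ∈ S, (4 : ℝ) ≤ l := by
    intro l hl
    obtain ⟨h1, -, h3, -⟩ := hS l hl
    have hl0 : (0 : ℝ) < l := by exact_mod_cast h1.pos
    have h4 : Real.log l ≤ l - 1 := Real.log_le_sub_one_of_pos hl0
    linarith
  -- the weights
  obtain ⟨lp, lm, W⟩ := fl 5 le_rfl (Real.log w) (Real.log_nonneg (by exact_mod_cast hw)) S
    (fun l => om Pr l / l)
    (fun l hl => by
      obtain ⟨h1, h2, -, -⟩ := hS l hl
      exact ⟨h1, Real.log_le_log (by exact_mod_cast h1.pos) (by exact_mod_cast h2)⟩)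
    (fun l hl => by
      have h4 := hS4 l hl
      obtain ⟨a, b⟩ := killB_om Pr l
      refine ⟨by positivity, ?_⟩
      rw [div_le_div_iff₀ (by linarith) (by norm_num)]
      linarith)
    (fun v => block_le S _ (fun l hl => ⟨(hS l hl).1, (hS l hl).2.2.1⟩)
      (fun l hl => by
        have h4 := hS4 l hl
        obtain ⟨a, b⟩ := killB_om Pr l
        rw [div_le_div_iff₀ (by linarith) (by linarith)]
        nlinarith) v)
  -- the level
  have hQ : Real.exp (Real.log w * (4 * ((5 : ℕ) : ℝ) + 6)) = ((w ^ 26 : ℕ) : ℝ) := by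
    push_cast
    rw [show (4 * (5 : ℝ) + 6) = ((26 : ℕ) : ℝ) by norm_num, mul_comm, Real.exp_nat_mul,
      Real.exp_log hw0]
  have hsp := W.sp
  rw [hQ] at hsp
  -- nonnegativity
  have hsw0 : ∀ n, 0 ≤ sw lp (fun l => ind2 Pr u l n) S := by
    intro n
    refine le_trans ?_ (W.up _ (fun l _ => killB_ind2 Pr u l n))
    apply prod_nonneg
    intro l _
    have := (killB_ind2 Pr u l n).2
    linarith
  have hlog : 0 ≤ Real.log (2 * X) := Real.log_nonneg (by linarith)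
  set N : Finset ℕ := (Ioc X (2 * X)).filter (fun n => n ≡ u p [MOD p]) with hN
  -- the primes are counted
  have h1 : ∑ q ∈ (PX X).filter (fun q => q ≡ u p [MOD p] ∧ ∀ l ∈ Pr, ¬ q ≡ u l [MOD l]), thn q ≤
      ∑ n ∈ N, Real.log (2 * X) * sw lp (fun l => ind2 Pr u l n) S := by
    refine (sum_le_sum (f := thn)
      (g := fun q => Real.log (2 * X) * sw lp (fun l => ind2 Pr u l q) S) ?_).trans
      (sum_le_sum_of_subset_of_nonneg ?_ ?_)
    · intro q hq
      rw [mem_filter, PX, clp, mem_filter, mem_filter, mem_Ioc] at hq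
      obtain ⟨⟨⟨⟨hq1, hq2⟩, -⟩, hq3⟩, hq4, hq5⟩ := hq
      have h2 : thn q ≤ Real.log (2 * X) := by
        unfold thn
        rw [if_pos hq3]
        apply Real.log_le_log (by exact_mod_cast hq3.pos)
        exact_mod_cast hq2
      have h3 : (1 : ℝ) ≤ sw lp (fun l => ind2 Pr u l q) S := by
        refine le_trans (le_of_eq ?_) (W.up _ (fun l _ => killB_ind2 Pr u l q))
        symm
        apply prod_eq_one
        intro l hl
        obtain ⟨hl1, hl2, -, -⟩ := hS l hl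
        unfold ind2
        rw [if_neg, sub_zero]
        rintro (h | ⟨h, h'⟩)
        · have hdvd : l ∣ q := (Nat.modEq_zero_iff_dvd).1 h
          rcases (Nat.dvd_prime hq3).1 hdvd with h' | h'
          · exact hl1.one_lt.ne' h'
          · omega
        · exact hq5 l h h'
      calc thn q ≤ Real.log (2 * X) * 1 := by rw [mul_one]; exact h2
        _ ≤ _ := mul_le_mul_of_nonneg_left h3 hlog
    · intro q hq
      rw [mem_filter, PX, clp, mem_filter, mem_filter] at hq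
      rw [hN, mem_filter]
      exact ⟨hq.1.1.1, hq.2.1⟩
    · intro n _ _
      exact mul_nonneg hlog (hsw0 n)
  refine h1.trans ?_
  rw [← mul_sum]
  apply mul_le_mul_of_nonneg_left _ hlog
  -- exchange the sums
  have h2 : ∑ n ∈ N, sw lp (fun l => ind2 Pr u l n) S =
      ∑ T ∈ S.powerset, lp T * ∑ n ∈ N, ∏ l ∈ T, ind2 Pr u l n := by
    unfold sw
    rw [sum_comm]
    apply sum_congr rfl
    intro T _
    rw [mul_sum]
  rw [h2]
  have h3 : ∑ T ∈ S.powerset, lp T * ∑ n ∈ N, ∏ l ∈ T, ind2 Pr u l n ≤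
      ∑ T ∈ S.powerset, ((X : ℝ) / p * (lp T * ∏ l ∈ T, (om Pr l / l)) +
        |lp T| * ∏ l ∈ T, om Pr l) := by
    apply sum_le_sum
    intro T hT
    have hTS : T ⊆ S := mem_powerset.1 hT
    have h4 := count_ap X p (u p) T Pr u hp
      (fun l hl => ⟨(hS l (hTS hl)).1, (hS l (hTS hl)).2.2.2⟩) hu
    rw [← hN] at h4
    have h5 : lp T * (∑ n ∈ N, ∏ l ∈ T, ind2 Pr u l n - (X : ℝ) / p * ∏ l ∈ T, (om Pr l / l)) ≤
        |lp T| * ∏ l ∈ T, om Pr l := by
      refine (le_abs_self _).trans ?_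
      rw [abs_mul]
      exact mul_le_mul_of_nonneg_left h4 (abs_nonneg _)
    have h6 : lp T * (∑ n ∈ N, ∏ l ∈ T, ind2 Pr u l n -
        (X : ℝ) / p * ∏ l ∈ T, (om Pr l / l)) =
        lp T * ∑ n ∈ N, ∏ l ∈ T, ind2 Pr u l n -
          (X : ℝ) / p * (lp T * ∏ l ∈ T, (om Pr l / l)) := by ring
    rw [h6] at h5
    linarith
  refine h3.trans ?_
  rw [sum_add_distrib, ← mul_sum]
  apply add_le_add
  · -- the main term
    have h4 : sw lp (fun l => om Pr l / l) S ≤ 2 * ∏ l ∈ S, (1 - om Pr l / l) := by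
      refine W.gp.trans ?_
      have h5 : 0 ≤ ∏ l ∈ S, (1 - om Pr l / l) := by
        apply prod_nonneg
        intro l hl
        have h4 := hS4 l hl
        obtain ⟨a, b⟩ := killB_om Pr l
        rw [sub_nonneg, div_le_one (by linarith)]
        linarith
      apply mul_le_mul_of_nonneg_right _ h5
      norm_num
    have h5 : (X : ℝ) / p * sw lp (fun l => om Pr l / l) S ≤
        (X : ℝ) / p * (2 * ∏ l ∈ S, (1 - om Pr l / l)) :=
      mul_le_mul_of_nonneg_left h4 (by positivity)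
    unfold sw at h5
    calc (X : ℝ) / p * ∑ T ∈ S.powerset, lp T * ∏ l ∈ T, (om Pr l / l)
        ≤ (X : ℝ) / p * (2 * ∏ l ∈ S, (1 - om Pr l / l)) := h5
      _ = 2 * (X / p) * ∏ l ∈ S, (1 - om Pr l / l) := by ring
  · -- the error term
    refine (killB_sum S (fun l hl => (hS l hl).1) (w ^ 26) lp W.bp hsp Pr).trans ?_
    push_cast
    have h4 : (1 : ℝ) ≤ (w : ℝ) ^ 26 := one_le_pow₀ (by exact_mod_cast hw)
    have h5 : (w : ℝ) ^ 52 = (w : ℝ) ^ 26 * (w : ℝ) ^ 26 := by rw [← pow_add]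
    rw [h5]
    nlinarith

end Pool.MP42e49e.ER
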