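import Pool.Agent.H.MP_42e49e_nt.ER.Finish
import Pool.Agent.H.MP_42e49e_nt.ER.MertB
import Pool.Agent.H.MP_42e49e_nt.ER.MertA

/-!
# ER: sizes of the parameters
-/

set_option autoImplicit false

namespace Pool.MP42e49e.ER

open Finset Pool.Agent.H.MP_711652_nt.CH

/-- The first parameter. -/
noncomputable def dA (z : ℕ) : ℕ := ⌊Real.sqrt (Real.log z)⌋₊

/-- The second parameter. -/
noncomputable def dB (r : ℝ) : ℕ := ⌊r ^ 48⌋₊

theorem sqrt_ge {z : ℕ} {r : ℝ} (hr : 0 ≤ r) (h : r ^ 2 ≤ Real.log z) :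
    r ≤ Real.sqrt (Real.log z) := Real.le_sqrt_of_sq_le h

theorem dA_ge {z : ℕ} {r : ℝ} (hr : 2 ≤ r) (h : r ^ 2 ≤ Real.log z) : r / 2 ≤ dA z := by
  have h1 := sqrt_ge (by linarith) h
  have h2 := Nat.lt_floor_add_one (Real.sqrt (Real.log z))
  unfold dA
  linarith

theorem dA_le (z : ℕ) : (dA z : ℝ) ≤ Real.sqrt (Real.log z) :=
  Nat.floor_le (Real.sqrt_nonneg _)

theorem dB_le {r : ℝ} (hr : 0 ≤ r) : (dB r : ℝ) ≤ r ^ 48 := Nat.floor_le (by positivity)

theorem dB_ge {r : ℝ} (hr : 2 ≤ r) : r ^ 48 / 2 ≤ dB r := by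
  have h2 := Nat.lt_floor_add_one (r ^ 48)
  have h3 : (2 : ℝ) ^ 48 ≤ r ^ 48 := pow_le_pow_left₀ (by norm_num) hr 48
  have h4 : (2 : ℝ) ≤ 2 ^ 48 := by norm_num
  unfold dB
  linarith

theorem dB_ge' {r : ℝ} (hr : 2 ≤ r) : r ^ 47 ≤ dB r := by
  refine le_trans ?_ (dB_ge hr)
  have h1 : r ^ 48 = r ^ 47 * r := by ring
  have h2 : 0 < r ^ 47 := by positivity
  rw [h1]
  nlinarith

/-- The sizes: `log x = r^4`, `ρ = log r`. -/
structure Sz (x z : ℕ) (r ρ : ℝ) : Prop where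
  hx : Real.log x = r ^ 4
  hρ : ρ = Real.log r
  hr2 : 2 ≤ r
  hρ1 : 1000 ≤ ρ
  hA : 200000 * ρ + 10 ≤ r / 2
  hz : r ^ 2 ≤ Real.log z
  hz2 : Real.log z ≤ r ^ 4 / 1000

variable {x z : ℕ} {r ρ : ℝ}

theorem Sz.r_pos (h : Sz x z r ρ) : 0 < r := by linarith [h.hr2]

theorem Sz.x_pos (h : Sz x z r ρ) : 0 < (x : ℝ) := by
  have h1 := h.hx
  have h2 := h.r_pos
  rcases Nat.eq_zero_or_pos x with h3 | h3
  · rw [h3] at h1
    simp only [Nat.cast_zero, Real.log_zero] at h1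
    have : 0 < r ^ 4 := by positivity
    linarith
  · exact_mod_cast h3

theorem Sz.z_pos (h : Sz x z r ρ) : 0 < (z : ℝ) := by
  have h1 := h.hz
  have h2 := h.r_pos
  rcases Nat.eq_zero_or_pos z with h3 | h3
  · rw [h3] at h1
    simp only [Nat.cast_zero, Real.log_zero] at h1
    have : 0 < r ^ 2 := by positivity
    linarith
  · exact_mod_cast h3

theorem Sz.log_pow (h : Sz x z r ρ) (n : ℕ) : Real.log (r ^ n) = n * ρ := by
  rw [Real.log_pow, h.hρ]

theorem Sz.dA_dB (h : Sz x z r ρ) : dA z ≤ dB r := by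
  unfold dA dB
  refine Nat.floor_le_floor ?_
  have h1 : Real.sqrt (Real.log z) ≤ r ^ 2 := by
    refine Real.sqrt_le_iff.2 ⟨by positivity, ?_⟩
    have h2 := h.hz2
    have h3 : (r ^ 2) ^ 2 = r ^ 4 := by ring
    have h4 : 0 ≤ r ^ 4 := by positivity
    rw [h3]
    linarith
  exact h1.trans (pow_le_pow_right₀ (by linarith [h.hr2]) (by norm_num))

theorem Sz.r48_le (h : Sz x z r ρ) : r ^ 48 ≤ z := by
  have h0 := h.r_pos
  have h1 : Real.log (r ^ 48) ≤ Real.log z := by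
    rw [h.log_pow]
    have h2 := h.hz
    have h3 := h.hA
    have h4 : r ≤ r ^ 2 := by nlinarith [h.hr2]
    push_cast
    linarith [h.hρ1]
  exact (Real.log_le_log_iff (by positivity) h.z_pos).1 h1

theorem Sz.dB_z (h : Sz x z r ρ) : dB r ≤ z := by
  have h1 := (dB_le h.r_pos.le).trans h.r48_le
  exact_mod_cast h1

theorem Sz.z_x (h : Sz x z r ρ) : z ≤ x := by
  have h1 : Real.log z ≤ Real.log x := by
    rw [h.hx]
    have h2 := h.hz2
    have h3 := h.r_pos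
    have : 0 ≤ r ^ 4 := by positivity
    linarith
  have h2 := (Real.log_le_log_iff h.z_pos h.x_pos).1 h1
  exact_mod_cast h2

theorem Sz.dA_ge (h : Sz x z r ρ) : r / 2 ≤ dA z := ER.dA_ge h.hr2 h.hz

theorem Sz.dA_256 (h : Sz x z r ρ) : (256 : ℝ) ≤ dA z := by
  have h1 := h.dA_ge
  have h2 := h.hA
  have h3 := h.hρ1
  linarith

theorem Sz.log_dA (h : Sz x z r ρ) : ρ - 1 ≤ Real.log (dA z) := by
  have h1 := h.dA_ge
  have h0 := h.r_pos
  have h2 : Real.log (r / 2) ≤ Real.log (dA z) := Real.log_le_log (by linarith) h1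
  rw [Real.log_div h0.ne' (by norm_num), ← h.hρ] at h2
  have := Real.log_two_lt_d9
  linarith

theorem Sz.log_dB (h : Sz x z r ρ) : Real.log (dB r) ≤ 48 * ρ := by
  have h1 := dB_le h.r_pos.le
  have h2 : 0 < (dB r : ℝ) := by
    have := dB_ge' h.hr2
    have h3 : 0 < r ^ 47 := by have := h.r_pos; positivity
    linarith
  have h3 := Real.log_le_log h2 h1
  rw [h.log_pow] at h3
  push_cast at h3
  exact h3

theorem Sz.log_dB' (h : Sz x z r ρ) : 47 * ρ ≤ Real.log (dB r) := by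
  have h1 := dB_ge' h.hr2
  have h0 := h.r_pos
  have h3 := Real.log_le_log (by positivity) h1
  rw [h.log_pow] at h3
  push_cast at h3
  exact h3

theorem m0_le (a : ℕ → ℕ) (D : ℕ) : ∏ l ∈ LV a 0 D, l ≤ 4 ^ D := by
  refine le_trans ?_ (primorial_le_four_pow D)
  unfold primorial
  refine Finset.prod_le_prod_of_subset_of_one_le' ?_ ?_
  · intro l hl
    obtain ⟨h1, _, h3, _⟩ := mem_LV.1 hl
    rw [mem_filter, mem_range]
    exact ⟨by omega, h1⟩
  · intro l hl _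
    exact (mem_filter.1 hl).2.one_lt.le

theorem m0_pos (a : ℕ → ℕ) (D : ℕ) : 0 < ∏ l ∈ LV a 0 D, l :=
  prod_pos fun l hl => (mem_LV.1 hl).1.pos

/-- The length. -/
noncomputable def XX (a : ℕ → ℕ) (y z : ℕ) (r : ℝ) : ℕ :=
  y / (2 * (∏ l ∈ LV a 0 (dA z), l) * dB r ^ 4032)

theorem Sz.M_le (h : Sz x z r ρ) (a : ℕ → ℕ) :
    Real.log (2 * ((2 * (∏ l ∈ LV a 0 (dA z), l) * dB r ^ 4032 : ℕ) : ℝ)) ≤
      2 * Real.sqrt (Real.log z) := by
  obtain ⟨m, hm⟩ : ∃ m, m = ∏ l ∈ LV a 0 (dA z), l := ⟨_, rfl⟩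
  have hm0 : 0 < m := by rw [hm]; exact m0_pos a _
  have hm1 : (m : ℝ) ≤ 4 ^ (dA z) := by
    rw [hm]
    exact_mod_cast m0_le a (dA z)
  rw [← hm]
  have hmr : (0 : ℝ) < m := by exact_mod_cast hm0
  have hdB : 0 < (dB r : ℝ) := by
    have := dB_ge' h.hr2
    have h3 : 0 < r ^ 47 := by have := h.r_pos; positivity
    linarith
  push_cast
  have e : (2 : ℝ) * (2 * m * (dB r : ℝ) ^ 4032) = 4 * (m * (dB r : ℝ) ^ 4032) := by ring
  rw [e, Real.log_mul (by norm_num) (by positivity), Real.log_mul hmr.ne' (by positivity),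
    Real.log_pow]
  have h1 : Real.log m ≤ dA z * Real.log 4 := by
    have := Real.log_le_log hmr hm1
    rwa [Real.log_pow] at this
  have h4 : Real.log 4 = 2 * Real.log 2 := by
    rw [show (4 : ℝ) = 2 ^ 2 by norm_num, Real.log_pow]
    norm_num
  have h5 := Real.log_two_lt_d9
  have h5' := Real.log_two_gt_d9
  have h6 := dA_le z
  have h7 := h.log_dB
  have h8 := sqrt_ge h.r_pos.le h.hz
  have h9 := h.hA
  have h10 : (dA z : ℝ) * Real.log 4 ≤ Real.sqrt (Real.log z) * (3 / 2) :=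
    mul_le_mul h6 (by linarith) (by linarith) (Real.sqrt_nonneg _)
  push_cast
  nlinarith

theorem Sz.XX_facts (h : Sz x z r ρ) (a : ℕ → ℕ) {y : ℕ}
    (hy : 4 * Real.sqrt (Real.log z) ≤ Real.log ((y : ℝ) / x)) :
    (y : ℝ) / Real.exp (2 * Real.sqrt (Real.log z)) ≤ XX a y z r ∧
      x * Real.exp (2 * Real.sqrt (Real.log z)) ≤ XX a y z r := by
  obtain ⟨s, hs⟩ : ∃ s, s = Real.sqrt (Real.log z) := ⟨_, rfl⟩
  have hs1 : r ≤ s := by rw [hs]; exact sqrt_ge h.r_pos.le h.hz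
  have hM := h.M_le a
  rw [← hs] at hM hy ⊢
  obtain ⟨M, hMd⟩ : ∃ M : ℕ, M = 2 * (∏ l ∈ LV a 0 (dA z), l) * dB r ^ 4032 := ⟨_, rfl⟩
  rw [← hMd] at hM
  have hX : XX a y z r = y / M := by rw [hMd]; rfl
  have hdB0 : 0 < dB r := by
    have := dB_ge' h.hr2
    have h3 : 0 < r ^ 47 := by have := h.r_pos; positivity
    have h4 : (0 : ℝ) < dB r := by linarith
    exact_mod_cast h4
  have hM0 : 0 < M := by
    rw [hMd]
    exact Nat.mul_pos (Nat.mul_pos (by norm_num) (m0_pos a _)) (pow_pos hdB0 _)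
  have hMr : (0 : ℝ) < M := by exact_mod_cast hM0
  have hx0 := h.x_pos
  have hy0 : (0 : ℝ) < y := by
    rcases Nat.eq_zero_or_pos y with h3 | h3
    · rw [h3] at hy
      simp only [Nat.cast_zero, zero_div, Real.log_zero] at hy
      have := h.r_pos
      linarith
    · exact_mod_cast h3
  have h1 : 2 * (M : ℝ) ≤ Real.exp (2 * s) := by
    rw [← Real.log_le_iff_le_exp (by positivity)]
    exact hM
  have h2 : x * Real.exp (4 * s) ≤ y := by
    have := (Real.le_log_iff_exp_le (by positivity)).1 hy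
    rw [le_div_iff₀ hx0] at this
    linarith
  have h3 : Real.exp (4 * s) = Real.exp (2 * s) * Real.exp (2 * s) := by
    rw [← Real.exp_add]
    ring_nf
  have hx1 : (1 : ℝ) ≤ x := by
    have : 0 < x := by exact_mod_cast hx0
    exact_mod_cast this
  have h4 : (1 : ℝ) ≤ Real.exp (2 * s) := Real.one_le_exp (by linarith [h.r_pos])
  have h5 : (y : ℝ) / M - 1 ≤ XX a y z r := by
    rw [hX]
    have := Nat.lt_floor_add_one ((y : ℝ) / M)
    rw [Nat.floor_div_natCast, Nat.floor_natCast] at this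
    linarith
  have h6 : 1 ≤ (y : ℝ) / (2 * M) := by
    rw [le_div_iff₀ (by positivity)]
    have : Real.exp (2 * s) ≤ x * Real.exp (4 * s) := by
      rw [h3]
      have h7 : Real.exp (2 * s) * 1 ≤ Real.exp (2 * s) * Real.exp (2 * s) :=
        mul_le_mul_of_nonneg_left h4 (Real.exp_pos _).le
      have h8 : 1 * (Real.exp (2 * s) * Real.exp (2 * s)) ≤
          x * (Real.exp (2 * s) * Real.exp (2 * s)) :=
        mul_le_mul_of_nonneg_right hx1 (by positivity)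
      linarith
    linarith
  have h7 : (y : ℝ) / M = y / (2 * M) + y / (2 * M) := by
    field_simp
    ring
  have h8 : (y : ℝ) / Real.exp (2 * s) ≤ y / (2 * M) :=
    div_le_div_of_nonneg_left hy0.le (by positivity) h1
  have h9 : x * Real.exp (2 * s) ≤ y / Real.exp (2 * s) := by
    rw [le_div_iff₀ (Real.exp_pos _)]
    rw [h3] at h2
    linarith
  constructor <;> linarith

end Pool.MP42e49e.ER
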