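import Pool.Agent.H.MP_42e49e_nt.ER.Defs

/-!
# ER: the sum over the conductors with a large prime factor
-/

set_option autoImplicit false

namespace Pool.MP42e49e.ER

open Finset Pool.Agent.H.MP_711652_nt.CH

private theorem Rbv2_Zs_nonneg (S : Finset ℕ) (θ : ℕ → ℝ) (r : ℕ) : 0 ≤ Zs S θ r :=
  sum_nonneg fun _ _ => norm_nonneg _

private theorem Rbv2_inj {T T' : Finset ℕ} (hT : ∀ p ∈ T, p.Prime) (hT' : ∀ p ∈ T', p.Prime)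
    (h : ∏ p ∈ T, p = ∏ p ∈ T', p) : T = T' := by
  have h1 : (∏ p ∈ T, p).primeFactors = T := Nat.primeFactors_prod hT
  have h2 : (∏ p ∈ T', p).primeFactors = T' := Nat.primeFactors_prod hT'
  rw [← h1, ← h2, h]

/-- PROOF. As `rbv_rough` (CH/RbvUse): `T ↦ r = ∏ T` is injective, `∏_T 4 / p ≤ r^(-3/4)` as `4 ≤ p^(1/4)`, `r ≥ D`, `r ≤ Q`; dyadic decomposition and `rbv_Ioc`
with `X₁ = X`, `X₂ = 2 X`, `W = 1`, `b = 0` and the natural number `⌊Q⌋₊`. -/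
theorem rbv_big : ∃ C : ℝ, 0 < C ∧ ∀ (X : ℕ) (Q : ℝ) (Pm Pr : Finset ℕ) (D : ℝ), 3 ≤ X → 1 ≤ Q →
    Q ^ 16 ≤ X → 2 ≤ D → (∀ p ∈ Pm ∪ Pr, p.Prime ∧ 256 ≤ p) → (∀ p ∈ Pr, D ≤ (p : ℝ)) →
    E2 Pm Pr Q (Zs (PX X) thn) ≤ C * X * (1 + Real.log X) ^ 5 * D ^ (-(3 / 4 : ℝ)) := by
  obtain ⟨C, hC, h⟩ := rbv_Ioc
  obtain ⟨q, hq⟩ : ∃ q : ℝ, q = (2 : ℝ) ^ (-(3 / 4 : ℝ)) := ⟨_, rfl⟩
  have hq0 : 0 < q := by rw [hq]; positivity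
  have hq1 : q < 1 := by
    rw [hq]
    exact Real.rpow_lt_one_of_one_lt_of_neg (by norm_num) (by norm_num)
  have hqn : ∀ j : ℕ, q ^ j = ((2 : ℝ) ^ j) ^ (-(3 / 4 : ℝ)) := by
    intro j
    rw [hq, ← Real.rpow_natCast, ← Real.rpow_mul (by norm_num), ← Real.rpow_natCast,
      ← Real.rpow_mul (by norm_num), mul_comm]
  refine ⟨C / (q * (1 - q)), div_pos hC (mul_pos hq0 (by linarith)),
    fun X Q Pm Pr D hX hQ hQX hD hP hPr => ?_⟩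
  have hX0 : (0 : ℝ) < X := by positivity
  have hX3 : (3 : ℝ) ≤ X := by exact_mod_cast hX
  have hL0 : 0 ≤ Real.log X := Real.log_nonneg (by linarith)
  have hD0 : 0 < D := by linarith
  have hQ0 : 0 ≤ Q := by linarith
  have hQn : 1 ≤ ⌊Q⌋₊ := by
    rw [Nat.one_le_floor_iff]
    exact hQ
  have hQle : ((⌊Q⌋₊ : ℕ) : ℝ) ≤ Q := Nat.floor_le hQ0
  have hQX' : (1 * ⌊Q⌋₊ ^ 2) ^ 8 ≤ X := by
    have h1 : (((1 * ⌊Q⌋₊ ^ 2) ^ 8 : ℕ) : ℝ) ≤ (X : ℝ) := by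
      push_cast
      calc (1 * ((⌊Q⌋₊ : ℕ) : ℝ) ^ 2) ^ 8 = ((⌊Q⌋₊ : ℕ) : ℝ) ^ 16 := by ring
        _ ≤ Q ^ 16 := pow_le_pow_left₀ (Nat.cast_nonneg _) hQle 16
        _ ≤ X := hQX
    exact_mod_cast h1
  obtain ⟨M, hM⟩ : ∃ M : ℝ, M = C * ((X : ℝ) / ((1 : ℕ) : ℝ)) * (1 + Real.log X) ^ 5 := ⟨_, rfl⟩
  have hM0 : 0 ≤ M := by rw [hM]; positivity
  obtain ⟨I, hI⟩ : ∃ I, I = (Pm ∪ Pr).powerset.filter
      (fun T => ¬ Disjoint T Pr ∧ ((∏ p ∈ T, p : ℕ) : ℝ) ≤ Q) := ⟨_, rfl⟩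
  have hIm : ∀ T ∈ I, (∃ p ∈ T, p ∈ Pr) ∧ T ⊆ Pm ∪ Pr ∧ ∏ p ∈ T, p ≤ ⌊Q⌋₊ := by
    intro T hT
    rw [hI, mem_filter, mem_powerset] at hT
    refine ⟨?_, hT.1, Nat.le_floor hT.2.2⟩
    obtain ⟨p, hp1, hp2⟩ := Finset.not_disjoint_iff.1 hT.2.1
    exact ⟨p, hp1, hp2⟩
  obtain ⟨Z, hZ⟩ : ∃ Z : ℕ → ℝ, Z = Zs (PX X) thn := ⟨_, rfl⟩
  have hZ0 : ∀ r, 0 ≤ Z r := by
    intro r
    rw [hZ]
    exact Rbv2_Zs_nonneg _ _ _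
  -- the weights
  have hw : ∀ T ∈ I, ∏ p ∈ T, 4 / (p : ℝ) ≤ ((∏ p ∈ T, p : ℕ) : ℝ) ^ (-(3 / 4 : ℝ)) := by
    intro T hT
    push_cast
    rw [← Real.finsetProd_rpow T (fun p : ℕ => (p : ℝ)) (fun p _ => Nat.cast_nonneg p)]
    refine prod_le_prod (fun p _ => by positivity) fun p hp => ?_
    obtain ⟨hpp, h256⟩ := hP p ((hIm T hT).2.1 hp)
    have h256' : (256 : ℝ) ≤ p := by exact_mod_cast h256
    have hp0 : (0 : ℝ) < p := by linarith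
    have h3 : (4 : ℝ) ≤ (p : ℝ) ^ (1 / 4 : ℝ) := by
      have h4 : ((4 : ℝ) ^ (4 : ℝ)) ^ (1 / 4 : ℝ) = 4 := by
        rw [← Real.rpow_mul (by norm_num)]
        norm_num
      have h5 : (4 : ℝ) ^ (4 : ℝ) ≤ p := by
        have h6 : (4 : ℝ) ^ (4 : ℝ) = 256 := by
          rw [show (4 : ℝ) ^ (4 : ℝ) = (4 : ℝ) ^ ((4 : ℕ) : ℝ) by norm_num, Real.rpow_natCast]
          norm_num
        rw [h6]
        exact h256'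
      calc (4 : ℝ) = ((4 : ℝ) ^ (4 : ℝ)) ^ (1 / 4 : ℝ) := h4.symm
        _ ≤ (p : ℝ) ^ (1 / 4 : ℝ) := Real.rpow_le_rpow (by positivity) h5 (by norm_num)
    calc 4 / (p : ℝ) ≤ (p : ℝ) ^ (1 / 4 : ℝ) / p := div_le_div_of_nonneg_right h3 hp0.le
      _ = (p : ℝ) ^ (-(3 / 4 : ℝ)) := by
        rw [div_eq_mul_inv, ← Real.rpow_neg_one, ← Real.rpow_add hp0]
        norm_num
  -- the values
  obtain ⟨R, hR⟩ : ∃ R : Finset ℕ, R = I.image (fun T => ∏ p ∈ T, p) := ⟨_, rfl⟩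
  have hRm : ∀ r ∈ R, 1 < r ∧ r ≤ ⌊Q⌋₊ ∧ D ≤ (r : ℝ) := by
    intro r hr
    rw [hR, mem_image] at hr
    obtain ⟨T, hT, rfl⟩ := hr
    obtain ⟨⟨p, hp, hpr⟩, hTP, hTQ⟩ := hIm T hT
    have hpos : 0 < ∏ p ∈ T, p := prod_pos fun p hp => (hP p (hTP hp)).1.pos
    have hple : p ≤ ∏ p ∈ T, p := Nat.le_of_dvd hpos (dvd_prod_of_mem _ hp)
    refine ⟨lt_of_lt_of_le (hP p (hTP hp)).1.one_lt hple, hTQ, ?_⟩
    exact (hPr p hpr).trans (by exact_mod_cast hple)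
  have hsum1 : ∑ T ∈ I, (∏ p ∈ T, 4 / (p : ℝ)) * Z (∏ p ∈ T, p) ≤
      ∑ r ∈ R, (r : ℝ) ^ (-(3 / 4 : ℝ)) * Z r := by
    rw [hR, sum_image (fun T hT T' hT' hTT => Rbv2_inj
      (fun p hp => (hP p ((hIm T hT).2.1 hp)).1) (fun p hp => (hP p ((hIm T' hT').2.1 hp)).1) hTT)]
    exact sum_le_sum fun T hT => mul_le_mul_of_nonneg_right (hw T hT) (hZ0 _)
  -- dyadic decomposition
  obtain ⟨j0, hj0⟩ : ∃ j0, j0 = Nat.log 2 ⌈D⌉₊ := ⟨_, rfl⟩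
  have hDj : D ≤ (2 : ℝ) ^ (j0 + 1) := by
    have h3 : ⌈D⌉₊ < 2 ^ (j0 + 1) := by
      rw [hj0]
      exact Nat.lt_pow_succ_log_self (by norm_num) _
    have h4 : ((⌈D⌉₊ : ℕ) : ℝ) ≤ (2 : ℝ) ^ (j0 + 1) := by exact_mod_cast h3.le
    exact (Nat.le_ceil D).trans h4
  have hmaps : ∀ r ∈ R, Nat.log 2 r ∈ Ico j0 (Nat.log 2 ⌊Q⌋₊ + 1) := by
    intro r hr
    obtain ⟨_, h4, h6⟩ := hRm r hr
    rw [mem_Ico]
    refine ⟨?_, Nat.lt_succ_of_le (Nat.log_mono_right h4)⟩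
    rw [hj0]
    exact Nat.log_mono_right (Nat.ceil_le.2 h6)
  have hsum2 : ∑ r ∈ R, (r : ℝ) ^ (-(3 / 4 : ℝ)) * Z r ≤
      ∑ j ∈ Ico j0 (Nat.log 2 ⌊Q⌋₊ + 1), q ^ j * M := by
    rw [← sum_fiberwise_of_maps_to hmaps]
    refine sum_le_sum fun j _ => ?_
    have h3 : ∀ r ∈ R.filter (fun r => Nat.log 2 r = j),
        (r : ℝ) ^ (-(3 / 4 : ℝ)) * Z r ≤ q ^ j * Z r := by
      intro r hr
      rw [mem_filter] at hr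
      refine mul_le_mul_of_nonneg_right ?_ (hZ0 r)
      rw [hqn]
      have h4 : 2 ^ j ≤ r := by
        rw [← hr.2]
        exact Nat.pow_log_le_self 2 (by have := (hRm r hr.1).1; omega)
      have h5 : (2 : ℝ) ^ j ≤ r := by exact_mod_cast h4
      exact Real.rpow_le_rpow_of_nonpos (by positivity) h5 (by norm_num)
    refine (sum_le_sum h3).trans ?_
    rw [← mul_sum]
    refine mul_le_mul_of_nonneg_left ?_ (by positivity)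
    rw [hZ, hM]
    exact h X X (2 * X) 1 0 ⌊Q⌋₊ _ hX le_rfl (by omega) (by omega) one_pos
      (by norm_num) hQn hQX' fun r hr => by
      obtain ⟨a1, a2, _⟩ := hRm r (mem_filter.1 hr).1
      exact ⟨a1, a2, Nat.coprime_one_left r⟩
  have hgeo : ∑ j ∈ Ico j0 (Nat.log 2 ⌊Q⌋₊ + 1), q ^ j ≤ q ^ j0 / (1 - q) :=
    geom_sum_Ico_le_of_lt_one hq0.le hq1
  have hqD : q ^ j0 ≤ D ^ (-(3 / 4 : ℝ)) / q := by
    rw [le_div_iff₀ hq0, ← pow_succ, hqn]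
    exact Real.rpow_le_rpow_of_nonpos hD0 hDj (by norm_num)
  unfold E2
  rw [← hI, ← hZ]
  refine hsum1.trans (hsum2.trans ?_)
  rw [← sum_mul]
  have h1q : 0 < 1 - q := by linarith
  calc (∑ j ∈ Ico j0 (Nat.log 2 ⌊Q⌋₊ + 1), q ^ j) * M
      ≤ (q ^ j0 / (1 - q)) * M := mul_le_mul_of_nonneg_right hgeo hM0
    _ ≤ (D ^ (-(3 / 4 : ℝ)) / q / (1 - q)) * M :=
        mul_le_mul_of_nonneg_right (div_le_div_of_nonneg_right hqD h1q.le) hM0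
    _ = C / (q * (1 - q)) * X * (1 + Real.log X) ^ 5 * D ^ (-(3 / 4 : ℝ)) := by
        rw [hM, Nat.cast_one, div_one]
        field_simp

end Pool.MP42e49e.ER
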