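import Pool.Agent.H.MP_42e49e_nt.ER.TauA
import Pool.Agent.H.MP_711652_nt.CH.LsMul

/-!
# ER: the large sieve for products of primes of a block
-/

set_option autoImplicit false

namespace Pool.MP42e49e.ER

open Finset Pool.Agent.H.MP_711652_nt.CH

private theorem Tau_pow {r : ℕ} (k : ℕ) (Bs : Finset ℕ) (χ : DirichletCharacter ℂ r) :
    (∑ t ∈ Bs, χ (t : ZMod r)) ^ k =
      ∑ m ∈ (Fintype.piFinset fun _ : Fin k => Bs).image (fun t => ∏ i, t i),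
        (rep k Bs m : ℂ) * χ (m : ZMod r) := by
  have h1 : (∑ t ∈ Bs, χ (t : ZMod r)) ^ k =
      ∑ f ∈ Fintype.piFinset fun _ : Fin k => Bs, χ ((∏ i, f i : ℕ) : ZMod r) := by
    have h2 := Finset.prod_univ_sum (fun _ : Fin k => Bs) (fun _ t => χ (t : ZMod r))
    rw [Finset.prod_const, Finset.card_univ, Fintype.card_fin] at h2
    rw [h2]
    refine Finset.sum_congr rfl fun f _ => ?_
    rw [Nat.cast_prod, map_prod]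
  rw [h1, ← Finset.sum_fiberwise_of_maps_to (g := fun f : Fin k → ℕ => ∏ i, f i)
    (fun f hf => Finset.mem_image_of_mem _ hf)]
  refine Finset.sum_congr rfl fun m _ => ?_
  rw [rep, ← nsmul_eq_mul, ← Finset.sum_const]
  refine Finset.sum_congr rfl fun f hf => ?_
  rw [(Finset.mem_filter.1 hf).2]

/-- PROOF. `(∑_{t ∈ Bs} χ t)^k = ∑_{t ∈ Bs^k} χ (∏ t) = ∑_m rep m * χ m` (`Finset.sum_pow'`, `Finset.prod_univ_sum`, or `Finset.sum_prod_piFinset`); `S` = the image of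
the products, in `(0, (2B)^k]`; `ls_class` (CH/LsMul) with `W = 1`, `c = 0`, `M = 0`, `len = Δ = (2B)^k`; `8 (Δ + 1) ≤ 16 Δ`; `rep_sq`. -/
theorem tau_ls (k B Q : ℕ) (hB : 1 ≤ B) (hQ : 1 ≤ Q) (hQB : Q ^ 2 ≤ (2 * B) ^ k) (Bs : Finset ℕ)
    (hBs : ∀ t ∈ Bs, t.Prime ∧ t ≤ 2 * B) (R : Finset ℕ) (hR : ∀ r ∈ R, 1 ≤ r ∧ r ≤ Q) :
    ∑ r ∈ R, ZB k Bs r ≤ 16 * ((2 * B : ℕ) : ℝ) ^ k * (k.factorial : ℝ) * (Bs.card : ℝ) ^ k := by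
  obtain ⟨S, hS⟩ : ∃ S, S = (Fintype.piFinset fun _ : Fin k => Bs).image (fun t => ∏ i, t i) :=
    ⟨_, rfl⟩
  have hSm : ∀ x ∈ S, 0 < x ∧ x ≤ 0 + (2 * B) ^ k ∧ x ≡ 0 [MOD 1] := by
    intro x hx
    rw [hS, Finset.mem_image] at hx
    obtain ⟨f, hf, rfl⟩ := hx
    rw [Fintype.mem_piFinset] at hf
    refine ⟨Finset.prod_pos fun i _ => (hBs _ (hf i)).1.pos, ?_, Nat.modEq_one⟩
    rw [zero_add]
    have h1 : ∏ i, f i ≤ ∏ _i : Fin k, 2 * B :=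
      Finset.prod_le_prod' fun i _ => (hBs _ (hf i)).2
    rwa [Finset.prod_const, Finset.card_univ, Fintype.card_fin] at h1
  have h1 := ls_class Q 1 0 0 ((2 * B) ^ k) ((2 * B) ^ k) hQ one_pos hQB (by rw [one_mul]) R
    (fun r hr => ⟨(hR r hr).1, (hR r hr).2, Nat.coprime_one_left r⟩) S hSm
    (fun m => (rep k Bs m : ℂ))
  have h2 : ∑ r ∈ R, ZB k Bs r =
      ∑ r ∈ R, ∑ χ ∈ prims r, ‖∑ x ∈ S, (rep k Bs x : ℂ) * χ (x : ZMod r)‖ ^ 2 := by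
    refine Finset.sum_congr rfl fun r _ => ?_
    unfold ZB
    refine Finset.sum_congr rfl fun χ _ => ?_
    rw [hS, ← Tau_pow, norm_pow, ← pow_mul, mul_comm]
  have h3 : ∑ x ∈ S, ‖(rep k Bs x : ℂ)‖ ^ 2 ≤ (k.factorial : ℝ) * (Bs.card : ℝ) ^ k := by
    refine le_trans (le_of_eq ?_) (rep_sq k Bs (fun t ht => (hBs t ht).1) S)
    refine Finset.sum_congr rfl fun x _ => ?_
    rw [Complex.norm_natCast]
  have h4 : (1 : ℝ) ≤ ((2 * B : ℕ) : ℝ) ^ k := by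
    refine one_le_pow₀ ?_
    have : 1 ≤ 2 * B := by omega
    exact_mod_cast this
  rw [h2]
  refine h1.trans ?_
  have h5 : (0 : ℝ) ≤ (k.factorial : ℝ) * (Bs.card : ℝ) ^ k := by positivity
  have h6 : (((2 * B) ^ k : ℕ) : ℝ) = ((2 * B : ℕ) : ℝ) ^ k := by push_cast; rfl
  rw [h6]
  calc 8 * (((2 * B : ℕ) : ℝ) ^ k + 1) * ∑ x ∈ S, ‖(rep k Bs x : ℂ)‖ ^ 2
      ≤ 8 * (((2 * B : ℕ) : ℝ) ^ k + 1) * ((k.factorial : ℝ) * (Bs.card : ℝ) ^ k) :=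
        mul_le_mul_of_nonneg_left h3 (by positivity)
    _ ≤ 16 * ((2 * B : ℕ) : ℝ) ^ k * ((k.factorial : ℝ) * (Bs.card : ℝ) ^ k) :=
        mul_le_mul_of_nonneg_right (by linarith) h5
    _ = _ := by ring

/-- PROOF. `∏_T 4 / p ≤ 4 / D` for nonempty `T` (one factor `≤ 4 / D`, the others `≤ 1`), `T ↦ ∏ T` is injective, `tau_ls` with `⌊Q⌋₊`. -/
theorem tau_E1 (k B : ℕ) (hB : 1 ≤ B) (Q D : ℝ) (hQ : 1 ≤ Q) (hQB : Q ^ 2 ≤ ((2 * B : ℕ) : ℝ) ^ k)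
    (hD : 4 ≤ D) (Bs : Finset ℕ) (hBs : ∀ t ∈ Bs, t.Prime ∧ t ≤ 2 * B) (P : Finset ℕ)
    (hP : ∀ p ∈ P, p.Prime ∧ D ≤ (p : ℝ)) :
    E1 P Q (ZB k Bs) ≤
      4 / D * (16 * ((2 * B : ℕ) : ℝ) ^ k * (k.factorial : ℝ) * (Bs.card : ℝ) ^ k) := by
  have hZ : ∀ r, 0 ≤ ZB k Bs r := by
    intro r
    unfold ZB
    exact Finset.sum_nonneg fun χ _ => by positivity
  have hD0 : 0 < D := by linarith
  obtain ⟨F, hF⟩ : ∃ F, F = (P.powerset.erase ∅).filter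
    (fun T => ((∏ p ∈ T, p : ℕ) : ℝ) ≤ Q) := ⟨_, rfl⟩
  have hFP : ∀ T ∈ F, T ⊆ P ∧ T.Nonempty ∧ ((∏ p ∈ T, p : ℕ) : ℝ) ≤ Q := by
    intro T hT
    rw [hF, Finset.mem_filter, Finset.mem_erase, Finset.mem_powerset] at hT
    exact ⟨hT.1.2, Finset.nonempty_iff_ne_empty.2 hT.1.1, hT.2⟩
  have h1 : ∀ T ∈ F, ∏ p ∈ T, 4 / (p : ℝ) ≤ 4 / D := by
    intro T hT
    obtain ⟨hTP, ⟨p0, hp0⟩, _⟩ := hFP T hT
    rw [← Finset.mul_prod_erase T _ hp0]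
    have k1 : 4 / (p0 : ℝ) ≤ 4 / D := by
      have := (hP p0 (hTP hp0)).2
      gcongr
    have k2 : ∏ p ∈ T.erase p0, 4 / (p : ℝ) ≤ 1 := by
      refine Finset.prod_le_one (fun p _ => by positivity) fun p hp => ?_
      have := (hP p (hTP (Finset.mem_of_mem_erase hp))).2
      rw [div_le_one (by linarith)]
      linarith
    calc 4 / (p0 : ℝ) * ∏ p ∈ T.erase p0, 4 / (p : ℝ) ≤ 4 / D * 1 :=
          mul_le_mul k1 k2 (Finset.prod_nonneg fun p _ => by positivity) (by positivity)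
      _ = 4 / D := mul_one _
  have hinj : Set.InjOn (fun T : Finset ℕ => ∏ p ∈ T, p) (F : Set (Finset ℕ)) := by
    intro T hT T' hT' h
    have g1 := Nat.primeFactors_prod (s := T) fun p hp => (hP p ((hFP T hT).1 hp)).1
    have g2 := Nat.primeFactors_prod (s := T') fun p hp => (hP p ((hFP T' hT').1 hp)).1
    have h' : ∏ p ∈ T, p = ∏ p ∈ T', p := h
    rw [← g1, ← g2, h']
  have h2 : ∑ r ∈ F.image (fun T => ∏ p ∈ T, p), ZB k Bs r = ∑ T ∈ F, ZB k Bs (∏ p ∈ T, p) :=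
    Finset.sum_image hinj
  have hQ1 : 1 ≤ ⌊Q⌋₊ := (Nat.one_le_floor_iff Q).2 hQ
  have hQ2 : ⌊Q⌋₊ ^ 2 ≤ (2 * B) ^ k := by
    have g1 : ((⌊Q⌋₊ : ℕ) : ℝ) ≤ Q := Nat.floor_le (by linarith)
    have g2 : ((⌊Q⌋₊ : ℕ) : ℝ) ^ 2 ≤ ((2 * B : ℕ) : ℝ) ^ k :=
      (pow_le_pow_left₀ (Nat.cast_nonneg _) g1 2).trans hQB
    exact_mod_cast g2
  have h3 := tau_ls k B ⌊Q⌋₊ hB hQ1 hQ2 Bs hBs (F.image (fun T => ∏ p ∈ T, p)) (by
    intro r hr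
    obtain ⟨T, hT, rfl⟩ := Finset.mem_image.1 hr
    obtain ⟨g1, _, g3⟩ := hFP T hT
    exact ⟨Finset.prod_pos fun p hp => (hP p (g1 hp)).1.pos, Nat.le_floor g3⟩)
  rw [h2] at h3
  calc E1 P Q (ZB k Bs) = ∑ T ∈ F, (∏ p ∈ T, 4 / (p : ℝ)) * ZB k Bs (∏ p ∈ T, p) := by
        rw [E1, hF]
    _ ≤ ∑ T ∈ F, 4 / D * ZB k Bs (∏ p ∈ T, p) :=
        Finset.sum_le_sum fun T hT => mul_le_mul_of_nonneg_right (h1 T hT) (hZ _)
    _ = 4 / D * ∑ T ∈ F, ZB k Bs (∏ p ∈ T, p) := by rw [Finset.mul_sum]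
    _ ≤ _ := mul_le_mul_of_nonneg_left h3 (by positivity)

end Pool.MP42e49e.ER
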