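import Pool.Agent.H.MP_42e49e_nt.ER.P1
import Pool.Agent.H.MP_42e49e_nt.ER.Fl
import Pool.Agent.H.MP_42e49e_nt.ER.Tau
import Pool.Agent.H.MP_42e49e_nt.ER.Block
import Pool.Agent.H.MP_42e49e_nt.ER.Rbv2
import Pool.Agent.H.MP_42e49e_nt.ER.Kill

/-!
# ER: estimates for the sieving primes
-/

set_option autoImplicit false

namespace Pool.MP42e49e.ER

open Finset Pool.Agent.H.MP_711652_nt.CH

variable {x z : ℕ} {r ρ : ℝ}

/-- `e5 = exp (-5)` -/
noncomputable def e5 : ℝ := Real.exp (-5)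

theorem e5_pos : 0 < e5 := Real.exp_pos _

theorem e5_inv : 1 / e5 = Real.exp 5 := by
  unfold e5
  rw [Real.exp_neg, one_div, inv_inv]

theorem exp5_le : Real.exp 5 ≤ 149 := by
  have h1 : Real.exp 5 = Real.exp 1 ^ 5 := by
    rw [← Real.exp_nat_mul]
    norm_num
  rw [h1]
  have h2 := Real.exp_one_lt_d9
  calc Real.exp 1 ^ 5 ≤ 2.7182818286 ^ 5 := pow_le_pow_left₀ (Real.exp_pos _).le h2.le 5
    _ ≤ 149 := by norm_num

theorem e5_ge : 1 / 149 ≤ e5 := by
  have h1 := e5_inv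
  have h2 := exp5_le
  rw [← h1, div_le_iff₀ e5_pos] at h2
  rw [div_le_iff₀ (by norm_num)]
  linarith

/-- the middle primes: `∑ 1 / p ≤ 4` -/
theorem Sz.sum_mid (h : Sz x z r ρ) (a : ℕ → ℕ) (Pm : Finset ℕ) (hPm : Pm ⊆ LV a (dA z) (dB r)) :
    ∑ p ∈ Pm, 1 / (p : ℝ) ≤ 4 := by
  have hdA := h.dA_256
  have h2 : 2 ≤ dA z := by
    have : (2 : ℝ) ≤ dA z := by linarith
    exact_mod_cast this
  refine (sum_window (dA z) (dB r) h2 h.dA_dB Pm fun p hp => ?_).trans ?_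
  · have := mem_LV.1 (hPm hp)
    exact ⟨this.1, this.2.1, this.2.2.1⟩
  · have h3 := h.log_dA
    have h4 := h.log_dB
    have h4' := h.log_dB'
    have h5 := h.hρ1
    have h6 : 0 < Real.log (dA z) := by linarith
    have h7 : 0 < Real.log (dB r) := by linarith
    have h8 : 12 / Real.log (dA z) ≤ 1 / 50 := by
      rw [div_le_div_iff₀ h6 (by norm_num)]
      linarith
    have h9 : Real.log (Real.log (dB r)) - Real.log (Real.log (dA z)) ≤ Real.log 50 := by
      rw [← Real.log_div h7.ne' h6.ne']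
      refine Real.log_le_log (div_pos h7 h6) ?_
      rw [div_le_iff₀ h6]
      linarith
    have h10 : Real.log 50 ≤ 3.95 := by
      rw [Real.log_le_iff_le_exp (by norm_num)]
      have e : Real.exp 3.95 = Real.exp 1 ^ 3 * Real.exp 0.95 := by
        rw [← Real.exp_nat_mul, ← Real.exp_add]
        norm_num
      rw [e]
      have e1 := Real.exp_one_gt_d9
      have e2 : (2.55 : ℝ) ≤ Real.exp 0.95 := by
        have h := Real.sum_le_exp_of_nonneg (x := 0.95) (by norm_num) 7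
        refine le_trans ?_ h
        norm_num [Finset.sum_range_succ, Nat.factorial]
      have e3 : (20 : ℝ) ≤ Real.exp 1 ^ 3 := by
        calc (20 : ℝ) ≤ 2.7182818283 ^ 3 := by norm_num
          _ ≤ Real.exp 1 ^ 3 := pow_le_pow_left₀ (by norm_num) e1.le 3
      nlinarith
    linarith

theorem g1_le {p : ℕ} (hp : 5 ≤ p) : g1 p ≤ 5 / 4 * (1 / (p : ℝ)) := by
  have h : (5 : ℝ) ≤ p := by exact_mod_cast hp
  unfold g1
  rw [div_mul_div_comm, mul_one, div_le_div_iff₀ (by linarith) (by linarith)]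
  linarith

theorem g1_half {p : ℕ} (hp : 5 ≤ p) : 0 ≤ g1 p ∧ g1 p ≤ 1 / 2 := by
  have h : (5 : ℝ) ≤ p := by exact_mod_cast hp
  unfold g1
  refine ⟨div_nonneg zero_le_one (by linarith), ?_⟩
  rw [div_le_div_iff₀ (by linarith) (by norm_num)]
  linarith

/-- the middle primes: the three bounds -/
theorem Sz.mid (h : Sz x z r ρ) (a : ℕ → ℕ) (Pm : Finset ℕ) (hPm : Pm ⊆ LV a (dA z) (dB r)) :
    e5 ≤ ∏ p ∈ Pm, (1 - g1 p) ∧ EP Pm ≤ 1 / e5 ∧
      sw (tW 10) g1 Pm ≤ 1 / 8 * ∏ p ∈ Pm, (1 - g1 p) := by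
  have hS := h.sum_mid a Pm hPm
  have hdA := h.dA_256
  have h5 : ∀ p ∈ Pm, p.Prime ∧ 5 ≤ p := by
    intro p hp
    have h1 := mem_LV.1 (hPm hp)
    have h2 : (256 : ℝ) ≤ dA z := hdA
    have h3 : 256 ≤ dA z := by exact_mod_cast h2
    exact ⟨h1.1, by omega⟩
  have hV := V_ge Pm h5
  have hV' : e5 ≤ ∏ p ∈ Pm, (1 - g1 p) := by
    refine le_trans ?_ hV
    rw [← Real.exp_add]
    unfold e5
    exact Real.exp_le_exp.2 (by linarith)
  have hG : ∑ p ∈ Pm, g1 p ≤ 5 := by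
    have h1 : ∑ p ∈ Pm, g1 p ≤ ∑ p ∈ Pm, 5 / 4 * (1 / (p : ℝ)) :=
      sum_le_sum fun p hp => g1_le (h5 p hp).2
    rw [← mul_sum] at h1
    linarith
  have hG0 : 0 ≤ ∑ p ∈ Pm, g1 p := sum_nonneg fun p hp => (g1_half (h5 p hp).2).1
  refine ⟨hV', ?_, ?_⟩
  · rw [e5_inv]
    unfold EP
    calc ∏ p ∈ Pm, (1 + g1 p) ≤ ∏ p ∈ Pm, Real.exp (g1 p) := by
          refine prod_le_prod (fun p hp => by linarith [(g1_half (h5 p hp).2).1]) fun p _ => ?_
          linarith [Real.add_one_le_exp (g1 p)]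
      _ = Real.exp (∑ p ∈ Pm, g1 p) := (Real.exp_sum _ _).symm
      _ ≤ Real.exp 5 := Real.exp_le_exp.2 hG
  · refine (tW_le 10 Pm g1 fun p hp => (g1_half (h5 p hp).2).1).trans ?_
    have h1 : (∑ p ∈ Pm, g1 p) ^ (2 * 10 + 1) ≤ 5 ^ 21 := pow_le_pow_left₀ hG0 hG 21
    have h2 : (∑ p ∈ Pm, g1 p) ^ (2 * 10 + 1) / ((2 * 10 + 1).factorial : ℝ) ≤
        5 ^ 21 / ((2 * 10 + 1).factorial : ℝ) := div_le_div_of_nonneg_right h1 (by positivity)
    refine h2.trans ?_
    have h3 : (5 : ℝ) ^ 21 / ((2 * 10 + 1).factorial : ℝ) ≤ 1 / 8 * (1 / 149) := by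
      norm_num [Nat.factorial]
    have h4 := e5_ge
    linarith

/-- the rough primes: size -/
theorem Sz.mem_rough (h : Sz x z r ρ) (a : ℕ → ℕ) {p : ℕ} (hp : p ∈ LV a (dB r) z) :
    p.Prime ∧ (dB r : ℝ) ≤ p ∧ p ≤ z ∧ 150 < Real.log p ∧ 256 ≤ p := by
  obtain ⟨h1, h2, h3, _⟩ := mem_LV.1 hp
  have h4 : (dB r : ℝ) ≤ p := by exact_mod_cast h2.le
  have h5 := dB_ge' h.hr2
  have h6 := h.r_pos
  have h7 : 0 < (dB r : ℝ) := by
    have : 0 < r ^ 47 := by positivity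
    linarith
  have h8 := Real.log_le_log h7 h4
  have h9 := h.log_dB'
  have h10 := h.hρ1
  have h11 := h.dA_256
  have h12 := h.dA_dB
  have h13 : 256 ≤ dA z := by exact_mod_cast h11
  exact ⟨h1, h4, h3, by linarith, by omega⟩

/-- the rough primes: `∏ (1 - 1/(p-1)) ≥ exp (-2) / log z` -/
theorem Sz.rough_V (h : Sz x z r ρ) (a : ℕ → ℕ) :
    Real.exp (-2) / Real.log z ≤ ∏ p ∈ LV a (dB r) z, (1 - g1 p) := by
  have hV := V_ge (LV a (dB r) z) fun p hp => ⟨(h.mem_rough a hp).1, by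
    have := (h.mem_rough a hp).2.2.2.2
    omega⟩
  refine le_trans ?_ hV
  have hdB : 256 ≤ dB r := by
    have h11 := h.dA_256
    have h12 := h.dA_dB
    have h13 : 256 ≤ dA z := by exact_mod_cast h11
    omega
  have hS := sum_window (dB r) z (by omega) h.dB_z (LV a (dB r) z) fun p hp => by
    have := mem_LV.1 hp
    exact ⟨this.1, this.2.1, this.2.2.1⟩
  have h1 := h.log_dB'
  have h2 := h.hρ1
  have h3 : 0 < Real.log z := lt_of_lt_of_le (by have := h.r_pos; positivity) h.hz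
  have h4 : 12 / Real.log (dB r) ≤ 1 := by
    rw [div_le_one (by linarith)]
    linarith
  have h5 : 0 ≤ Real.log (Real.log (dB r)) := Real.log_nonneg (by linarith)
  have e : Real.exp (-2) / Real.log z =
      Real.exp (-1) * Real.exp (-(Real.log (Real.log z) + 1)) := by
    have h6 : Real.exp (-(Real.log (Real.log z))) = 1 / Real.log z := by
      rw [Real.exp_neg, Real.exp_log h3, one_div]
    have h7 : -1 + -(Real.log (Real.log z) + 1) = -2 + -(Real.log (Real.log z)) := by ring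
    rw [← Real.exp_add, h7, Real.exp_add, h6]
    ring
  rw [e]
  refine mul_le_mul_of_nonneg_left (Real.exp_le_exp.2 ?_) (Real.exp_pos _).le
  linarith

theorem Sz.rough_EP (h : Sz x z r ρ) (a : ℕ → ℕ) :
    EP (LV a (dB r) z) ≤ Real.exp 21 * Real.log z := by
  have h2 : 2 ≤ z := by
    have h11 := h.dA_256
    have h12 := h.dA_dB
    have h13 : 256 ≤ dA z := by exact_mod_cast h11
    have := h.dB_z
    omega
  exact EP_le z h2 _ fun p hp => ⟨(h.mem_rough a hp).1, (h.mem_rough a hp).2.2.1⟩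

/-- the sieve weights for the rough primes -/
theorem Sz.wts (h : Sz x z r ρ) (a : ℕ → ℕ) :
    ∃ lp lm, Wts (LV a (dB r) z) g1 (Real.exp (26 * Real.log z)) (1 / 32) lp lm := by
  have h3 : 0 < Real.log z := lt_of_lt_of_le (by have := h.r_pos; positivity) h.hz
  obtain ⟨lp, lm, hW⟩ := fl 5 le_rfl (Real.log z) h3.le (LV a (dB r) z) g1
    (fun p hp => ⟨(h.mem_rough a hp).1, by
      have h1 := (h.mem_rough a hp)
      have h2 : (p : ℝ) ≤ z := by exact_mod_cast h1.2.2.1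
      have h4 : (0 : ℝ) < p := by exact_mod_cast h1.1.pos
      exact Real.log_le_log h4 h2⟩)
    (fun p hp => g1_half (by have := (h.mem_rough a hp).2.2.2.2; omega))
    (fun v => block_le _ _ (fun p hp => ⟨(h.mem_rough a hp).1, (h.mem_rough a hp).2.2.2.1⟩)
      (fun p hp => by
        have h1 := (h.mem_rough a hp).1.two_le
        have h2 : (2 : ℝ) ≤ p := by exact_mod_cast h1
        unfold g1
        exact div_le_div_of_nonneg_right (by norm_num) (by linarith)) v)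
  refine ⟨lp, lm, ?_⟩
  have e1 : Real.log z * (4 * ((5 : ℕ) : ℝ) + 6) = 26 * Real.log z := by push_cast; ring
  have e2 : (1 : ℝ) / 2 ^ 5 = 1 / 32 := by norm_num
  rw [e1, e2] at hW
  exact hW

end Pool.MP42e49e.ER
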