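import Pool.Agent.H.MP_42e49e_nt.ER.P2

/-!
# ER: estimates for the error terms
-/

set_option autoImplicit false

namespace Pool.MP42e49e.ER

open Finset Pool.Agent.H.MP_711652_nt.CH

variable {x z : ℕ} {r ρ : ℝ}

theorem Sz.dB_pos (h : Sz x z r ρ) : 0 < (dB r : ℝ) := by
  have := dB_ge' h.hr2
  have h3 : 0 < r ^ 47 := by have := h.r_pos; positivity
  linarith

theorem Sz.one_le_dB (h : Sz x z r ρ) : 1 ≤ (dB r : ℝ) := by
  have h1 : 0 < dB r := by exact_mod_cast h.dB_pos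
  exact_mod_cast h1

theorem Sz.Q16 (h : Sz x z r ρ) :
    ((dB r : ℝ) ^ 21 * Real.exp (26 * Real.log z)) ^ 16 ≤ x := by
  have h0 := h.dB_pos
  rw [← Real.log_le_log_iff (by positivity) h.x_pos, Real.log_pow,
    Real.log_mul (by positivity) (Real.exp_pos _).ne', Real.log_pow, Real.log_exp, h.hx]
  have h1 := h.log_dB
  have h2 := h.hz2
  have h3 := h.hA
  have h4 := h.hr2
  have h5 : r ≤ r ^ 4 := by
    calc r = r ^ 1 := (pow_one r).symm
      _ ≤ r ^ 4 := pow_le_pow_right₀ (by linarith) (by norm_num)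
  push_cast
  nlinarith [h.hρ1]

theorem Sz.E2_bound {C3 : ℝ} (hC3 : ∀ (X : ℕ) (Q : ℝ) (Pm Pr : Finset ℕ) (D : ℝ), 3 ≤ X → 1 ≤ Q →
      Q ^ 16 ≤ X → 2 ≤ D → (∀ p ∈ Pm ∪ Pr, p.Prime ∧ 256 ≤ p) → (∀ p ∈ Pr, D ≤ (p : ℝ)) →
      E2 Pm Pr Q (Zs (PX X) thn) ≤ C3 * X * (1 + Real.log X) ^ 5 * D ^ (-(3 / 4 : ℝ)))
    (h : Sz x z r ρ) (a : ℕ → ℕ) (Pm : Finset ℕ) (hPm : Pm ⊆ LV a (dA z) (dB r)) (X : ℕ)
    (hX : x ≤ X) :
    E2 Pm (LV a (dB r) z) ((dB r : ℝ) ^ 21 * Real.exp (26 * Real.log z)) (Zs (PX X) thn) ≤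
      (C3 * (1 + Real.log X) ^ 5 * (dB r : ℝ) ^ (-(3 / 4 : ℝ))) * X := by
  have h1 := h.one_le_dB
  have h3 : 0 < Real.log z := lt_of_lt_of_le (by have := h.r_pos; positivity) h.hz
  have h11 := h.dA_256
  have h12 := h.dA_dB
  have h13 : 256 ≤ dA z := by exact_mod_cast h11
  have h14 := h.dB_z
  have h15 := h.z_x
  have h16 : (x : ℝ) ≤ X := by exact_mod_cast hX
  refine (hC3 X _ Pm (LV a (dB r) z) (dB r) (by omega) ?_ (h.Q16.trans h16) ?_ ?_ ?_).trans ?_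
  · have h4 : 1 ≤ (dB r : ℝ) ^ 21 := one_le_pow₀ h1
    have h5 : 1 ≤ Real.exp (26 * Real.log z) := Real.one_le_exp (by positivity)
    nlinarith
  · have : (256 : ℝ) ≤ dB r := by
      have : 256 ≤ dB r := by omega
      exact_mod_cast this
    linarith
  · intro p hp
    rcases mem_union.1 hp with hp | hp
    · have := mem_LV.1 (hPm hp)
      exact ⟨this.1, by omega⟩
    · exact ⟨(h.mem_rough a hp).1, (h.mem_rough a hp).2.2.2.2⟩
  · intro p hp
    exact (h.mem_rough a hp).2.1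
  · refine le_of_eq ?_
    ring

theorem Sz.dB_rpow (h : Sz x z r ρ) : (dB r : ℝ) ^ (-(3 / 4 : ℝ)) ≤ 1 / r ^ 35 := by
  have h0 := h.r_pos
  have h1 : (dB r : ℝ) ^ (-(3 / 4 : ℝ)) ≤ (r ^ 47) ^ (-(3 / 4 : ℝ)) :=
    Real.rpow_le_rpow_of_nonpos (by positivity) (dB_ge' h.hr2) (by norm_num)
  refine h1.trans ?_
  have h2 : (1 : ℝ) / r ^ 35 = r ^ (-(35 : ℝ)) := by
    rw [Real.rpow_neg h0.le, one_div]
    congr 1
    rw [show (35 : ℝ) = ((35 : ℕ) : ℝ) by norm_num, Real.rpow_natCast]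
  rw [h2, ← Real.rpow_natCast r 47, ← Real.rpow_mul h0.le]
  refine Real.rpow_le_rpow_of_exponent_le (by linarith [h.hr2]) ?_
  push_cast
  norm_num

theorem Sz.R_bound (h : Sz x z r ρ) (a : ℕ → ℕ) {C3 LX : ℝ} (hC3 : 0 < C3) (hL0 : 0 ≤ LX)
    (hL : LX ≤ 2 * r ^ 4) (hF : 32 * (Real.exp 23 * C3 * 243) ≤ e5 ^ 2 * r) :
    32 * (EP (LV a (dB r) z) * (C3 * (1 + LX) ^ 5 * (dB r : ℝ) ^ (-(3 / 4 : ℝ)))) ≤
      e5 ^ 2 * ∏ p ∈ LV a (dB r) z, (1 - g1 p) := by
  have h0 := h.r_pos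
  have h3 : 0 < Real.log z := lt_of_lt_of_le (by positivity) h.hz
  have hs : Real.log z ≤ r ^ 4 := by
    have := h.hz2
    have : 0 ≤ r ^ 4 := by positivity
    linarith
  have h1 : (1 + LX) ^ 5 ≤ 243 * r ^ 20 := by
    have : 1 + LX ≤ 3 * r ^ 4 := by
      have : 1 ≤ r ^ 4 := one_le_pow₀ (by linarith [h.hr2])
      linarith
    calc (1 + LX) ^ 5 ≤ (3 * r ^ 4) ^ 5 := pow_le_pow_left₀ (by linarith) this 5
      _ = 243 * r ^ 20 := by ring
  have h2 := h.dB_rpow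
  have h4 : 0 ≤ (dB r : ℝ) ^ (-(3 / 4 : ℝ)) := by have := h.dB_pos; positivity
  have h5 : C3 * (1 + LX) ^ 5 * (dB r : ℝ) ^ (-(3 / 4 : ℝ)) ≤ C3 * (243 * r ^ 20) * (1 / r ^ 35) :=
    mul_le_mul (mul_le_mul_of_nonneg_left h1 hC3.le) h2 h4 (by positivity)
  have hP : ∀ p ∈ LV a (dB r) z, p.Prime := fun p hp => (h.mem_rough a hp).1
  have h6 : EP (LV a (dB r) z) * (C3 * (1 + LX) ^ 5 * (dB r : ℝ) ^ (-(3 / 4 : ℝ))) ≤
      (Real.exp 21 * Real.log z) * (C3 * (243 * r ^ 20) * (1 / r ^ 35)) :=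
    mul_le_mul (h.rough_EP a) h5 (by positivity) (by positivity)
  have h7 := mul_le_mul_of_nonneg_left (h.rough_V a) (by positivity : 0 ≤ e5 ^ 2)
  refine le_trans ?_ h7
  have h8 : 32 * ((Real.exp 21 * Real.log z) * (C3 * (243 * r ^ 20) * (1 / r ^ 35))) ≤
      e5 ^ 2 * (Real.exp (-2) / Real.log z) := by
    have e0 : e5 ^ 2 * (Real.exp (-2) / Real.log z) = e5 ^ 2 * Real.exp (-2) / Real.log z :=
      (mul_div_assoc _ _ _).symm
    rw [e0, le_div_iff₀ h3]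
    have e23 : Real.exp 21 = Real.exp 23 * Real.exp (-2) := by
      rw [← Real.exp_add]
      norm_num
    rw [e23]
    have h9 : Real.log z * Real.log z ≤ r ^ 4 * r ^ 4 := mul_le_mul hs hs h3.le (by positivity)
    have h10 : 32 * ((Real.exp 23 * Real.exp (-2) * Real.log z) *
        (C3 * (243 * r ^ 20) * (1 / r ^ 35))) * Real.log z =
        (Real.log z * Real.log z) * (32 * (Real.exp 23 * C3 * 243) * Real.exp (-2) *
          (r ^ 20 * (1 / r ^ 35))) := by ring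
    rw [h10]
    have h11 : r ^ 20 * (1 / r ^ 35) = 1 / r ^ 15 := by
      field_simp
    rw [h11]
    have h12 : (Real.log z * Real.log z) * (32 * (Real.exp 23 * C3 * 243) * Real.exp (-2) *
          (1 / r ^ 15)) ≤ (r ^ 4 * r ^ 4) * (e5 ^ 2 * r * Real.exp (-2) * (1 / r ^ 15)) := by
      refine mul_le_mul h9 ?_ (by positivity) (by positivity)
      exact mul_le_mul_of_nonneg_right (mul_le_mul_of_nonneg_right hF (Real.exp_pos _).le)
        (by positivity)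
    refine h12.trans ?_
    have h13 : (r ^ 4 * r ^ 4) * (e5 ^ 2 * r * Real.exp (-2) * (1 / r ^ 15)) =
        e5 ^ 2 * Real.exp (-2) * (1 / r ^ 6) := by
      field_simp
    rw [h13]
    have h14 : 1 / r ^ 6 ≤ 1 := by
      rw [div_le_one (by positivity)]
      exact one_le_pow₀ (by linarith [h.hr2])
    have h15 : 0 ≤ e5 ^ 2 * Real.exp (-2) := by positivity
    nlinarith
  linarith

theorem phi_mid {s LX l : ℝ} (hs : 0 ≤ s) (h1 : s ≤ LX) (h2 : 0 ≤ l) (h3 : 2 * l ≤ LX)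
    (hLX : 0 < LX) : LX * ((s + (LX - l)) / (LX - l) ^ 2) ≤ 8 := by
  have h4 : LX / 2 ≤ LX - l := by linarith
  have h5 : 0 < LX - l := by linarith
  rw [← mul_div_assoc, div_le_iff₀ (by positivity)]
  have h6 : (LX / 2) ^ 2 ≤ (LX - l) ^ 2 := pow_le_pow_left₀ (by linarith) h4 2
  have h7 : LX * (s + (LX - l)) ≤ LX * (2 * LX) := mul_le_mul_of_nonneg_left (by linarith) hLX.le
  nlinarith

theorem phi_top {s LX h h' t : ℝ} (hs : 0 ≤ s) (h0 : 0 < h) (h1 : h / 2 ≤ h') (h2 : h' ≤ h)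
    (hL0 : 0 ≤ LX) (hL : LX ≤ 2 * t) : LX * ((s + h') / h' ^ 2) ≤ 8 * t * ((s + h) / h ^ 2) := by
  have h3 : 0 < h' := by linarith
  have h4 : (h / 2) ^ 2 ≤ h' ^ 2 := pow_le_pow_left₀ (by linarith) h1 2
  have h5 : (s + h') / h' ^ 2 ≤ 4 * ((s + h) / h ^ 2) := by
    rw [← mul_div_assoc, div_le_div_iff₀ (by positivity) (by positivity)]
    have : (s + h') * h ^ 2 ≤ (s + h) * (4 * h' ^ 2) :=
      mul_le_mul (by linarith) (by nlinarith) (by positivity) (by linarith)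
    linarith
  have h6 : 0 ≤ (s + h) / h ^ 2 := by positivity
  calc LX * ((s + h') / h' ^ 2) ≤ LX * (4 * ((s + h) / h ^ 2)) :=
        mul_le_mul_of_nonneg_left h5 hL0
    _ ≤ (2 * t) * (4 * ((s + h) / h ^ 2)) := mul_le_mul_of_nonneg_right hL (by positivity)
    _ = 8 * t * ((s + h) / h ^ 2) := by ring

/-- the second case: a dense block -/
theorem Sz.caseB (h : Sz x z r ρ) (a : ℕ → ℕ) {c1 ζ : ℝ} (hc1 : 0 < c1) {k : ℕ} (hk : k = 2016)
    (hG : 64 * (k.factorial : ℝ) * (142 * ρ / c1) ^ k ≤ ζ * (r / 2))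
    (hH : 13 ≤ c1 * (ρ - 1))
    (hbig : c1 < ∑ p ∈ LV a (dA z) (dB r), 1 / (p : ℝ)) :
    ∃ Bs, Bs ⊆ LV a (dA z) (dB r) ∧ 0 < Bs.card ∧ ∑ p ∈ Bs, 1 / (p : ℝ) ≤ c1 ∧
      E1 (LV a (dA z) (dB r) \ Bs) ((dB r : ℝ) ^ 21) (ZB k Bs) ≤
        ζ * (Bs.card : ℝ) ^ (2 * k) := by
  have h11 := h.dA_256
  have h12 := h.dA_dB
  have h13 : 256 ≤ dA z := by exact_mod_cast h11
  have h1 := h.hρ1
  have hr := h.r_pos
  have hlt : dA z < dB r := by
    rcases Nat.lt_or_ge (dA z) (dB r) with h2 | h2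
    · exact h2
    · have h3 : LV a (dA z) (dB r) = ∅ := by
        rw [eq_empty_iff_forall_notMem]
        intro p hp
        have := mem_LV.1 hp
        omega
      rw [h3, sum_empty] at hbig
      linarith
  obtain ⟨B, hB1, hB2, hB3⟩ := block_ex (dA z) (dB r) (by omega) hlt (LV a (dA z) (dB r))
    (fun l hl => by have := mem_LV.1 hl; exact ⟨this.2.1, this.2.2.1⟩) c1 hc1 hbig.le
  obtain ⟨Bs, hBs⟩ : ∃ Bs, Bs = (LV a (dA z) (dB r)).filter (fun l => B < l ∧ l ≤ 2 * B) :=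
    ⟨_, rfl⟩
  rw [← hBs] at hB3
  have mBs : ∀ t ∈ Bs, t ∈ LV a (dA z) (dB r) ∧ B < t ∧ t ≤ 2 * B := fun t ht => by
    rw [hBs, mem_filter] at ht
    exact ht
  have hB0 : (0 : ℝ) < B := by
    have : 0 < B := by omega
    exact_mod_cast this
  have hJ0 : (0 : ℝ) < (Nat.log 2 (dB r) : ℝ) + 1 := by positivity
  have hcard : 0 < Bs.card := by
    rcases Nat.eq_zero_or_pos Bs.card with h2 | h2
    · rw [h2] at hB3
      have : 0 < c1 * B := by positivity
      simp only [Nat.cast_zero, mul_zero] at hB3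
      linarith
    · exact h2
  have hcr : (0 : ℝ) < Bs.card := by exact_mod_cast hcard
  have hBA : (dA z : ℝ) ≤ B := by exact_mod_cast hB1
  refine ⟨Bs, fun t ht => (mBs t ht).1, hcard, ?_, ?_⟩
  · refine (sum_window B (2 * B) (by omega) (by omega) Bs fun p hp => ?_).trans ?_
    · have := mBs p hp
      exact ⟨(mem_LV.1 this.1).1, this.2.1, this.2.2⟩
    · have h2 : ρ - 1 ≤ Real.log B := h.log_dA.trans (Real.log_le_log (by linarith) hBA)
      have h3 : 0 < Real.log B := by linarith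
      have h4 : Real.log ((2 * B : ℕ) : ℝ) = Real.log 2 + Real.log B := by
        push_cast
        exact Real.log_mul (by norm_num) hB0.ne'
      have h5 := Real.log_two_lt_d9
      have h5' := Real.log_two_gt_d9
      have h6 : Real.log (Real.log ((2 * B : ℕ) : ℝ)) - Real.log (Real.log B) ≤ 1 / Real.log B := by
        rw [h4, ← Real.log_div (by linarith) h3.ne']
        have h7 : (Real.log 2 + Real.log B) / Real.log B = 1 + Real.log 2 / Real.log B := by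
          field_simp
          ring
        rw [h7]
        have h8 : 0 < 1 + Real.log 2 / Real.log B := by positivity
        have h9 := Real.log_le_sub_one_of_pos h8
        have h10 : Real.log 2 / Real.log B ≤ 1 / Real.log B :=
          div_le_div_of_nonneg_right (by linarith) h3.le
        linarith
      have h7 : 1 / Real.log B + 12 / Real.log B ≤ c1 := by
        rw [← add_div, div_le_iff₀ h3]
        have : c1 * (ρ - 1) ≤ c1 * Real.log B := mul_le_mul_of_nonneg_left h2 hc1.le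
        linarith
      linarith
  · -- the large sieve bound
    have hQ1 : 1 ≤ (dB r : ℝ) ^ 21 := one_le_pow₀ h.one_le_dB
    have h2B : r ≤ ((2 * B : ℕ) : ℝ) := by
      push_cast
      have := h.dA_ge
      linarith
    have hQB : ((dB r : ℝ) ^ 21) ^ 2 ≤ ((2 * B : ℕ) : ℝ) ^ k := by
      rw [hk]
      calc ((dB r : ℝ) ^ 21) ^ 2 = (dB r : ℝ) ^ 42 := by ring
        _ ≤ (r ^ 48) ^ 42 := pow_le_pow_left₀ h.dB_pos.le (dB_le hr.le) 42
        _ = r ^ 2016 := by rw [← pow_mul]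
        _ ≤ ((2 * B : ℕ) : ℝ) ^ 2016 := pow_le_pow_left₀ hr.le h2B 2016
    refine (tau_E1 k B (by omega) ((dB r : ℝ) ^ 21) (dA z) hQ1 hQB (by linarith) Bs
      (fun t ht => ⟨(mem_LV.1 (mBs t ht).1).1, (mBs t ht).2.2⟩) _ fun p hp => ?_).trans ?_
    · rw [mem_sdiff] at hp
      have := mem_LV.1 hp.1
      exact ⟨this.1, by exact_mod_cast this.2.1.le⟩
    · -- `2 B / |Bs| ≤ 142 ρ / c1`
      have h3 : (Nat.log 2 (dB r) : ℝ) + 1 ≤ 71 * ρ := by
        have h4 : ((Nat.log 2 (dB r) : ℕ) : ℝ) * Real.log 2 ≤ Real.log (dB r) := by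
          have h5 : 2 ^ Nat.log 2 (dB r) ≤ dB r := Nat.pow_log_le_self 2 (by omega)
          have h6 : ((2 : ℝ)) ^ Nat.log 2 (dB r) ≤ dB r := by exact_mod_cast h5
          have h7 := Real.log_le_log (by positivity) h6
          rwa [Real.log_pow] at h7
        have h5 := h.log_dB
        have h6 := Real.log_two_gt_d9
        have h7 : (0 : ℝ) ≤ (Nat.log 2 (dB r) : ℕ) := Nat.cast_nonneg _
        nlinarith
      have h4 : ((2 * B : ℕ) : ℝ) ≤ 142 * ρ / c1 * Bs.card := by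
        rw [div_mul_eq_mul_div, le_div_iff₀ hc1]
        push_cast
        have h5 := mul_le_mul_of_nonneg_right h3 hcr.le
        linarith
      have h5 : ((2 * B : ℕ) : ℝ) ^ k ≤ (142 * ρ / c1) ^ k * (Bs.card : ℝ) ^ k := by
        rw [← mul_pow]
        exact pow_le_pow_left₀ (Nat.cast_nonneg _) h4 k
      have hd0 : (0 : ℝ) < dA z := by linarith
      rw [div_mul_eq_mul_div, div_le_iff₀ hd0]
      have h6 : (Bs.card : ℝ) ^ (2 * k) = (Bs.card : ℝ) ^ k * (Bs.card : ℝ) ^ k := by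
        rw [← pow_add]
        congr 1
        ring
      rw [h6]
      have hck : 0 < (Bs.card : ℝ) ^ k := by positivity
      have hf0 : (0 : ℝ) < (k.factorial : ℝ) := by exact_mod_cast k.factorial_pos
      have h7 : 4 * (16 * ((2 * B : ℕ) : ℝ) ^ k * (k.factorial : ℝ) * (Bs.card : ℝ) ^ k) ≤
          64 * (k.factorial : ℝ) * (142 * ρ / c1) ^ k * ((Bs.card : ℝ) ^ k * (Bs.card : ℝ) ^ k) := by
        have := mul_le_mul_of_nonneg_left h5 (by positivity : 0 ≤ 64 * (k.factorial : ℝ) *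
          (Bs.card : ℝ) ^ k)
        linarith
      have h8 : 64 * (k.factorial : ℝ) * (142 * ρ / c1) ^ k * ((Bs.card : ℝ) ^ k *
          (Bs.card : ℝ) ^ k) ≤ ζ * (r / 2) * ((Bs.card : ℝ) ^ k * (Bs.card : ℝ) ^ k) :=
        mul_le_mul_of_nonneg_right hG (by positivity)
      have hζ : 0 ≤ ζ := by
        by_contra hcon
        push Not at hcon
        have : ζ * (r / 2) < 0 := mul_neg_of_neg_of_pos hcon (by linarith)
        have h9 : 0 ≤ 64 * (k.factorial : ℝ) * (142 * ρ / c1) ^ k := by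
          have : 0 ≤ 142 * ρ / c1 := by positivity
          positivity
        linarith
      have h9 : ζ * (r / 2) * ((Bs.card : ℝ) ^ k * (Bs.card : ℝ) ^ k) ≤
          ζ * ((Bs.card : ℝ) ^ k * (Bs.card : ℝ) ^ k) * dA z := by
        have := mul_le_mul_of_nonneg_left h.dA_ge (by positivity : 0 ≤ ζ * ((Bs.card : ℝ) ^ k *
          (Bs.card : ℝ) ^ k))
        linarith
      linarith

end Pool.MP42e49e.ER
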