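import Pool.Agent.H.MP_42e49e_nt.ER.CoreE

/-!
# ER: the core theorem around an arbitrary integer `b`
-/

set_option autoImplicit false

namespace Pool.MP42e49e.ER

open Finset

/-- The primes of `(z, x]` whose class does not contain `b`. -/
noncomputable def MS (a : ℕ → ℕ) (b : ℕ) (z : ℝ) (x : ℕ) : Finset ℕ :=
  (Icc 1 x).filter (fun p => p.Prime ∧ z < p ∧ ¬ a p ≡ b [MOD p])

theorem mem_MS {a : ℕ → ℕ} {b x p : ℕ} {z : ℝ} :
    p ∈ MS a b z x ↔ p.Prime ∧ z < p ∧ p ≤ x ∧ ¬ a p ≡ b [MOD p] := by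
  unfold MS
  rw [mem_filter, mem_Icc]
  constructor
  · rintro ⟨⟨_, h2⟩, h3, h4, h5⟩
    exact ⟨h3, h4, h2, h5⟩
  · rintro ⟨h3, h4, h2, h5⟩
    exact ⟨⟨h3.one_lt.le, h2⟩, h3, h4, h5⟩

theorem shift_iff {p : ℕ} (hp : 0 < p) (c d n : ℕ) :
    n ≡ c + (p - 1) * d [MOD p] ↔ d + n ≡ c [MOD p] := by
  have h1 : c + (p - 1) * d + d = c + p * d := by
    obtain ⟨q, rfl⟩ : ∃ q, p = q + 1 := ⟨p - 1, by omega⟩
    rw [Nat.add_sub_cancel]
    ring
  have h2 : c + p * d ≡ c [MOD p] := by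
    have : c + p * d ≡ c + 0 [MOD p] :=
      Nat.ModEq.add_left c ((Nat.modEq_zero_iff_dvd).2 (Dvd.intro d rfl))
    simpa using this
  constructor
  · intro h
    have h3 : n + d ≡ c + (p - 1) * d + d [MOD p] := Nat.ModEq.add_right d h
    rw [h1] at h3
    rw [add_comm]
    exact h3.trans h2
  · intro h
    refine Nat.ModEq.add_right_cancel' d ?_
    rw [h1, add_comm n d]
    exact h.trans h2.symm

theorem shift_dvd {p : ℕ} (hp : 0 < p) (c d : ℕ) :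
    p ∣ c + (p - 1) * d ↔ c ≡ d [MOD p] := by
  have h := shift_iff hp c d 0
  rw [add_zero] at h
  constructor
  · intro h1
    exact (h.1 ((Nat.modEq_zero_iff_dvd).2 h1).symm).symm
  · intro h1
    exact (Nat.modEq_zero_iff_dvd).1 (h.2 h1.symm).symm

/-- The core theorem around an arbitrary integer `b ≤ y`. -/
theorem core_shift : ∃ c : ℝ, 0 < c ∧ ∃ x0 : ℕ, ∀ (x y y1 z b : ℕ) (a : ℕ → ℕ), x0 ≤ x →
    b ≤ y → 2 * y1 ≤ y → y1 ≤ x ^ 2 →
    Real.sqrt (Real.log x) ≤ Real.log z → Real.log z ≤ c * Real.log x →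
    4 * Real.sqrt (Real.log z) ≤ Real.log ((y1 : ℝ) / x) →
    ∑ p ∈ MS a b z x, (Real.log z + Real.log ((y1 : ℝ) / p)) / (p * Real.log ((y1 : ℝ) / p) ^ 2) ≤
      c / Real.log x →
    ∃ n : ℕ, 1 ≤ n ∧ n ≤ y ∧ ∀ p : ℕ, p.Prime → p ≤ x → ¬ n ≡ a p [MOD p] := by
  obtain ⟨c, hc, x0, hcore⟩ := core
  refine ⟨c, hc, x0, fun x y y1 z b a hx hby hy1 hyx hz1 hz2 hy hE => ?_⟩
  have hset : ∀ a' : ℕ → ℕ, (∀ p, 0 < p → (p ∣ a' p ↔ a p ≡ b [MOD p])) →
      LV a' z x = MS a b z x := by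
    intro a' ha'
    ext p
    rw [mem_LV, mem_MS]
    constructor
    · rintro ⟨h1, h2, h3, h4⟩
      exact ⟨h1, by exact_mod_cast h2, h3, fun h => h4 ((ha' p h1.pos).2 h)⟩
    · rintro ⟨h1, h2, h3, h4⟩
      exact ⟨h1, by exact_mod_cast h2, h3, fun h => h4 ((ha' p h1.pos).1 h)⟩
  by_cases hb : 2 * b ≤ y
  · -- to the right of `b`
    have h1 := hset (fun p => a p + (p - 1) * b) fun p hp => shift_dvd hp (a p) b
    rw [← h1] at hE
    obtain ⟨n, hn1, hn2, hn3⟩ := hcore x y1 z _ hx hz1 hz2 hy hyx hE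
    refine ⟨b + n, by omega, by omega, fun p hp hpx h => ?_⟩
    exact hn3 p hp hpx ((shift_iff hp.pos (a p) b n).2 h)
  · -- to the left of `b`
    have h1 := hset (fun p => b + (p - 1) * a p) fun p hp => by
      rw [shift_dvd hp b (a p)]
      exact ⟨fun h => h.symm, fun h => h.symm⟩
    rw [← h1] at hE
    obtain ⟨n, hn1, hn2, hn3⟩ := hcore x y1 z _ hx hz1 hz2 hy hyx hE
    refine ⟨b - n, by omega, by omega, fun p hp hpx h => ?_⟩
    refine hn3 p hp hpx ((shift_iff hp.pos b (a p) n).2 ?_)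
    have h2 : b - n + n = b := by omega
    have h3 := Nat.ModEq.add_right n h
    rw [h2] at h3
    exact h3.symm

end Pool.MP42e49e.ER
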