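import Pool.Agent.H.MP_42e49e_nt.ER.Defs

/-!
# ER: the character sums over the points factor
-/

set_option autoImplicit false

namespace Pool.MP42e49e.ER

open Finset Pool.Agent.H.MP_711652_nt.CH

private theorem TauZ_fac (k m0 : ℕ) (Bs Qs : Finset ℕ) {r : ℕ} (χ : DirichletCharacter ℂ r) :
    ∑ z ∈ famI k Bs Qs, ((thn z.2 : ℝ) : ℂ) * χ ((pt m0 k z : ℕ) : ZMod r) =
      χ (m0 : ZMod r) * (∑ t ∈ Bs, χ (t : ZMod r)) ^ (2 * k) *
        ∑ q ∈ Qs, ((thn q : ℝ) : ℂ) * χ (q : ZMod r) := by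
  unfold famI
  rw [Finset.sum_product]
  have h1 : (∑ t ∈ Bs, χ (t : ZMod r)) ^ (2 * k) =
      ∑ x ∈ Fintype.piFinset (fun _ : Fin (2 * k) => Bs), ∏ i, χ ((x i : ℕ) : ZMod r) := by
    have h2 := Finset.prod_univ_sum (fun _ : Fin (2 * k) => Bs)
      (fun _ (t : ℕ) => χ (t : ZMod r))
    rw [Finset.prod_const, Finset.card_univ, Fintype.card_fin] at h2
    exact h2
  rw [h1, Finset.mul_sum (Fintype.piFinset fun _ : Fin (2 * k) => Bs), Finset.sum_mul]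
  refine Finset.sum_congr rfl fun x _ => ?_
  rw [Finset.mul_sum]
  refine Finset.sum_congr rfl fun q _ => ?_
  unfold pt
  push_cast
  rw [map_mul, map_mul, map_prod]
  ring

private theorem TauZ_norm (k m0 : ℕ) (Bs Qs : Finset ℕ) {r : ℕ} (χ : DirichletCharacter ℂ r) :
    ‖∑ z ∈ famI k Bs Qs, ((thn z.2 : ℝ) : ℂ) * χ ((pt m0 k z : ℕ) : ZMod r)‖ ≤
      ‖∑ t ∈ Bs, χ (t : ZMod r)‖ ^ (2 * k) * ‖∑ q ∈ Qs, ((thn q : ℝ) : ℂ) * χ (q : ZMod r)‖ := by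
  rw [TauZ_fac, norm_mul, norm_mul, norm_pow]
  refine mul_le_mul_of_nonneg_right ?_ (norm_nonneg _)
  exact mul_le_of_le_one_left (by positivity) (DirichletCharacter.norm_le_one χ _)

private theorem TauZ_thn (x : ℕ) : 0 ≤ thn x := by
  unfold thn
  split_ifs with h
  · exact Real.log_nonneg (by exact_mod_cast h.one_le)
  · exact le_rfl

/-- PROOF. `∑_{(t, q)} log q χ(m0 ∏ t q) = χ(m0) (∑_{t ∈ Bs} χ t)^(2k) ∑_q log q χ(q)`, `|χ(m0)| ≤ 1`, `|∑_t χ(t)| ≤ |Bs|`. -/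
theorem ZI_le1 (k m0 : ℕ) (Bs Qs : Finset ℕ) (r : ℕ) (hr : 1 ≤ r) :
    ZI (famI k Bs Qs) (pt m0 k) (fun z => thn z.2) r ≤ (Bs.card : ℝ) ^ (2 * k) * Zs Qs thn r := by
  unfold ZI Zs
  rw [Finset.mul_sum]
  refine Finset.sum_le_sum fun χ _ => (TauZ_norm k m0 Bs Qs χ).trans ?_
  refine mul_le_mul_of_nonneg_right (pow_le_pow_left₀ (norm_nonneg _) ?_ _) (norm_nonneg _)
  refine (norm_sum_le _ _).trans ?_
  calc ∑ t ∈ Bs, ‖χ (t : ZMod r)‖ ≤ ∑ t ∈ Bs, (1 : ℝ) :=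
        Finset.sum_le_sum fun t _ => DirichletCharacter.norm_le_one χ _
    _ = (Bs.card : ℝ) := by rw [Finset.sum_const, nsmul_eq_mul, mul_one]

/-- PROOF. The same, with `|∑_q log q χ(q)| ≤ ∑_q thn q`. -/
theorem ZI_le2 (k m0 : ℕ) (Bs Qs : Finset ℕ) (r : ℕ) (hr : 1 ≤ r) :
    ZI (famI k Bs Qs) (pt m0 k) (fun z => thn z.2) r ≤ (∑ q ∈ Qs, thn q) * ZB k Bs r := by
  unfold ZI ZB
  rw [Finset.mul_sum]
  refine Finset.sum_le_sum fun χ _ => (TauZ_norm k m0 Bs Qs χ).trans ?_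
  rw [mul_comm]
  refine mul_le_mul_of_nonneg_right ?_ (by positivity)
  refine (norm_sum_le _ _).trans (Finset.sum_le_sum fun q _ => ?_)
  rw [norm_mul, Complex.norm_real, Real.norm_eq_abs, abs_of_nonneg (TauZ_thn q)]
  exact mul_le_of_le_one_right (TauZ_thn q) (DirichletCharacter.norm_le_one χ _)

end Pool.MP42e49e.ER
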