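import Pool.Agent.H.MP_42e49e_nt.ER.Exp
import Pool.Agent.H.MP_42e49e_nt.ER.Bonf
import Pool.Agent.H.MP_42e49e_nt.ER.TauZ

/-!
# ER: the number of points which avoid the sieving primes
-/

set_option autoImplicit false

namespace Pool.MP42e49e.ER

open Finset Pool.Agent.H.MP_711652_nt.CH

theorem thn_nonneg (q : ℕ) : 0 ≤ thn q := by
  unfold thn
  split_ifs
  · exact Real.log_natCast_nonneg q
  · exact le_rfl

theorem ind_mem (u : ℕ → ℕ) (p n : ℕ) : 0 ≤ ind u p n ∧ ind u p n ≤ 1 := by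
  unfold ind
  split_ifs <;> norm_num

theorem g1_mem {p : ℕ} (hp : p.Prime) : 0 ≤ g1 p ∧ g1 p ≤ 1 := by
  have h2 : (2 : ℝ) ≤ p := by exact_mod_cast hp.two_le
  unfold g1
  refine ⟨div_nonneg zero_le_one (by linarith), ?_⟩
  rw [div_le_one (by linarith)]
  linarith

theorem one_sub_prod_nonneg {P : Finset ℕ} {f : ℕ → ℝ} (hf : ∀ p ∈ P, 0 ≤ f p ∧ f p ≤ 1) :
    0 ≤ ∏ p ∈ P, (1 - f p) := prod_nonneg fun p hp => by linarith [(hf p hp).2]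

theorem fam_sum (k : ℕ) (Bs Qs : Finset ℕ) :
    ∑ z ∈ famI k Bs Qs, thn z.2 = (Bs.card : ℝ) ^ (2 * k) * ∑ q ∈ Qs, thn q := by
  unfold famI
  rw [sum_product]
  simp only
  rw [sum_const, nsmul_eq_mul, Fintype.card_piFinset_const]
  push_cast
  rfl

theorem PX_mem {X q : ℕ} (h : q ∈ PX X) : q.Prime ∧ X < q ∧ q ≤ 2 * X := by
  unfold PX clp at h
  rw [mem_filter, mem_filter, mem_Ioc] at h
  exact ⟨h.2, h.1.1.1, h.1.1.2⟩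

theorem pt_not_dvd {k m0 X : ℕ} {Bs : Finset ℕ} {p : ℕ} (hp : p.Prime) (hm0 : ¬ p ∣ m0)
    (hBs : ∀ t ∈ Bs, t.Prime) (hpB : p ∉ Bs) (hX : p ≤ X) (z : (Fin (2 * k) → ℕ) × ℕ)
    (hz : z ∈ famI k Bs (PX X)) : ¬ p ∣ pt m0 k z := by
  unfold famI at hz
  rw [mem_product, Fintype.mem_piFinset] at hz
  obtain ⟨hq, hqX, _⟩ := PX_mem hz.2
  intro h
  unfold pt at h
  rcases hp.dvd_mul.1 h with h | h
  · rcases hp.dvd_mul.1 h with h | h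
    · exact hm0 h
    · obtain ⟨i, _, hi⟩ := (hp.prime.dvd_finset_prod_iff _).1 h
      have := (Nat.prime_dvd_prime_iff_eq hp (hBs _ (hz.1 i))).1 hi
      rw [this] at hpB
      exact hpB (hz.1 i)
  · have := (Nat.prime_dvd_prime_iff_eq hp hq).1 h
    omega

theorem E1_mono {P : Finset ℕ} {Q c : ℝ} {Z Z' : ℕ → ℝ} (hP : ∀ p ∈ P, p.Prime)
    (h : ∀ r, 1 ≤ r → Z r ≤ c * Z' r) : E1 P Q Z ≤ c * E1 P Q Z' := by
  unfold E1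
  rw [mul_sum]
  refine sum_le_sum fun T hT => ?_
  rw [mem_filter, mem_erase, mem_powerset] at hT
  have h1 : 1 ≤ ∏ p ∈ T, p := Nat.one_le_iff_ne_zero.2
    (prod_ne_zero_iff.2 fun p hp => (hP p (hT.1.2 hp)).ne_zero)
  have h2 : 0 ≤ ∏ p ∈ T, 4 / (p : ℝ) := prod_nonneg fun p _ => by positivity
  calc (∏ p ∈ T, 4 / (p : ℝ)) * Z (∏ p ∈ T, p) ≤ (∏ p ∈ T, 4 / (p : ℝ)) * (c * Z' (∏ p ∈ T, p)) :=
        mul_le_mul_of_nonneg_left (h _ h1) h2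
    _ = c * ((∏ p ∈ T, 4 / (p : ℝ)) * Z' (∏ p ∈ T, p)) := by ring

theorem E2_mono {Pm Pr : Finset ℕ} {Q c : ℝ} {Z Z' : ℕ → ℝ} (hP : ∀ p ∈ Pm ∪ Pr, p.Prime)
    (h : ∀ r, 1 ≤ r → Z r ≤ c * Z' r) : E2 Pm Pr Q Z ≤ c * E2 Pm Pr Q Z' := by
  unfold E2
  rw [mul_sum]
  refine sum_le_sum fun T hT => ?_
  rw [mem_filter, mem_powerset] at hT
  have h1 : 1 ≤ ∏ p ∈ T, p := Nat.one_le_iff_ne_zero.2
    (prod_ne_zero_iff.2 fun p hp => (hP p (hT.1 hp)).ne_zero)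
  have h2 : 0 ≤ ∏ p ∈ T, 4 / (p : ℝ) := prod_nonneg fun p _ => by positivity
  calc (∏ p ∈ T, 4 / (p : ℝ)) * Z (∏ p ∈ T, p) ≤ (∏ p ∈ T, 4 / (p : ℝ)) * (c * Z' (∏ p ∈ T, p)) :=
        mul_le_mul_of_nonneg_left (h _ h1) h2
    _ = c * ((∏ p ∈ T, 4 / (p : ℝ)) * Z' (∏ p ∈ T, p)) := by ring

theorem EP_nonneg {P : Finset ℕ} (hP : ∀ p ∈ P, p.Prime) : 0 ≤ EP P :=
  prod_nonneg fun p hp => by linarith [(g1_mem (hP p hp)).1]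

theorem E1_nonneg {P : Finset ℕ} {Q : ℝ} {Z : ℕ → ℝ} (hZ : ∀ r, 0 ≤ Z r) : 0 ≤ E1 P Q Z :=
  sum_nonneg fun _ _ => mul_nonneg (prod_nonneg fun _ _ => by positivity) (hZ _)

theorem E2_nonneg {Pm Pr : Finset ℕ} {Q : ℝ} {Z : ℕ → ℝ} (hZ : ∀ r, 0 ≤ Z r) :
    0 ≤ E2 Pm Pr Q Z :=
  sum_nonneg fun _ _ => mul_nonneg (prod_nonneg fun _ _ => by positivity) (hZ _)

theorem ZI_nonneg {ι : Type} (I : Finset ι) (n : ι → ℕ) (w : ι → ℝ) (r : ℕ) : 0 ≤ ZI I n w r :=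
  sum_nonneg fun _ _ => norm_nonneg _

/-- The weighted number of points which avoid all the classes of `Pm ∪ Pr`. -/
theorem sift_lower (k km m0 X : ℕ) (Bs Pm Pr : Finset ℕ) (u : ℕ → ℕ) (Qm Qr δ η : ℝ)
    (lp lm : Finset ℕ → ℝ) (hP : ∀ p ∈ Pm ∪ Pr, p.Prime) (hd : Disjoint Pm Pr)
    (hu : ∀ p ∈ Pm ∪ Pr, ¬ p ∣ u p) (hm0 : ∀ p ∈ Pm ∪ Pr, ¬ p ∣ m0)
    (hBs : ∀ t ∈ Bs, t.Prime ∧ t ∉ Pm ∪ Pr) (hX : ∀ p ∈ Pm ∪ Pr, p ≤ X)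
    (hQm0 : 0 ≤ Qm) (hQr0 : 0 ≤ Qr)
    (hQm : ∀ T, T ⊆ Pm → T.card ≤ 2 * km + 1 → ((∏ p ∈ T, p : ℕ) : ℝ) ≤ Qm)
    (hδ0 : 0 ≤ δ) (hδ : δ ≤ 1) (hW : Wts Pr g1 Qr δ lp lm)
    (hη : sw (tW km) g1 Pm ≤ η * ∏ p ∈ Pm, (1 - g1 p)) :
    (Bs.card : ℝ) ^ (2 * k) * (∑ q ∈ PX X, thn q) * ((∏ p ∈ Pm, (1 - g1 p)) *
        (∏ p ∈ Pr, (1 - g1 p)) * ((1 - δ) - η * (1 + δ))) -
      2 * ((1 + δ) * (∏ p ∈ Pr, (1 - g1 p)) * EP Pm *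
          ((∑ q ∈ PX X, thn q) * E1 Pm Qm (ZB k Bs)) +
        EP Pm * EP Pr * ((Bs.card : ℝ) ^ (2 * k) * E2 Pm Pr (Qm * Qr) (Zs (PX X) thn))) ≤
    ∑ z ∈ famI k Bs (PX X), thn z.2 * ∏ p ∈ Pm ∪ Pr, (1 - ind u p (pt m0 k z)) := by
  obtain ⟨I, hI⟩ : ∃ I, I = famI k Bs (PX X) := ⟨_, rfl⟩
  obtain ⟨Vm, hVm⟩ : ∃ Vm, Vm = ∏ p ∈ Pm, (1 - g1 p) := ⟨_, rfl⟩
  obtain ⟨Vr, hVr⟩ : ∃ Vr, Vr = ∏ p ∈ Pr, (1 - g1 p) := ⟨_, rfl⟩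
  obtain ⟨Th, hTh⟩ : ∃ Th, Th = ∑ q ∈ PX X, thn q := ⟨_, rfl⟩
  have hPm : ∀ p ∈ Pm, p.Prime := fun p hp => hP p (mem_union_left _ hp)
  have hPr : ∀ p ∈ Pr, p.Prime := fun p hp => hP p (mem_union_right _ hp)
  have hgm : ∀ p ∈ Pm, 0 ≤ g1 p ∧ g1 p ≤ 1 := fun p hp => g1_mem (hPm p hp)
  have hgr : ∀ p ∈ Pr, 0 ≤ g1 p ∧ g1 p ≤ 1 := fun p hp => g1_mem (hPr p hp)
  have hVm0 : 0 ≤ Vm := by rw [hVm]; exact one_sub_prod_nonneg hgm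
  have hVr0 : 0 ≤ Vr := by rw [hVr]; exact one_sub_prod_nonneg hgr
  have hTh0 : 0 ≤ Th := by rw [hTh]; exact sum_nonneg fun q _ => thn_nonneg q
  have hEm0 : 0 ≤ EP Pm := EP_nonneg hPm
  have hEr0 : 0 ≤ EP Pr := EP_nonneg hPr
  -- the sieve sums at the densities
  obtain ⟨Gp, hGp⟩ : ∃ Gp, Gp = sw lp g1 Pr := ⟨_, rfl⟩
  obtain ⟨Gm, hGm⟩ : ∃ Gm, Gm = sw lm g1 Pr := ⟨_, rfl⟩
  obtain ⟨GU, hGU⟩ : ∃ GU, GU = sw (tU km) g1 Pm := ⟨_, rfl⟩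
  obtain ⟨GW, hGW⟩ : ∃ GW, GW = sw (tW km) g1 Pm := ⟨_, rfl⟩
  have g_p1 : Vr ≤ Gp := by rw [hVr, hGp]; exact hW.up g1 hgr
  have g_p2 : Gp ≤ (1 + δ) * Vr := by rw [hVr, hGp]; exact hW.gp
  have g_m1 : (1 - δ) * Vr ≤ Gm := by rw [hVr, hGm]; exact hW.gm
  have g_m2 : Gm ≤ Vr := by rw [hVr, hGm]; exact hW.lo g1 hgr
  have g_U : Vm ≤ GU := by rw [hVm, hGU]; exact tU_ge km Pm g1 hgm
  have g_W : GW ≤ η * Vm := by rw [hVm, hGW]; exact hη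
  have g_W0 : 0 ≤ GW := by rw [hGW]; exact tW_nonneg km Pm g1 fun p hp => (hgm p hp).1
  have hGp0 : 0 ≤ Gp := hVr0.trans g_p1
  have hGm0 : 0 ≤ Gm := le_trans (mul_nonneg (by linarith) hVr0) g_m1
  have aGp : |Gp| ≤ (1 + δ) * Vr := by rwa [abs_of_nonneg hGp0]
  have aGm : |Gm| ≤ (1 + δ) * Vr := by
    rw [abs_of_nonneg hGm0]
    nlinarith
  -- the expansions
  have hn : ∀ z ∈ I, ∀ p ∈ Pm ∪ Pr, ¬ p ∣ pt m0 k z := by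
    intro z hz p hp
    rw [hI] at hz
    exact pt_not_dvd (hP p hp) (hm0 p hp) (fun t ht => (hBs t ht).1)
      (fun h => (hBs p h).2 hp) (hX p hp) z hz
  have hUabs : ∀ T, |tU km T| ≤ 1 := by
    intro T
    unfold tU
    split_ifs
    · rw [abs_pow, abs_neg, abs_one, one_pow]
    · simp
  have hWabs : ∀ T, |tW km T| ≤ 1 := by
    intro T
    unfold tW
    split_ifs <;> simp
  have hUQ : ∀ T, T ⊆ Pm → tU km T ≠ 0 → ((∏ p ∈ T, p : ℕ) : ℝ) ≤ Qm := by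
    intro T hT h
    refine hQm T hT ?_
    unfold tU at h
    by_contra hc
    rw [if_neg (by omega)] at h
    exact h rfl
  have hWQ : ∀ T, T ⊆ Pm → tW km T ≠ 0 → ((∏ p ∈ T, p : ℕ) : ℝ) ≤ Qm := by
    intro T hT h
    refine hQm T hT ?_
    unfold tW at h
    by_contra hc
    rw [if_neg (by omega)] at h
    exact h rfl
  have e1 := two_expand I (pt m0 k) (fun z => thn z.2) Pm Pr u hP hd hu hn (tU km) lm hUabs hW.bm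
    Qm Qr hQm0 hQr0 hUQ hW.sm
  have e2 := two_expand I (pt m0 k) (fun z => thn z.2) Pm Pr u hP hd hu hn (tW km) lp hWabs hW.bp
    Qm Qr hQm0 hQr0 hWQ hW.sp
  rw [← hGU, ← hGm] at e1
  rw [← hGW, ← hGp] at e2
  obtain ⟨N, hN⟩ : ∃ N, N = (Bs.card : ℝ) ^ (2 * k) := ⟨_, rfl⟩
  have hN0 : 0 ≤ N := by rw [hN]; positivity
  have hsum : ∑ z ∈ I, thn z.2 = N * Th := by
    rw [hI, fam_sum, hN, hTh]
  have z1 : E1 Pm Qm (ZI I (pt m0 k) fun z => thn z.2) ≤ Th * E1 Pm Qm (ZB k Bs) := by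
    refine E1_mono hPm fun r hr => ?_
    rw [hI, hTh]
    exact ZI_le2 k m0 Bs (PX X) r hr
  have z2 : E2 Pm Pr (Qm * Qr) (ZI I (pt m0 k) fun z => thn z.2) ≤
      N * E2 Pm Pr (Qm * Qr) (Zs (PX X) thn) := by
    refine E2_mono hP fun r hr => ?_
    rw [hI, hN]
    exact ZI_le1 k m0 Bs (PX X) r hr
  have z0 : 0 ≤ E1 Pm Qm (ZI I (pt m0 k) fun z => thn z.2) := E1_nonneg fun r => ZI_nonneg _ _ _ r
  obtain ⟨R1, hR1⟩ : ∃ R1, R1 = E1 Pm Qm (ZI I (pt m0 k) fun z => thn z.2) := ⟨_, rfl⟩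
  obtain ⟨R2, hR2⟩ : ∃ R2, R2 = E2 Pm Pr (Qm * Qr) (ZI I (pt m0 k) fun z => thn z.2) := ⟨_, rfl⟩
  rw [← hR1] at z1 z0 e1 e2
  rw [← hR2] at z2 e1 e2
  obtain ⟨Err, hErr⟩ : ∃ Err, Err = (1 + δ) * Vr * EP Pm * R1 + EP Pm * EP Pr * R2 := ⟨_, rfl⟩
  have b1 : |Gm| * EP Pm * R1 + EP Pm * EP Pr * R2 ≤ Err := by
    rw [hErr]
    have := mul_le_mul_of_nonneg_right (mul_le_mul_of_nonneg_right aGm hEm0) z0
    linarith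
  have b2 : |Gp| * EP Pm * R1 + EP Pm * EP Pr * R2 ≤ Err := by
    rw [hErr]
    have := mul_le_mul_of_nonneg_right (mul_le_mul_of_nonneg_right aGp hEm0) z0
    linarith
  have b3 : Err ≤ (1 + δ) * Vr * EP Pm * (Th * E1 Pm Qm (ZB k Bs)) +
      EP Pm * EP Pr * (N * E2 Pm Pr (Qm * Qr) (Zs (PX X) thn)) := by
    rw [hErr]
    have h1 : 0 ≤ (1 + δ) * Vr * EP Pm := by positivity
    have h2 : 0 ≤ EP Pm * EP Pr := by positivity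
    exact add_le_add (mul_le_mul_of_nonneg_left z1 h1) (mul_le_mul_of_nonneg_left z2 h2)
  -- the pointwise inequality
  have point : ∀ z ∈ I, thn z.2 * (sw (tU km) (fun p => ind u p (pt m0 k z)) Pm *
        sw lm (fun p => ind u p (pt m0 k z)) Pr) -
      thn z.2 * (sw (tW km) (fun p => ind u p (pt m0 k z)) Pm *
        sw lp (fun p => ind u p (pt m0 k z)) Pr) ≤
      thn z.2 * ∏ p ∈ Pm ∪ Pr, (1 - ind u p (pt m0 k z)) := by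
    intro z _
    rw [← mul_sub]
    refine mul_le_mul_of_nonneg_left ?_ (thn_nonneg _)
    rw [prod_union hd]
    obtain ⟨f, hf⟩ : ∃ f : ℕ → ℝ, f = fun p => ind u p (pt m0 k z) := ⟨_, rfl⟩
    have hfm : ∀ p ∈ Pm, 0 ≤ f p ∧ f p ≤ 1 := fun p _ => by rw [hf]; exact ind_mem _ _ _
    have hfr : ∀ p ∈ Pr, 0 ≤ f p ∧ f p ≤ 1 := fun p _ => by rw [hf]; exact ind_mem _ _ _
    have c1 := hW.up f hfr
    have c2 := hW.lo f hfr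
    have c3 := tU_ge km Pm f hfm
    have c4 := tU_le km Pm f hfm
    have c5 := tW_nonneg km Pm f fun p hp => (hfm p hp).1
    have c6 := one_sub_prod_nonneg hfm
    have c7 := one_sub_prod_nonneg hfr
    have d1 : sw (tU km) f Pm * sw lm f Pr ≤ sw (tU km) f Pm * ∏ p ∈ Pr, (1 - f p) :=
      mul_le_mul_of_nonneg_left c2 (c6.trans c3)
    have d2 : sw (tW km) f Pm * ∏ p ∈ Pr, (1 - f p) ≤ sw (tW km) f Pm * sw lp f Pr :=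
      mul_le_mul_of_nonneg_left c1 c5
    have d3 : (sw (tU km) f Pm - sw (tW km) f Pm) * ∏ p ∈ Pr, (1 - f p) ≤
        (∏ p ∈ Pm, (1 - f p)) * ∏ p ∈ Pr, (1 - f p) := mul_le_mul_of_nonneg_right c4 c7
    have e : (fun p => ind u p (pt m0 k z)) = f := hf.symm
    have e' : ∀ P : Finset ℕ, ∏ p ∈ P, (1 - ind u p (pt m0 k z)) = ∏ p ∈ P, (1 - f p) := by
      intro P
      rw [hf]
    rw [e, e', e']
    linarith [sub_mul (sw (tU km) f Pm) (sw (tW km) f Pm) (∏ p ∈ Pr, (1 - f p))]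
  have total := sum_le_sum point
  rw [sum_sub_distrib] at total
  rw [← hI, ← hTh, ← hVm, ← hVr, ← hN]
  rw [hsum] at e1 e2
  have f1 := (abs_le.1 e1).1
  have f2 := (abs_le.1 e2).2
  -- the main term
  have m1 : (1 - δ) * (Vm * Vr) ≤ GU * Gm := by
    have h1 : Vm * Gm ≤ GU * Gm := mul_le_mul_of_nonneg_right g_U hGm0
    have h2 : Vm * ((1 - δ) * Vr) ≤ Vm * Gm := mul_le_mul_of_nonneg_left g_m1 hVm0
    linarith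
  have m2 : GW * Gp ≤ η * (1 + δ) * (Vm * Vr) := by
    have h1 : GW * Gp ≤ (η * Vm) * Gp := mul_le_mul_of_nonneg_right g_W hGp0
    have h2 : (η * Vm) * Gp ≤ (η * Vm) * ((1 + δ) * Vr) :=
      mul_le_mul_of_nonneg_left g_p2 (g_W0.trans g_W)
    linarith
  have hNT : 0 ≤ N * Th := mul_nonneg hN0 hTh0
  have m3 : N * Th * (Vm * Vr * ((1 - δ) - η * (1 + δ))) ≤ GU * Gm * (N * Th) - GW * Gp * (N * Th) := by
    have := mul_le_mul_of_nonneg_right (sub_le_sub m1 m2) hNT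
    linarith
  linarith

end Pool.MP42e49e.ER
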