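import Pool.Agent.H.MP_42e49e_nt.ER.Defs

/-!
# ER: the number of representations as a product of primes of a block
-/

set_option autoImplicit false

namespace Pool.MP42e49e.ER

open Finset

/-- The number of representations of `m` as a product of `k` elements of `Bs`. -/
noncomputable def rep (k : ℕ) (Bs : Finset ℕ) (m : ℕ) : ℕ :=
  ((Fintype.piFinset fun _ : Fin k => Bs).filter (fun t => ∏ i, t i = m)).card

private theorem TauA_sort {k : ℕ} {t t' : Fin k → ℕ} (h : List.Perm (List.ofFn t) (List.ofFn t')) :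
    t ∘ Tuple.sort t = t' ∘ Tuple.sort t' := by
  have h1 : List.Perm (List.ofFn (t ∘ Tuple.sort t)) (List.ofFn (t' ∘ Tuple.sort t')) :=
    ((Equiv.Perm.ofFn_comp_perm _ t).trans h).trans (Equiv.Perm.ofFn_comp_perm _ t').symm
  have h2 : (List.ofFn (t ∘ Tuple.sort t)).SortedLE :=
    List.sortedLE_ofFn_iff.2 (Tuple.monotone_sort t)
  have h3 : (List.ofFn (t' ∘ Tuple.sort t')).SortedLE :=
    List.sortedLE_ofFn_iff.2 (Tuple.monotone_sort t')
  exact List.ofFn_injective (h1.eq_of_pairwise' h2.pairwise h3.pairwise)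

/-- PROOF. For primes, `∏ t = ∏ t'` implies that `t'` is a permutation of `t` (the multisets of the values agree: `Nat.factors_unique` /
`UniqueFactorizationMonoid`), so there are at most `k!` tuples with a given product. -/
theorem rep_le (k : ℕ) (Bs : Finset ℕ) (hB : ∀ t ∈ Bs, t.Prime) (m : ℕ) :
    rep k Bs m ≤ k.factorial := by
  classical
  unfold rep
  have hcard : (univ : Finset (Equiv.Perm (Fin k))).card = k.factorial := by
    rw [card_univ, Fintype.card_perm, Fintype.card_fin]
  rw [← hcard]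
  refine card_le_card_of_injOn (fun t => Tuple.sort t) (fun t _ => mem_coe.2 (mem_univ _)) ?_
  intro t ht t' ht' he
  have ht := mem_coe.1 ht
  have ht' := mem_coe.1 ht'
  rw [mem_filter, Fintype.mem_piFinset] at ht ht'
  have key : ∀ s : Fin k → ℕ, (∀ i, s i ∈ Bs) → ∏ i, s i = m →
      List.Perm (List.ofFn s) m.primeFactorsList := by
    intro s hs hm
    refine Nat.primeFactorsList_unique (by rw [List.prod_ofFn, hm]) fun p hp => ?_
    obtain ⟨i, rfl⟩ := List.mem_ofFn.1 hp
    exact hB _ (hs i)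
  have h1 := TauA_sort ((key t ht.1 ht.2).trans (key t' ht'.1 ht'.2).symm)
  have he' : Tuple.sort t = Tuple.sort t' := he
  funext i
  have h2 := congrFun h1 ((Tuple.sort t)⁻¹ i)
  simp only [Function.comp_apply] at h2
  rw [← he'] at h2
  simpa using h2

/-- PROOF. `∑_m rep^2 ≤ k! ∑_m rep = k! |Bs|^k`. -/
theorem rep_sq (k : ℕ) (Bs : Finset ℕ) (hB : ∀ t ∈ Bs, t.Prime) (S : Finset ℕ) :
    ∑ m ∈ S, (rep k Bs m : ℝ) ^ 2 ≤ (k.factorial : ℝ) * (Bs.card : ℝ) ^ k := by
  classical
  have h1 : ∀ m ∈ S, (rep k Bs m : ℝ) ^ 2 ≤ (k.factorial : ℝ) * (rep k Bs m : ℝ) := by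
    intro m _
    have h2 : (rep k Bs m : ℝ) ≤ k.factorial := by exact_mod_cast rep_le k Bs hB m
    rw [sq]
    exact mul_le_mul_of_nonneg_right h2 (Nat.cast_nonneg _)
  refine (sum_le_sum h1).trans ?_
  rw [← mul_sum]
  refine mul_le_mul_of_nonneg_left ?_ (Nat.cast_nonneg _)
  have h3 : ∑ m ∈ S, rep k Bs m ≤ Bs.card ^ k := by
    have h4 : (Fintype.piFinset fun _ : Fin k => Bs).card = Bs.card ^ k := by
      rw [Fintype.card_piFinset]
      simp
    rw [← h4]
    unfold rep
    have h5 : ∀ m, ((Fintype.piFinset fun _ : Fin k => Bs).filter (fun t => ∏ i, t i = m)).card =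
        ∑ t ∈ Fintype.piFinset fun _ : Fin k => Bs, if ∏ i, t i = m then 1 else 0 := by
      intro m
      rw [card_filter]
    rw [sum_congr rfl fun m _ => h5 m, sum_comm, card_eq_sum_ones]
    refine sum_le_sum fun t _ => ?_
    rw [sum_ite_eq]
    split_ifs <;> simp
  exact_mod_cast h3

end Pool.MP42e49e.ER
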